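import Mathlib

/-!
# OSP-CAlg: coordinate rings of affine curves inside a function field (definitions)
-/

namespace Pool.Agent.OSP

variable {K : Type} [Field K] [Algebra ℂ K]

/-- `R` is a finitely generated `ℂ`-algebra of dimension `≤ 1` with fraction field `K` -/
structure CurveAlg (R : Subalgebra ℂ K) : Prop where
  fg : R.FG
  frac : ∀ x : K, ∃ a ∈ R, ∃ b ∈ R, b ≠ 0 ∧ x * b = a
  dim : ∀ P : Ideal R, P.IsPrime → P ≠ ⊥ → P.IsMaximal

/-- the valuation subring `O` contains the constants -/
def HasC (O : ValuationSubring K) : Prop := ∀ c : ℂ, algebraMap ℂ K c ∈ O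

/-- `O` is the localisation of the integral closure of `R` at `P` -/
def IsLocAt (R : Subalgebra ℂ K) (P : Ideal (integralClosure R K)) (O : ValuationSubring K) :
    Prop :=
  ∀ x : K, x ∈ O ↔ ∃ a b : integralClosure R K, b ∉ P ∧ x * (b : K) = a

end Pool.Agent.OSP
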