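import Pool.Agent.OSP.CovA
import Pool.Agent.BE.GeoA
import Pool.Agent.BE.GeoB
import Pool.Agent.BE.GeoC
import Pool.Agent.BE.M4

/-!
# OSP-CovB: two affine charts covering a curve in a projective surface

The non closed points of the curve are finitely many; two affine opens are enough.
-/

open CategoryTheory CategoryTheory.Limits AlgebraicGeometry Opposite TopologicalSpace

namespace Pool.Agent.OSP

open Pool.Agent.BE

variable {S : Scheme.{0}}

private theorem cov_finite [IsNoetherian S] [IsIntegral S] (hd : topologicalKrullDim S = 2)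
    (Z : Set S) (hZ : IsClosed Z) (hη : genericPoint S ∉ Z) :
    {s | s ∈ Z ∧ ¬ IsClosed ({s} : Set S)}.Finite := by
  obtain ⟨T, hT, hTc, hTi, hTZ⟩ := NoetherianSpace.exists_finite_set_isClosed_irreducible hZ
  have h1 : {s | s ∈ Z ∧ ¬ IsClosed ({s} : Set S)} ⊆
      ⋃ t ∈ T, {s | s ∈ t ∧ ¬ IsClosed ({s} : Set S)} := by
    rintro s ⟨hs, hc⟩
    rw [hTZ] at hs
    obtain ⟨t, ht, hst⟩ := hs
    exact Set.mem_biUnion ht ⟨hst, hc⟩
  refine (hT.biUnion fun t ht => ?_).subset h1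
  obtain ⟨c, hc⟩ := QuasiSober.sober (hTi t ht) (hTc t ht)
  refine (Set.finite_singleton c).subset ?_
  rintro s ⟨hs, hns⟩
  rw [Set.mem_singleton_iff]
  by_contra hne
  apply hns
  refine closed_of_chain hd c s ?_ (hc.specializes hs) (fun h => hne h.symm)
  intro h
  apply hη
  rw [← h, hTZ]
  exact Set.mem_sUnion_of_mem hc.mem ht

theorem exists_cover (sS : S ⟶ SpecC) (hS : IsProj sS) [IsIntegral S]
    (hd : topologicalKrullDim S = 2) (Z : Set S) (hZ : IsClosed Z) (hη : genericPoint S ∉ Z) :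
    ∃ W0 W1 : Aff S, (∀ s ∈ Z, s ∈ W0.1 ∨ s ∈ W1.1) ∧
      ∀ s ∈ Z, ¬ IsClosed ({s} : Set S) → s ∈ W0.1 ∧ s ∈ W1.1 := by
  haveI := noeth_of_proj sS hS
  have hN := cov_finite hd Z hZ hη
  obtain ⟨U0, hU0, h0⟩ := exists_affine_contains sS hS _ hN
  have hF : (Z \ (U0 : Set S)).Finite := by
    refine finite_of_closed_points _ (hZ.sdiff U0.2) ?_
    rintro s ⟨hs, hs0⟩
    by_contra hc
    exact hs0 (h0 ⟨hs, hc⟩)
  obtain ⟨U1, hU1, h1⟩ := exists_affine_contains sS hS _ (hN.union hF)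
  refine ⟨⟨U0, hU0⟩, ⟨U1, hU1⟩, ?_, ?_⟩
  · intro s hs
    by_cases h : s ∈ U0
    · exact Or.inl h
    · exact Or.inr (h1 (Or.inr ⟨hs, h⟩))
  · intro s hs hc
    exact ⟨h0 ⟨hs, hc⟩, h1 (Or.inl ⟨hs, hc⟩)⟩

end Pool.Agent.OSP
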