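import Pool.Agent.BE.MainDefs
import Pool.Agent.BE.GeoDefs

/-!
# OSP-Defs: the main notions

`NoSplit y`: there is no nontrivial triangle `A → O_y → B` of torsion objects with `Hom^{≤ 0}(A, B) = 0`.
`PosPt d`: the normalisation of the closure of `d` has positive genus, by Čech cohomology on every two-chart
cover. `NoRat S`: this holds for all points which are neither closed nor generic (`S` a surface: for all
integral curves in `S`).
-/

open CategoryTheory CategoryTheory.Limits CategoryTheory.Pretriangulated AlgebraicGeometry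
  Opposite TopologicalSpace DerivedCategory

namespace Pool.Agent.OSP

open Pool.Agent.BE

universe w

variable {S : Scheme.{0}}

def NoSplit (S : Scheme.{0}) [IsIntegral S] [HasDerivedCategory.{w} (QCoh S)] (y : S)
    (hy : IsClosed ({y} : Set S)) : Prop :=
  ∀ (A B : DerivedCategory (QCoh S)) (f : A ⟶ Ox y hy) (g : Ox y hy ⟶ B) (h : B ⟶ A⟦(1 : ℤ)⟧),
    Triangle.mk f g h ∈ distTriang (DerivedCategory (QCoh S)) → Dbc S A → Dbc S B →
    (∀ n, genericPoint S ∉ Supp (Hn n A)) → (∀ n, genericPoint S ∉ Supp (Hn n B)) →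
    (∀ i : ℤ, i ≤ 0 → ∀ u : A ⟶ B⟦i⟧, u = 0) → IsZero A ∨ IsZero B

def PosPt (d : S) : Prop :=
  ∀ (W0 W1 : Aff S) (h0 : d ∈ W0.1) (h1 : d ∈ W1.1), (∀ s : S, d ⤳ s → s ∈ W0.1 ∨ s ∈ W1.1) →
    ∃ g : Γ(S, W0.1 ⊓ W1.1), ∀ a0 a1 : S.residueField d,
      IsIntegral (ev d h0).range a0 → IsIntegral (ev d h1).range a1 →
        ev (U := W0.1 ⊓ W1.1) d ⟨h0, h1⟩ g ≠ a0 + a1

def NoRat (S : Scheme.{0}) [IsIntegral S] : Prop :=
  ∀ d : S, d ≠ genericPoint S → ¬ IsClosed ({d} : Set S) → PosPt d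

end Pool.Agent.OSP
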