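import Pool.Agent.OSP.MVq
import Pool.Agent.OSP.F2x
import Pool.Agent.OSP.Cov
import Pool.Agent.OSP.Defs
import Pool.Agent.BE.M7
import Pool.Agent.BE.DerF
import Pool.Agent.BE.SkyTo
import Pool.Agent.BE.SkyFrom

/-!
# OSP-CLm: the curve lemma
-/

open CategoryTheory CategoryTheory.Limits CategoryTheory.Pretriangulated AlgebraicGeometry
  Opposite TopologicalSpace DerivedCategory

namespace Pool.Agent.OSP

open Pool.Agent.BE

universe w

variable {S : Scheme.{0}}

theorem noSplit_of_noRat (sS : S ⟶ SpecC) (hS : IsProj sS) [IsIntegral S]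
    (hd : topologicalKrullDim S = 2) (hN : NoRat S) [HasDerivedCategory.{w} (QCoh S)] (x : S)
    (hx : IsClosed ({x} : Set S)) : NoSplit S x hx := by
  intro X Z f g h hT hX hZ gX gZ h0
  have hnoeth : IsNoetherian S := noeth_of_proj sS hS
  have hsep : S.IsSeparated := sep_of_proj sS hS
  have h00 : ∀ u : X ⟶ Z, u = 0 := by
    intro u
    have := h0 0 le_rfl (u ≫ ((shiftFunctorZero (DerivedCategory (QCoh S)) ℤ).app Z).inv)
    have h2 : u = (u ≫ ((shiftFunctorZero (DerivedCategory (QCoh S)) ℤ).app Z).inv) ≫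
        ((shiftFunctorZero (DerivedCategory (QCoh S)) ℤ).app Z).hom := by simp
    rw [h2, this, zero_comp]
  -- the union of the supports
  obtain ⟨-, a, b, hab⟩ := id hX
  obtain ⟨-, c, d, hcd⟩ := id hZ
  let T : Set S := {x} ∪ ((⋃ n ∈ Set.Icc a b, Supp (Hn n X)) ∪ (⋃ n ∈ Set.Icc c d, Supp (Hn n Z)))
  have hTc : IsClosed T := hx.union (((Set.finite_Icc a b).isClosed_biUnion
    fun n _ => supp_closed _).union ((Set.finite_Icc c d).isClosed_biUnion fun n _ => supp_closed _))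
  have hTX : ∀ n, ∀ s ∈ Supp (Hn n X), s ∈ T := by
    intro n s hs
    refine Or.inr (Or.inl (Set.mem_biUnion (x := n) ?_ hs))
    by_contra hn
    rw [Set.mem_Icc, not_and_or, not_le, not_le] at hn
    have h1 := (isZero_iff_supp _).1 (hab n hn)
    rw [h1] at hs
    exact hs
  have hTZ : ∀ n, ∀ s ∈ Supp (Hn n Z), s ∈ T := by
    intro n s hs
    refine Or.inr (Or.inr (Set.mem_biUnion (x := n) ?_ hs))
    by_contra hn
    rw [Set.mem_Icc, not_and_or, not_le, not_le] at hn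
    have h1 := (isZero_iff_supp _).1 (hcd n hn)
    rw [h1] at hs
    exact hs
  have hη : genericPoint S ∉ T := by
    rintro (h1 | h1 | h1)
    · have h2 := not_closed_of_dim (X := S) (by rw [hd]; exact one_le_two)
      rw [Set.mem_singleton_iff.1 h1] at h2
      exact h2 hx
    · obtain ⟨n, -, h2⟩ := Set.mem_iUnion₂.1 h1
      exact gX n h2
    · obtain ⟨n, -, h2⟩ := Set.mem_iUnion₂.1 h1
      exact gZ n h2
  obtain ⟨W0, W1, hcov, hnc⟩ := exists_cover sS hS hd T hTc hη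
  have hi : ∀ n : ℕ, n ≠ 0 → ∃ a : Γ(S, ⊤), (n : Γ(S, ⊤)) * a = 1 := inv_of_over sS
  have hcl : ∀ n s, s ∈ Supp (Hn n X) ∨ s ∈ Supp (Hn n Z) → IsClosed ({s} : Set S) := by
    intro n s hs
    by_contra hcon
    have hsT : s ∈ T := hs.elim (hTX n s) (hTZ n s)
    have hsη : s ≠ genericPoint S := fun h1 => hη (h1 ▸ hsT)
    obtain ⟨s0, s1⟩ := hnc s hsT hcon
    obtain ⟨c, hc⟩ := hN s hsη hcon W0 W1 s0 s1 (fun t ht => hcov t (ht.mem_closed hTc hsT))
    obtain ⟨⟨E⟩, ⟨E'⟩⟩ := endFam_of_tri W0 W1 c x hx (hcov x (Or.inl rfl)) X Z f g h hT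
      (fun n t ht => hcov t (hTX n t ht)) (fun n t ht => hcov t (hTZ n t ht)) h00 n
    rcases hs with hs | hs
    · exact lemF2x W0 W1 c _ (hX.1 n) E s s0 s1 hi hc hs
    · exact lemF2x W0 W1 c _ (hZ.1 n) E' s s0 s1 hi hc hs
  have hsup := step3 x hx X Z f g h hT hX hZ (h0 (-1) (by norm_num)) hcl
  have hmem : ∀ M : QCoh S, ¬ IsZero M → Supp M ⊆ {x} → Supp M = {x} := by
    intro M hM hs
    rcases Set.subset_singleton_iff_eq.1 hs with h1 | h1
    · exact absurd ((isZero_iff_supp M).2 h1) hM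
    · exact h1
  obtain ⟨U, hU, hxU, -⟩ := exists_isAffineOpen_mem_and_subset (U := (⊤ : S.Opens)) (x := x) trivial
  haveI := sky_simple x hx
  refine lemFin (sky x hx) X Z f g h hT h0 ?_ ?_ ?_ ?_
  · obtain ⟨a, b, hab⟩ := hX.2
    exact ⟨b, fun n hn => hab n (Or.inr hn)⟩
  · obtain ⟨a, b, hab⟩ := hZ.2
    exact ⟨a, fun n hn => hab n (Or.inl hn)⟩
  · intro n hn
    refine exists_toSky _ x hx ?_ ⟨U, hU⟩ hxU (hX.1 n _)
    rw [hmem _ hn (hsup n).1]
    rfl
  · intro n hn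
    exact exists_fromSky _ x hx (hmem _ hn (hsup n).2) ⟨U, hU⟩ hxU (hZ.1 n _)

end Pool.Agent.OSP
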