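import Pool.Agent.BE.StE
import Pool.Agent.BE.PhG

/-!
# OSP-Cell: cells, and the central charge

The phases of an object lie in one cell of `φ + ℤ`; an object with phases in an open cell has a central
charge outside of the line of phase `φ`.
-/

open CategoryTheory CategoryTheory.Limits CategoryTheory.Pretriangulated

namespace Pool.Agent.OSP

open Pool.Agent.BE

universe v u

theorem cells (φ : ℝ) (l : List ℝ) (hl : l ≠ [])
    (h : ∀ m : ℤ, ((∀ ψ ∈ l, ψ ≤ φ + m) ∨ (∀ ψ ∈ l, φ + m < ψ)) ∧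
      ((∀ ψ ∈ l, ψ < φ + m) ∨ (∀ ψ ∈ l, φ + m ≤ ψ))) :
    ∃ m : ℤ, (∀ ψ ∈ l, ψ = φ + m) ∨ (∀ ψ ∈ l, φ + m < ψ ∧ ψ < φ + m + 1) := by
  obtain ⟨ψ0, h0⟩ := List.exists_mem_of_ne_nil l hl
  have h1 : ((⌊ψ0 - φ⌋ : ℤ) : ℝ) ≤ ψ0 - φ := Int.floor_le _
  have h2 : ψ0 - φ < ((⌊ψ0 - φ⌋ : ℤ) : ℝ) + 1 := Int.lt_floor_add_one _
  refine ⟨⌊ψ0 - φ⌋, ?_⟩
  set m : ℤ := ⌊ψ0 - φ⌋ with hm
  have h3 : ∀ ψ ∈ l, φ + (m : ℝ) ≤ ψ := by
    rcases (h m).2 with h3 | h3
    · have := h3 ψ0 h0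
      linarith
    · exact h3
  have h4 : ∀ ψ ∈ l, ψ < φ + (m : ℝ) + 1 := by
    rcases (h (m + 1)).2 with h4 | h4
    · intro ψ hψ
      have h5 := h4 ψ hψ
      push_cast at h5
      linarith
    · have h5 := h4 ψ0 h0
      push_cast at h5
      linarith
  rcases (h m).1 with h5 | h5
  · left
    exact fun ψ hψ => le_antisymm (h5 ψ hψ) (h3 ψ hψ)
  · right
    exact fun ψ hψ => ⟨h5 ψ hψ, h4 ψ hψ⟩

variable {D : Type u} [Category.{v} D] [Preadditive D] [HasZeroObject D] [HasShift D ℤ]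
  [∀ n : ℤ, (shiftFunctor D n).Additive] [Pretriangulated D] [IsTriangulated D]
  {T : ObjectProperty D} [T.IsTriangulated] [T.IsClosedUnderIsomorphisms]

/-- the sign of the component of the central charge in an open cell -/
private theorem cell_cc_sign (σ : StabCond T) (φ : ℝ) (m : ℤ) {l : List ℝ} {X : D}
    (h : HNFilt σ.P l X) (hm : ∀ ψ ∈ l, φ + m < ψ ∧ ψ < φ + m + 1) :
    0 ≤ σ.cc φ X * Real.cos (m * Real.pi) ∧ (l ≠ [] → 0 < σ.cc φ X * Real.cos (m * Real.pi)) := by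
  induction h with
  | zero X hX =>
    refine ⟨?_, fun h => absurd rfl h⟩
    rw [σ.cc_isZero φ hX, zero_mul]
  | cons φ' l E X A f g h hT hA hA0 hll hE ih =>
    obtain ⟨ih1, -⟩ := ih (fun ψ hψ => hm ψ (List.mem_cons_of_mem _ hψ))
    have hTE : T E := σ.hn_mem hE
    have hTA : T A := σ.P_le _ _ hA
    have hTX : T X := σ.hn_mem (HNFilt.cons φ' l E X A f g h hT hA hA0 hll hE)
    have hadd := σ.cc_add φ f g h hT hTE hTX hTA
    obtain ⟨r, hr, hc⟩ := σ.cc_P φ φ' hA hA0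
    obtain ⟨b1, b2⟩ := hm φ' List.mem_cons_self
    have hpi := Real.pi_pos
    have hs : 0 < Real.sin (Real.pi * (φ' - φ)) * Real.cos (m * Real.pi) := by
      have h1 : Real.sin (Real.pi * (φ' - φ)) * Real.cos (m * Real.pi) =
          Real.sin (Real.pi * (φ' - φ) - m * Real.pi) := by
        rw [Real.sin_sub, Real.sin_int_mul_pi, mul_zero, sub_zero]
      rw [h1]
      apply Real.sin_pos_of_pos_of_lt_pi
      · nlinarith
      · nlinarith
    have hA1 : 0 < σ.cc φ A * Real.cos (m * Real.pi) := by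
      rw [hc, mul_assoc]
      exact mul_pos hr hs
    have hX : 0 < σ.cc φ X * Real.cos (m * Real.pi) := by
      rw [hadd, add_mul]
      linarith
    exact ⟨hX.le, fun _ => hX⟩

theorem cc_open (σ : StabCond T) (φ : ℝ) (m : ℤ) {l : List ℝ} {X : D} (h : HNFilt σ.P l X)
    (hl : l ≠ []) (hm : ∀ ψ ∈ l, φ + m < ψ ∧ ψ < φ + m + 1) : σ.cc φ X ≠ 0 := by
  have h1 := (cell_cc_sign σ φ m h hm).2 hl
  intro h2
  rw [h2, zero_mul] at h1
  exact lt_irrefl _ h1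

theorem cc_zero (σ : StabCond T) (φ : ℝ) {X Y : D} (hY : σ.P φ Y) (hZ : σ.Z X = σ.Z Y) :
    σ.cc φ X = 0 := by
  have h1 : σ.cc φ X = σ.cc φ Y := by
    unfold StabCond.cc
    rw [hZ]
  rw [h1]
  by_cases hY0 : IsZero Y
  · exact σ.cc_isZero φ hY0
  · obtain ⟨m, _, hm⟩ := σ.cc_P φ φ hY hY0
    rw [hm, sub_self, mul_zero, Real.sin_zero, mul_zero]

theorem even_of_Z (σ : StabCond T) (φ : ℝ) (m : ℤ) {X Y : D} (hX : σ.P (φ + m) X)
    (hX0 : ¬ IsZero X) (hY : σ.P φ Y) (hY0 : ¬ IsZero Y) (hZ : σ.Z X = σ.Z Y) : Even m := by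
  obtain ⟨r, hr, hrX⟩ := σ.Z_P _ X hX hX0
  obtain ⟨r', hr', hrY⟩ := σ.Z_P _ Y hY hY0
  rw [hrX, hrY] at hZ
  have hn : ∀ x : ℝ, ‖Complex.exp (Real.pi * x * Complex.I)‖ = 1 := by
    intro x
    have := Complex.norm_exp_ofReal_mul_I (Real.pi * x)
    rwa [Complex.ofReal_mul] at this
  have hrr : r = r' := by
    have h3 := congrArg norm hZ
    rw [norm_mul, norm_mul, hn, hn, mul_one, mul_one, Complex.norm_real, Complex.norm_real,
      Real.norm_of_nonneg hr.le, Real.norm_of_nonneg hr'.le] at h3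
    exact h3
  rw [hrr] at hZ
  have h4 := mul_left_cancel₀ (Complex.ofReal_ne_zero.2 hr'.ne') hZ
  obtain ⟨n, h5⟩ := Complex.exp_eq_exp_iff_exists_int.1 h4
  have hpi : (Real.pi : ℂ) ≠ 0 := Complex.ofReal_ne_zero.2 Real.pi_ne_zero
  have h6 : ((Real.pi : ℂ) * Complex.I) * (((φ + m : ℝ) : ℂ) - (φ + 2 * n)) = 0 := by
    linear_combination h5
  have h7 : ((φ + m : ℝ) : ℂ) - (φ + 2 * n) = 0 :=
    (mul_eq_zero.1 h6).resolve_left (mul_ne_zero hpi Complex.I_ne_zero)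
  have h8 : φ + m = φ + 2 * n := by
    have h9 : ((φ + m : ℝ) : ℂ) = ((φ + 2 * n : ℝ) : ℂ) := by
      push_cast at h7 ⊢
      linear_combination h7
    exact Complex.ofReal_injective h9
  have h9 : (m : ℝ) = 2 * n := by linarith
  have h10 : m = 2 * n := by exact_mod_cast h9
  exact ⟨n, by omega⟩

end Pool.Agent.OSP
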