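import Pool.Agent.BE.StG

/-!
# OSP-HNs: cutting a Harder-Narasimhan filtration

The list of an HN filtration is written from the smallest phase (head) to the largest.
-/

open CategoryTheory CategoryTheory.Limits CategoryTheory.Pretriangulated
open scoped ZeroObject

namespace Pool.Agent.OSP

open Pool.Agent.BE

universe v u

variable {D : Type u} [Category.{v} D] [Preadditive D] [HasZeroObject D] [HasShift D ℤ]
  [∀ n : ℤ, (shiftFunctor D n).Additive] [Pretriangulated D] [IsTriangulated D]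

theorem hn_split {P : ℝ → ObjectProperty D} (l1 : List ℝ) (l2 : List ℝ) : ∀ (X : D),
    HNFilt P (l2 ++ l1) X → ∃ (A B : D) (f : A ⟶ X) (g : X ⟶ B) (h : B ⟶ A⟦(1 : ℤ)⟧),
      Triangle.mk f g h ∈ distTriang D ∧ HNFilt P l1 A ∧ HNFilt P l2 B := by
  induction l2 with
  | nil =>
    intro X hX
    exact ⟨X, 0, 𝟙 X, 0, 0, contractible_distinguished X, hX, HNFilt.zero _ (isZero_zero D)⟩
  | cons φ l2 ih =>
    intro X hX
    cases hX with
    | cons _ _ E _ A0 f g h hT hA hA0 hl hE =>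
      obtain ⟨A, B', a, b, c, hT', hA1, hB'⟩ := ih E hE
      obtain ⟨B, v, w, hT''⟩ := distinguished_cocone_triangle (a ≫ f)
      have O := Triangulated.someOctahedron rfl hT' hT hT''
      exact ⟨A, B, a ≫ f, v, w, hT'', hA1,
        HNFilt.cons φ l2 B' B A0 _ _ _ O.mem hA hA0
          (fun ψ hψ => hl ψ (List.mem_append_left _ hψ)) hB'⟩

theorem hn_cut3 {P : ℝ → ObjectProperty D} (l1 l2 l3 : List ℝ) (X : D)
    (hX : HNFilt P (l3 ++ (l2 ++ l1)) X) :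
    ∃ (A A' B B' C : D) (f : A ⟶ X) (g : X ⟶ B) (h : B ⟶ A⟦(1 : ℤ)⟧)
      (f' : A' ⟶ X) (g' : X ⟶ B') (h' : B' ⟶ A'⟦(1 : ℤ)⟧)
      (a : A ⟶ A') (c : A' ⟶ C) (d : C ⟶ A⟦(1 : ℤ)⟧)
      (p : C ⟶ B) (q : B ⟶ B') (r : B' ⟶ C⟦(1 : ℤ)⟧),
      Triangle.mk f g h ∈ distTriang D ∧ Triangle.mk f' g' h' ∈ distTriang D ∧
      Triangle.mk a c d ∈ distTriang D ∧ Triangle.mk p q r ∈ distTriang D ∧
      HNFilt P l1 A ∧ HNFilt P (l2 ++ l1) A' ∧ HNFilt P l2 C ∧ HNFilt P l3 B' := by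
  obtain ⟨A', B', f', g', h', hT', hA', hB'⟩ := hn_split (l2 ++ l1) l3 X hX
  obtain ⟨A, C, a, c, d, hTa, hA, hC⟩ := hn_split l1 l2 A' hA'
  obtain ⟨B, v, w, hT''⟩ := distinguished_cocone_triangle (a ≫ f')
  have O := Triangulated.someOctahedron rfl hTa hT' hT''
  exact ⟨A, A', B, B', C, a ≫ f', v, w, f', g', h', a, c, d, _, _, _, hT'', hT', hTa, O.mem,
    hA, hA', hC, hB'⟩

/-- an HN list is sorted -/
theorem hn_pairwise {P : ℝ → ObjectProperty D} {l : List ℝ} {X : D} (h : HNFilt P l X) :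
    l.Pairwise (· < ·) := by
  induction h with
  | zero X h => exact List.Pairwise.nil
  | cons φ l E X A f g h hT hA hA0 hl hE ih => exact List.pairwise_cons.2 ⟨hl, ih⟩

private theorem three_of_pairwise (c : ℝ) : ∀ l : List ℝ, l.Pairwise (· < ·) →
    ∃ l1 l2 l3 : List ℝ, l = l3 ++ (l2 ++ l1) ∧ (∀ ψ ∈ l3, ψ < c) ∧ (∀ ψ ∈ l2, ψ = c) ∧
      ∀ ψ ∈ l1, c < ψ := by
  intro l
  induction l with
  | nil =>
    intro _
    refine ⟨[], [], [], rfl, ?_, ?_, ?_⟩ <;> · intro ψ h; cases h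
  | cons x t ih =>
    intro h
    obtain ⟨h1, h2⟩ := List.pairwise_cons.1 h
    rcases lt_trichotomy x c with hx | hx | hx
    · obtain ⟨l1, l2, l3, e, a1, a2, a3⟩ := ih h2
      refine ⟨l1, l2, x :: l3, by rw [e]; rfl, ?_, a2, a3⟩
      intro ψ hψ
      rcases List.mem_cons.1 hψ with h3 | h3
      · rw [h3]; exact hx
      · exact a1 ψ h3
    · refine ⟨t, [x], [], rfl, ?_, ?_, ?_⟩
      · intro ψ h; cases h
      · intro ψ hψ
        rw [List.mem_singleton.1 hψ]; exact hx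
      · intro ψ hψ
        rw [← hx]; exact h1 ψ hψ
    · refine ⟨x :: t, [], [], rfl, ?_, ?_, ?_⟩
      · intro ψ h; cases h
      · intro ψ h; cases h
      · intro ψ hψ
        rcases List.mem_cons.1 hψ with h3 | h3
        · rw [h3]; exact hx
        · exact hx.trans (h1 ψ h3)

/-- cutting an HN list at `c`: entries `< c`, `= c`, `> c` -/
theorem hn_three {P : ℝ → ObjectProperty D} {l : List ℝ} {X : D} (h : HNFilt P l X) (c : ℝ) :
    ∃ l1 l2 l3 : List ℝ, l = l3 ++ (l2 ++ l1) ∧ (∀ ψ ∈ l3, ψ < c) ∧ (∀ ψ ∈ l2, ψ = c) ∧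
      ∀ ψ ∈ l1, c < ψ :=
  three_of_pairwise c l (hn_pairwise h)

end Pool.Agent.OSP
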