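import Pool.Agent.OSP.SlD
import Pool.Agent.OSP.HNs

/-!
# OSP-CutG: the Harder-Narasimhan filtration of `O_y` cut at `φ + m` is torsion

Supports at `z` and at the generic point of the pieces of the filtration cut at `φ + m`.
-/

open CategoryTheory CategoryTheory.Limits CategoryTheory.Pretriangulated AlgebraicGeometry
  Opposite TopologicalSpace DerivedCategory

namespace Pool.Agent.OSP

open Pool.Agent.BE

universe w

variable {S : Scheme.{0}}

theorem cut_generic [IsNoetherian S] [S.IsSeparated] [IsIntegral S]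
    [HasDerivedCategory.{w} (QCoh S)] (hg : ¬ IsClosed ({genericPoint S} : Set S))
    (σ : StabCond (Dbc S)) (z : S) (hz : IsClosed ({z} : Set S))
    (hd : ringKrullDim (S.presheaf.stalk z) ≤ 2) (φ : ℝ)
    (hP : σ.StableOf φ (Ox z hz)) (y : S) (hy : IsClosed ({y} : Set S)) (hyz : y ≠ z) (m : ℤ)
    (l1 l2 l3 : List ℝ) (h1 : ∀ ψ ∈ l1, φ + m < ψ) (h2 : ∀ ψ ∈ l2, ψ = φ + m)
    (h3 : ∀ ψ ∈ l3, ψ < φ + m) (h : HNFilt σ.P (l3 ++ (l2 ++ l1)) (Ox y hy)) :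
    ∃ (A A' B B' C : DerivedCategory (QCoh S))
      (f : A ⟶ Ox y hy) (g : Ox y hy ⟶ B) (k : B ⟶ A⟦(1 : ℤ)⟧)
      (f' : A' ⟶ Ox y hy) (g' : Ox y hy ⟶ B') (k' : B' ⟶ A'⟦(1 : ℤ)⟧)
      (p : C ⟶ B) (q : B ⟶ B') (r : B' ⟶ C⟦(1 : ℤ)⟧),
      Triangle.mk f g k ∈ distTriang (DerivedCategory (QCoh S)) ∧
      Triangle.mk f' g' k' ∈ distTriang (DerivedCategory (QCoh S)) ∧
      Triangle.mk p q r ∈ distTriang (DerivedCategory (QCoh S)) ∧
      HNFilt σ.P l1 A ∧ HNFilt σ.P (l2 ++ l1) A' ∧ HNFilt σ.P l2 C ∧ HNFilt σ.P l3 B' ∧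
      (∀ n, genericPoint S ∉ Supp (Hn n A)) ∧ (∀ n, genericPoint S ∉ Supp (Hn n B)) ∧
      (∀ n, genericPoint S ∉ Supp (Hn n A')) ∧ (∀ n, genericPoint S ∉ Supp (Hn n B')) ∧
      (∀ i : ℤ, i ≤ 0 → ∀ u : A ⟶ B⟦i⟧, u = 0) ∧
      (∀ i : ℤ, i ≤ 0 → ∀ u : A' ⟶ B'⟦i⟧, u = 0) := by
  obtain ⟨A, A', B, B', C, f, g, k, f', g', k', a, c, d, p, q, r, T1, T2, T3, T4, H1, H2, H3, H4⟩ :=
    hn_cut3 l1 l2 l3 (Ox y hy) h
  have hm1 : ((m - 1 : ℤ) : ℝ) = (m : ℝ) - 1 := by push_cast; ring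
  have h21 : ∀ ψ ∈ l2 ++ l1, φ + m ≤ ψ := by
    intro ψ hψ
    rcases List.mem_append.1 hψ with h | h
    · exact (h2 ψ h).ge
    · exact (h1 ψ h).le
  have zA : ∀ n : ℤ, z ∈ Supp (Hn n A) → n < -m := by
    intro n hn
    by_contra hc
    exact top_bound σ z hz φ hP.1 H1 m h1 n (by omega) hn
  have zA' : ∀ n : ℤ, z ∈ Supp (Hn n A') → n < -m + 1 := by
    intro n hn
    by_contra hc
    exact top_bound σ z hz φ hP.1 H2 (m - 1) (fun ψ hψ => by
      have := h21 ψ hψ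
      rw [hm1]
      linarith) n (by omega) hn
  have zC : ∀ n : ℤ, z ∈ Supp (Hn n C) → -m - 2 ≤ n := by
    intro n hn
    by_contra hc
    exact bot_bound_le σ z hz hd φ hP.1 H3 m (fun ψ hψ => (h2 ψ hψ).le) n (by omega) hn
  have zB' : ∀ n : ℤ, z ∈ Supp (Hn n B') → -m - 1 ≤ n := by
    intro n hn
    by_contra hc
    exact bot_bound_lt σ z hz hd φ hP.1 H4 m (fun ψ hψ => h3 ψ hψ) n (by omega) hn
  have zB : ∀ n : ℤ, z ∈ Supp (Hn n B) → -m - 2 ≤ n := by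
    intro n hn
    rcases supp_tri p q r T4 n hn with h | h
    · exact zC n h
    · have := zB' n h
      omega
  have zX : ∀ n, z ∉ Supp (Hn n (Ox y hy)) := by
    intro n hn
    have := supp_Ox y hy n hn
    exact hyz (Set.mem_singleton_iff.1 this).symm
  have ηX : ∀ n, genericPoint S ∉ Supp (Hn n (Ox y hy)) := by
    intro n hn
    have h5 := Set.mem_singleton_iff.1 (supp_Ox y hy n hn)
    apply hg
    rw [h5]
    exact hy
  have zA1 : ∀ n : ℤ, z ∈ Supp (Hn n A) → n = -m - 1 := by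
    intro n hn
    have e1 := zA n hn
    have e2 : z ∈ Supp (Hn (n - 1) B) := by
      rw [supp_tri_iff f g k T1 z zX (n - 1), sub_add_cancel]
      exact hn
    have e3 := zB _ e2
    omega
  have zA'1 : ∀ n : ℤ, z ∈ Supp (Hn n A') → n = -m := by
    intro n hn
    have e1 := zA' n hn
    have e2 : z ∈ Supp (Hn (n - 1) B') := by
      rw [supp_tri_iff f' g' k' T2 z zX (n - 1), sub_add_cancel]
      exact hn
    have e3 := zB' _ e2
    omega
  have hPC : σ.P (φ + m) C := σ.P_of_hn H3 h2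
  have ηC : ∀ n, genericPoint S ∉ Supp (Hn n C) := by
    intro n hn
    by_cases hnm : n = -m - 1
    · rcases supp_tri₃ a c d T3 n (supp_generic _ hn z) with h | h
      · have := zA'1 _ h
        omega
      · have := zA1 _ h
        omega
    · exact slice_deg hg σ z hz hd φ hP m C hPC n hnm hn
  have ηAA' : ∀ n, genericPoint S ∉ Supp (Hn n A) ∧ genericPoint S ∉ Supp (Hn n A') := by
    intro n
    have h5 := supp_tri_iff₃ a c d T3 (genericPoint S) ηC n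
    have h6 : genericPoint S ∉ Supp (Hn n A) := by
      intro hn
      have e1 := zA1 n (supp_generic _ hn z)
      have e2 := zA'1 n (supp_generic _ (h5.1 hn) z)
      omega
    exact ⟨h6, fun hn => h6 (h5.2 hn)⟩
  have ηB : ∀ n, genericPoint S ∉ Supp (Hn n B) := by
    intro n hn
    exact (ηAA' _).1 ((supp_tri_iff f g k T1 _ ηX n).1 hn)
  have ηB' : ∀ n, genericPoint S ∉ Supp (Hn n B') := by
    intro n hn
    exact (ηAA' _).2 ((supp_tri_iff f' g' k' T2 _ ηX n).1 hn)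
  have hmap : ∀ (l : List ℝ) (i : ℤ), i ≤ 0 → ∀ ψ' ∈ l.map (· + (i : ℝ)), ∃ ψ ∈ l, ψ' ≤ ψ := by
    intro l i hi ψ' hψ'
    obtain ⟨ψ, hψ, rfl⟩ := List.mem_map.1 hψ'
    refine ⟨ψ, hψ, ?_⟩
    have : (i : ℝ) ≤ 0 := by exact_mod_cast hi
    linarith
  refine ⟨A, A', B, B', C, f, g, k, f', g', k', p, q, r, T1, T2, T4, H1, H2, H3, H4,
    fun n => (ηAA' n).1, ηB, fun n => (ηAA' n).2, ηB', ?_, ?_⟩
  · intro i hi u
    have hT := Triangle.shift_distinguished _ T4 i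
    have e1 : ∀ v : A ⟶ B'⟦i⟧, v = 0 := fun v => σ.hn_hom_zero H1 (σ.hn_shift i H4) (by
      intro ψ hψ ψ' hψ'
      obtain ⟨χ, hχ, hle⟩ := hmap l3 i hi ψ' hψ'
      have := h1 ψ hψ
      have := h3 χ hχ
      linarith) v
    have e2 : ∀ v : A ⟶ C⟦i⟧, v = 0 := fun v => σ.hn_hom_zero H1 (σ.hn_shift i H3) (by
      intro ψ hψ ψ' hψ'
      obtain ⟨χ, hχ, hle⟩ := hmap l2 i hi ψ' hψ'
      have := h1 ψ hψ
      have := h2 χ hχ
      linarith) v
    obtain ⟨v, hv⟩ := Triangle.coyoneda_exact₂ _ hT u (e1 _)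
    have e3 : v = 0 := e2 v
    subst e3
    exact hv.trans zero_comp
  · intro i hi u
    refine σ.hn_hom_zero H2 (σ.hn_shift i H4) ?_ u
    intro ψ hψ ψ' hψ'
    obtain ⟨χ, hχ, hle⟩ := hmap l3 i hi ψ' hψ'
    have := h21 ψ hψ
    have := h3 χ hχ
    linarith

end Pool.Agent.OSP
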