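import Pool.Agent.BE.StI
import Pool.Agent.BE.StH

/-!
# OSP-PInd: induction on the objects of one slice

Copy of `sti_semistable` in `Pool/Agent/BE/StI.lean` with a fixed phase (`fin_len` bounds the chains).
-/

open CategoryTheory CategoryTheory.Limits CategoryTheory.Pretriangulated
open scoped ZeroObject

namespace Pool.Agent.OSP

open Pool.Agent.BE

universe v u

variable {D : Type u} [Category.{v} D] [Preadditive D] [HasZeroObject D] [HasShift D ℤ]
  [∀ n : ℤ, (shiftFunctor D n).Additive] [Pretriangulated D] [IsTriangulated D]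
  {T : ObjectProperty D} [T.IsTriangulated] [T.IsClosedUnderIsomorphisms]

omit [HasZeroObject D] [Pretriangulated D] [IsTriangulated D] in
private lemma pind_isZero_shift (X : D) (n : ℤ) : IsZero (X⟦n⟧) ↔ IsZero X := by
  constructor
  · intro h
    have h1 : IsZero (X⟦n⟧⟦-n⟧) := Functor.map_isZero (shiftFunctor D (-n)) h
    exact h1.of_iso ((shiftShiftNeg X n).symm)
  · intro h
    exact Functor.map_isZero (shiftFunctor D n) h

omit [IsTriangulated D] in
/-- replacing the middle object of a triangle by an isomorphic object -/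
private lemma pind_mid {A Y B X : D} (f : A ⟶ Y) (g : Y ⟶ B) (k : B ⟶ A⟦(1 : ℤ)⟧)
    (hT : Triangle.mk f g k ∈ distTriang D) (e : Y ≅ X) :
    Triangle.mk (f ≫ e.hom) (e.inv ≫ g) k ∈ distTriang D := by
  refine isomorphic_distinguished _ hT _ ?_
  refine Triangle.isoMk _ _ (Iso.refl _) e.symm (Iso.refl _) ?_ ?_ ?_
  · show (f ≫ e.hom) ≫ e.inv = 𝟙 A ≫ f
    rw [Category.assoc, e.hom_inv_id, Category.comp_id, Category.id_comp]
  · show (e.inv ≫ g) ≫ 𝟙 B = e.inv ≫ g
    rw [Category.comp_id]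
  · show k ≫ (shiftFunctor D (1 : ℤ)).map (𝟙 A) = 𝟙 B ≫ k
    rw [CategoryTheory.Functor.map_id, Category.comp_id, Category.id_comp]

private theorem pind_aux (σ : StabCond T) (φ : ℝ) (Q : ObjectProperty D)
    (hQ0 : ∀ X, IsZero X → Q X)
    (hQe : ∀ (A X B : D) (f : A ⟶ X) (g : X ⟶ B) (h : B ⟶ A⟦(1 : ℤ)⟧),
      Triangle.mk f g h ∈ distTriang D → σ.P φ A → Q A → σ.StableOf φ B → Q B → Q X)
    (hQs : ∀ X, σ.StableOf φ X → Q X) : ∀ (N : ℕ) (A : D), σ.P φ A →
      (∀ n, Chain (σ.P φ) n A → n ≤ N) → Q A := by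
  intro N
  induction N with
  | zero =>
    intro A hA hN
    by_cases h0 : IsZero A
    · exact hQ0 A h0
    · have h1 : Chain (σ.P φ) 1 A :=
        Chain.succ 0 (0 : D) A A 0 (𝟙 A) 0 (contractible_distinguished₁ A) hA h0 hA
          (Chain.zero _ (isZero_zero D)) (σ.P_zero φ _ (isZero_zero D))
      have := hN 1 h1
      omega
  | succ N ih =>
    intro A hA hN
    by_cases h0 : IsZero A
    · exact hQ0 A h0
    · obtain ⟨A', B, f, g, h, hT, hA', hB⟩ := σ.exists_stable_quot hA h0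
      refine hQe A' A B f g h hT hA' (ih A' hA' ?_) hB (hQs B hB)
      intro n hn
      have h1 : Chain (σ.P φ) (n + 1) A :=
        Chain.succ n A' A B f g h hT hB.1 hB.2.1 hA hn hA'
      have := hN _ h1
      omega

theorem P_induction (σ : StabCond T) (φ : ℝ) (Q : ObjectProperty D) (hQ0 : ∀ X, IsZero X → Q X)
    (hQe : ∀ (A X B : D) (f : A ⟶ X) (g : X ⟶ B) (h : B ⟶ A⟦(1 : ℤ)⟧),
      Triangle.mk f g h ∈ distTriang D → σ.P φ A → Q A → σ.StableOf φ B → Q B → Q X)
    (hQs : ∀ X, σ.StableOf φ X → Q X) (X : D) (hX : σ.P φ X) : Q X := by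
  obtain ⟨N, hN⟩ := σ.fin_len φ X hX
  exact pind_aux σ φ Q hQ0 hQe hQs N X hX hN

/-- shifts of stable objects are stable (copy of `phf_stable_shift` in `Pool/Agent/BE/PhF.lean`) -/
theorem stable_shift (σ : StabCond T) {φ : ℝ} {X : D} (h : σ.StableOf φ X) (n : ℤ) :
    σ.StableOf (φ + n) (X⟦n⟧) := by
  obtain ⟨h1, h2, h3⟩ := h
  refine ⟨(σ.P_shift_int φ n X).1 h1, fun h4 => h2 ((pind_isZero_shift X n).1 h4), ?_⟩
  intro A B f g k hT hA hB
  have hT' := Triangle.shift_distinguished _ hT (-n)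
  have hc : φ + (n : ℝ) + ((-n : ℤ) : ℝ) = φ := by push_cast; ring
  have hA' := (σ.P_shift_int (φ + n) (-n) A).1 hA
  have hB' := (σ.P_shift_int (φ + n) (-n) B).1 hB
  rw [hc] at hA' hB'
  have h5 := pind_mid ((Triangle.shiftFunctor D (-n)).obj (Triangle.mk f g k)).mor₁
    ((Triangle.shiftFunctor D (-n)).obj (Triangle.mk f g k)).mor₂
    ((Triangle.shiftFunctor D (-n)).obj (Triangle.mk f g k)).mor₃ hT' (shiftShiftNeg X n)
  exact (h3 _ _ _ _ _ h5 hA' hB').imp (pind_isZero_shift A (-n)).1 (pind_isZero_shift B (-n)).1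

end Pool.Agent.OSP
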