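import Pool.Agent.OSP.SupT
import Pool.Agent.OSP.PInd
import Pool.Agent.BE.PhF

/-!
# OSP-PhS: `O_z` stable of phase `φ`, `O_y` semistable of phase `φ'`: `|φ' - φ| < 2`

As `phase_lt` in `Pool/Agent/BE/PhF.lean`, with `O_y` only semistable. `M` stable of phase `θ` with the generic point `η` in
`Supp (Hn n0 M)` (`exists_stable_generic`), so every point is in `Supp (Hn n0 M)`. For a closed point `s` let `t_s` be the
largest, `b_s` the smallest degree `n` with `s ∈ Supp (Hn n M)`: `b_s ≤ n0 ≤ t_s`. `top_sky` at `y`: nonzero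
`M → (Ox y)⟦-t_y⟧`: `θ ≤ φ' - t_y` (`σ.hom_zero`). `koszul` at `z`: nonzero `Ox z → M⟦i⟧`, `i ≤ b_z + 2`: `φ < θ + i`
(`stable_hom_le`; an isomorphism is impossible because of the supports). So `φ < φ' - t_y + b_z + 2 ≤ φ' + 2`.
Conversely `koszul` at `y`: `φ' ≤ θ + i`, `i ≤ b_y + 2`, and `top_sky` at `z`: `θ < φ - t_z`: `φ' < φ + 2`.
-/

open CategoryTheory CategoryTheory.Limits CategoryTheory.Pretriangulated AlgebraicGeometry
  Opposite TopologicalSpace DerivedCategory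

namespace Pool.Agent.OSP

open Pool.Agent.BE

universe w

variable {S : Scheme.{0}}

private lemma phs_iso [HasDerivedCategory.{w} (QCoh S)] {X Y : DerivedCategory (QCoh S)}
    (u : X ⟶ Y) [IsIso u] (n : ℤ) : Supp (Hn n X) = Supp (Hn n Y) :=
  supp_of_iso ((homologyFunctor (QCoh S) n).mapIso (asIso u))

theorem phase_bound [IsNoetherian S] [S.IsSeparated] [IsIntegral S]
    [HasDerivedCategory.{w} (QCoh S)] (hg : ¬ IsClosed ({genericPoint S} : Set S))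
    (hd : ∀ y : S, IsClosed ({y} : Set S) → ringKrullDim (S.presheaf.stalk y) ≤ 2)
    (σ : StabCond (Dbc S)) (z y : S) (hz : IsClosed ({z} : Set S)) (hy : IsClosed ({y} : Set S))
    (φ φ' : ℝ) (h1 : σ.StableOf φ (Ox z hz)) (h2 : σ.P φ' (Ox y hy)) :
    φ < φ' + 2 ∧ φ' < φ + 2 := by
  obtain ⟨M, ⟨θ, hM⟩, hMD, n0, hn0⟩ := exists_stable_generic σ
  have hall : ∀ s : S, s ∈ Supp (Hn n0 M) := fun s => supp_generic (Hn n0 M) hn0 s
  obtain ⟨lo, hi, hemp⟩ := bdd M hMD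
  have hTop : ∀ s : S, ∃ t, s ∈ Supp (Hn t M) ∧ (∀ n, t < n → s ∉ Supp (Hn n M)) ∧ n0 ≤ t := by
    intro s
    obtain ⟨t, ht, hmax⟩ := Int.exists_greatest_of_bdd (P := fun n => s ∈ Supp (Hn n M))
      ⟨hi, fun n hn => (hemp s n hn).2⟩ ⟨n0, hall s⟩
    exact ⟨t, ht, fun n hn hcon => by have := hmax n hcon; omega, hmax n0 (hall s)⟩
  have hBot : ∀ s : S, ∃ b, s ∈ Supp (Hn b M) ∧ (∀ n, n < b → s ∉ Supp (Hn n M)) ∧ b ≤ n0 := by
    intro s
    obtain ⟨b, hb, hmin⟩ := Int.exists_least_of_bdd (P := fun n => s ∈ Supp (Hn n M))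
      ⟨lo, fun n hn => (hemp s n hn).1⟩ ⟨n0, hall s⟩
    exact ⟨b, hb, fun n hn hcon => by have := hmin n hcon; omega, hmin n0 (hall s)⟩
  obtain ⟨tz, htz, htopz, htz0⟩ := hTop z
  obtain ⟨ty, hty, htopy, hty0⟩ := hTop y
  obtain ⟨bz, hbz, hbotz, hbz0⟩ := hBot z
  obtain ⟨bY, hby, hboty, hby0⟩ := hBot y
  have hgne : ∀ (x : S) (hx : IsClosed ({x} : Set S)) (n : ℤ),
      genericPoint S ∉ Supp (Hn n (Ox x hx)) := by
    intro x hx n hn
    have h10 : genericPoint S = x := supp_Ox x hx n hn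
    rw [h10] at hg
    exact hg hx
  -- maps at `y`
  obtain ⟨u, hu⟩ := top_sky y hy M hMD ty hty htopy
  have k1 : θ ≤ φ' + ((-ty : ℤ) : ℝ) := by
    by_contra hcon
    exact hu (σ.hom_zero θ (φ' + ((-ty : ℤ) : ℝ)) (not_le.1 hcon) M _ hM.1
      ((σ.P_shift_int φ' (-ty) (Ox y hy)).1 h2) u)
  obtain ⟨U, hU, a1, a2, ha1, ha2, hV⟩ := exists_sop y hy (hd y hy)
  obtain ⟨i, hi2, v, hv⟩ := koszul y hy U hU a1 a2 ha1 ha2 hV M hMD.1 bY hby hboty
  have k2 : φ' ≤ θ + (i : ℝ) := by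
    by_contra hcon
    exact hv (σ.hom_zero φ' (θ + (i : ℝ)) (not_le.1 hcon) (Ox y hy) _ h2
      ((σ.P_shift_int θ i M).1 hM.1) v)
  -- maps at `z`
  obtain ⟨u', hu'⟩ := top_sky z hz M hMD tz htz htopz
  have k3 : θ < φ + ((-tz : ℤ) : ℝ) := by
    rcases σ.stable_hom_le hM (stable_shift σ h1 (-tz)) u' hu' with h7 | ⟨-, h7⟩
    · exact h7
    · exfalso
      have h8 := phs_iso u' n0
      rw [supp_shift] at h8
      have h9 := hn0
      rw [h8] at h9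
      exact hgne z hz _ h9
  obtain ⟨U', hU', a1', a2', ha1', ha2', hV'⟩ := exists_sop z hz (hd z hz)
  obtain ⟨i', hi2', v', hv'⟩ := koszul z hz U' hU' a1' a2' ha1' ha2' hV' M hMD.1 bz hbz hbotz
  have k4 : φ < θ + (i' : ℝ) := by
    rcases σ.stable_hom_le h1 (stable_shift σ hM i') v' hv' with h7 | ⟨-, h7⟩
    · exact h7
    · exfalso
      have h8 := phs_iso v' (n0 - i')
      rw [supp_shift, sub_add_cancel] at h8
      have h9 := hn0
      rw [← h8] at h9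
      exact hgne z hz _ h9
  have m1 : ((i : ℤ) : ℝ) ≤ bY + 2 := by exact_mod_cast hi2
  have m2 : ((i' : ℤ) : ℝ) ≤ bz + 2 := by exact_mod_cast hi2'
  have m3 : ((bz : ℤ) : ℝ) ≤ ty := by exact_mod_cast hbz0.trans hty0
  have m4 : ((bY : ℤ) : ℝ) ≤ tz := by exact_mod_cast hby0.trans htz0
  push_cast at k1 k3
  constructor <;> linarith

end Pool.Agent.OSP
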