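import Pool.Agent.OSP.Defs
import Pool.Agent.OSP.CutG
import Pool.Agent.OSP.StX
import Pool.Agent.OSP.Cell
import Pool.Agent.OSP.PhS

/-!
# OSP-Core: one stable skyscraper sheaf makes `O_y` stable of the same phase

The Harder-Narasimhan filtration of `O_y` is cut at `φ + m` (`cut_generic`, `NoSplit`), `cells` and the
central charge give `O_y ∈ P φ`, and `stable_of_P` the stability.
-/

open CategoryTheory CategoryTheory.Limits CategoryTheory.Pretriangulated AlgebraicGeometry
  Opposite TopologicalSpace DerivedCategory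

namespace Pool.Agent.OSP

open Pool.Agent.BE

universe w

variable {S : Scheme.{0}}

section

universe v u

variable {D : Type u} [Category.{v} D] [Preadditive D] [HasZeroObject D] [HasShift D ℤ]
  [∀ n : ℤ, (shiftFunctor D n).Additive] [Pretriangulated D] [IsTriangulated D]
  {T : ObjectProperty D} [T.IsTriangulated] [T.IsClosedUnderIsomorphisms]

private theorem core_nil (σ : StabCond T) {l : List ℝ} {X : D} (h : HNFilt σ.P l X)
    (h0 : IsZero X) : l = [] := by
  rcases l with _ | ⟨a, l⟩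
  · rfl
  · exact absurd h0 (StabCond.hn_not_isZero σ h)

private theorem core_zero (σ : StabCond T) {c : ℝ} {l2 l3 : List ℝ} {C B B' : D} (p : C ⟶ B)
    (q : B ⟶ B') (r : B' ⟶ C⟦(1 : ℤ)⟧) (hT : Triangle.mk p q r ∈ distTriang D)
    (hC : HNFilt σ.P l2 C) (hB' : HNFilt σ.P l3 B') (h2 : ∀ ψ ∈ l2, ψ = c)
    (h3 : ∀ ψ ∈ l3, ψ < c) (hB : IsZero B) : l2 = [] ∧ l3 = [] := by
  have hiso : IsIso r := (Triangle.isZero₂_iff_isIso₃ _ hT).1 hB
  have h1 := StabCond.hn_shift σ 1 hC
  have h4 : (inv r : C⟦(1 : ℤ)⟧ ⟶ B') = 0 := by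
    refine StabCond.hn_hom_zero σ h1 hB' ?_ _
    intro ψ hψ ψ' hψ'
    rw [List.mem_map] at hψ
    obtain ⟨a, ha, rfl⟩ := hψ
    have e1 := h2 a ha
    have e2 := h3 ψ' hψ'
    push_cast
    linarith
  have h5 : IsZero B' := by
    rw [IsZero.iff_id_eq_zero]
    have h : 𝟙 B' = r ≫ inv r := (IsIso.hom_inv_id r).symm
    rw [h, h4, comp_zero]
  have h6 : IsZero (C⟦(1 : ℤ)⟧) := by
    rw [IsZero.iff_id_eq_zero]
    have h : 𝟙 (C⟦(1 : ℤ)⟧) = inv r ≫ r := (IsIso.inv_hom_id r).symm
    rw [h, h4, zero_comp]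
  exact ⟨List.map_eq_nil_iff.1 (core_nil σ h1 h6), core_nil σ hB' h5⟩

end

private theorem core_small {m : ℤ} {φ : ℝ} (h1 : φ < φ + m + 2) (h2 : φ + m < φ + 2)
    (h3 : Even m) : m = 0 := by
  have h4 : (-2 : ℝ) < m := by linarith
  have h5 : (m : ℝ) < 2 := by linarith
  have h6 : -2 < m := by exact_mod_cast h4
  have h7 : m < 2 := by exact_mod_cast h5
  obtain ⟨r, hr⟩ := h3
  omega

theorem core [IsNoetherian S] [S.IsSeparated] [IsIntegral S]
    [HasDerivedCategory.{w} (QCoh S)] (hg : ¬ IsClosed ({genericPoint S} : Set S))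
    (hd : ∀ y : S, IsClosed ({y} : Set S) → ringKrullDim (S.presheaf.stalk y) ≤ 2)
    (σ : StabCond (Dbc S)) (z : S) (hz : IsClosed ({z} : Set S)) (φ : ℝ)
    (hP : σ.StableOf φ (Ox z hz)) (y : S) (hy : IsClosed ({y} : Set S))
    (hZ : σ.Z (Ox y hy) = σ.Z (Ox z hz)) (hN : NoSplit S y hy) : σ.StableOf φ (Ox y hy) := by
  by_cases hyz : y = z
  · subst hyz
    exact hP
  have hη : genericPoint S ≠ y := by
    intro h
    apply hg
    rw [h]
    exact hy
  have hηO : ∀ n, genericPoint S ∉ Supp (Hn n (Ox y hy)) := fun n hn =>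
    hη (supp_Ox y hy n hn)
  obtain ⟨l, hl⟩ := σ.hn (Ox y hy) (dbc_Ox y hy)
  have hl0 : l ≠ [] := by
    intro h
    subst h
    cases hl with
    | zero _ h0 => exact Ox_ne y hy h0
  have hcell : ∀ m : ℤ, ((∀ ψ ∈ l, ψ ≤ φ + m) ∨ (∀ ψ ∈ l, φ + m < ψ)) ∧
      ((∀ ψ ∈ l, ψ < φ + m) ∨ (∀ ψ ∈ l, φ + m ≤ ψ)) := by
    intro m
    obtain ⟨l1, l2, l3, hll, h3, h2, h1⟩ := hn_three hl (φ + m)
    subst hll
    obtain ⟨A, A', B, B', C, f, g, k, f', g', k', p, q, r, T1, T2, T3, F1, F2, F3, F4, G1, G2,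
      G3, G4, V1, V2⟩ := cut_generic hg σ z hz (hd z hz) φ hP y hy hyz m l1 l2 l3 h1 h2 h3 hl
    have dA := StabCond.hn_mem σ F1
    have dA' := StabCond.hn_mem σ F2
    have dC := StabCond.hn_mem σ F3
    have dB' := StabCond.hn_mem σ F4
    have dB : Dbc S B := (Dbc S).ext_of_isTriangulatedClosed₂ _ T3 dC dB'
    have c1 := hN A B f g k T1 dA dB G1 G2 V1
    have c2 := hN A' B' f' g' k' T2 dA' dB' G3 G4 V2
    constructor
    · rcases c1 with c1 | c1
      · left
        have e1 := core_nil σ F1 c1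
        subst e1
        intro ψ hψ
        rw [List.append_nil, List.mem_append] at hψ
        rcases hψ with hψ | hψ
        · exact (h3 ψ hψ).le
        · exact (h2 ψ hψ).le
      · right
        obtain ⟨e2, e3⟩ := core_zero σ p q r T3 F3 F4 h2 h3 c1
        subst e2 e3
        intro ψ hψ
        exact h1 ψ hψ
    · rcases c2 with c2 | c2
      · left
        have e1 := core_nil σ F2 c2
        intro ψ hψ
        rw [e1, List.append_nil] at hψ
        exact h3 ψ hψ
      · right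
        have e3 := core_nil σ F4 c2
        subst e3
        intro ψ hψ
        rw [List.nil_append, List.mem_append] at hψ
        rcases hψ with hψ | hψ
        · exact (h2 ψ hψ).ge
        · exact (h1 ψ hψ).le
  obtain ⟨m, hm⟩ := cells φ l hl0 hcell
  have hX : σ.P φ (Ox y hy) := by
    rcases hm with hm | hm
    · have h1 : σ.P (φ + m) (Ox y hy) := StabCond.P_of_hn σ hl hm
      have h2 := even_of_Z σ φ m h1 (Ox_ne y hy) hP.1 (Ox_ne z hz) hZ
      obtain ⟨h3, h4⟩ := phase_bound hg hd σ z y hz hy φ (φ + m) hP h1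
      have h5 := core_small h3 h4 h2
      subst h5
      rwa [Int.cast_zero, add_zero] at h1
    · exact absurd (cc_zero σ φ hP.1 hZ) (cc_open σ φ m hl hl0 hm)
  refine stable_of_P σ hX (Ox_ne y hy) (Ox_end y hy) ?_
  intro A B f g h hT hA hB hv
  have sA : ∀ n : ℤ, n ≠ -1 → genericPoint S ∉ Supp (Hn n A) := by
    intro n hn
    refine slice_deg hg σ z hz (hd z hz) φ hP 0 A ?_ n (by omega)
    rw [Int.cast_zero, add_zero]
    exact hA
  have sB : ∀ n : ℤ, n ≠ -1 → genericPoint S ∉ Supp (Hn n B) := by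
    intro n hn
    refine slice_deg hg σ z hz (hd z hz) φ hP 0 B ?_ n (by omega)
    rw [Int.cast_zero, add_zero]
    exact hB
  refine hN A B f g h hT (σ.P_le φ A hA) (σ.P_le φ B hB) ?_ ?_ hv
  · intro n
    by_cases hn : n = -1
    · subst hn
      intro h1
      have h2 := (supp_tri_iff f g h hT (genericPoint S) hηO (-2)).2
      exact sB (-2) (by omega) (h2 (by norm_num; exact h1))
    · exact sA n hn
  · intro n
    by_cases hn : n = -1
    · subst hn
      intro h1
      have h2 := (supp_tri_iff f g h hT (genericPoint S) hηO (-1)).1 h1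
      exact sA (-1 + 1) (by omega) h2
    · exact sB n hn

end Pool.Agent.OSP
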