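import Pool.Agent.BE.GeoC

/-!
# OSP-CovA: in a surface a proper specialisation of a non generic point is closed
-/

open CategoryTheory CategoryTheory.Limits AlgebraicGeometry Opposite TopologicalSpace

namespace Pool.Agent.OSP

open Pool.Agent.BE

variable {S : Scheme.{0}}

/-- three strict specialisations are impossible in dimension 2 -/
theorem closed_of_chain [IsIntegral S] (hd : topologicalKrullDim S = 2) (d s : S)
    (h1 : d ≠ genericPoint S) (h2 : d ⤳ s) (h3 : d ≠ s) : IsClosed ({s} : Set S) := by
  by_contra hc
  have h4 : ∃ t : S, s ⤳ t ∧ t ≠ s := by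
    by_contra hn
    push Not at hn
    apply hc
    rw [← closure_subset_iff_isClosed]
    intro y hy
    exact hn y (specializes_iff_mem_closure.2 hy)
  obtain ⟨t, hst, hts⟩ := h4
  have l1 : t < s := by
    refine lt_of_le_not_ge (Scheme.le_iff_specializes.2 hst) fun h => hts ?_
    exact ((Scheme.le_iff_specializes.1 h).antisymm hst).eq
  have l2 : s < d := by
    refine lt_of_le_not_ge (Scheme.le_iff_specializes.2 h2) fun h => h3 ?_
    exact (h2.antisymm (Scheme.le_iff_specializes.1 h)).eq
  have l3 : d < genericPoint S := by
    refine lt_of_le_not_ge (Scheme.le_iff_specializes.2 (genericPoint_specializes d))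
      fun h => h1 ?_
    exact ((Scheme.le_iff_specializes.1 h).antisymm (genericPoint_specializes d)).eq
  let p : LTSeries S :=
    { length := 3
      toFun := ![t, s, d, genericPoint S]
      step := by
        intro i
        fin_cases i
        · exact l1
        · exact l2
        · exact l3 }
  have h5 : ((p.length : ℕ) : WithBot ℕ∞) ≤ Order.krullDim S := Order.LTSeries.length_le_krullDim p
  have h6 : topologicalKrullDim S = Order.krullDim S :=
    Order.krullDim_eq_of_orderIso (irreducibleSetEquivPoints (α := S))
  rw [← h6, hd] at h5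
  have h7 : ((3 : ℕ) : WithBot ℕ∞) ≤ ((2 : ℕ) : WithBot ℕ∞) := h5
  have h8 : (3 : ℕ) ≤ 2 := by exact_mod_cast h7
  omega

end Pool.Agent.OSP
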