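import Pool.Agent.OSP.CAlg

/-! # OSP-Ded: the integral closure of the coordinate ring of an affine curve -/

namespace Pool.Agent.OSP

open MvPolynomial nonZeroDivisors Cardinal

variable {K : Type} [Field K] [Algebra ℂ K] {R : Subalgebra ℂ K}

private theorem CurveAlg.isFrac (h : CurveAlg R) : IsFractionRing R K where
  map_units := by
    rintro ⟨y, hy⟩
    have h1 : (y : K) ≠ 0 := by
      intro h2
      exact nonZeroDivisors.ne_zero hy (Subtype.ext h2)
    exact h1.isUnit
  surj := by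
    intro z
    obtain ⟨a, ha, b, hb, hb0, hab⟩ := h.frac z
    refine ⟨(⟨a, ha⟩, ⟨⟨b, hb⟩, ?_⟩), hab⟩
    rw [mem_nonZeroDivisors_iff_ne_zero]
    intro h2
    exact hb0 (congrArg Subtype.val h2)
  exists_of_eq := by
    intro x y hxy
    exact ⟨1, by rw [Subtype.ext hxy]⟩

private theorem not_max {s : ℕ} (hs : 2 ≤ s)
    (hm : (Ideal.span {(X ⟨0, by omega⟩ : MvPolynomial (Fin s) ℂ)}).IsMaximal) : False := by
  set i0 : Fin s := ⟨0, by omega⟩ with hi0
  set i1 : Fin s := ⟨1, by omega⟩ with hi1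
  set f : MvPolynomial (Fin s) ℂ →ₐ[ℂ] ℂ := MvPolynomial.aeval (fun _ => (0 : ℂ)) with hf
  have h1 : Ideal.span {(X i0 : MvPolynomial (Fin s) ℂ)} ≤ RingHom.ker f := by
    rw [Ideal.span_singleton_le_iff_mem, RingHom.mem_ker, hf, MvPolynomial.aeval_X]
  have h2 : RingHom.ker f ≠ ⊤ := RingHom.ker_ne_top f
  have h3 := hm.eq_of_le h2 h1
  have h4 : (X i1 : MvPolynomial (Fin s) ℂ) ∈ RingHom.ker f := by
    rw [RingHom.mem_ker, hf, MvPolynomial.aeval_X]
  rw [← h3, Ideal.mem_span_singleton] at h4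
  obtain ⟨q, hq⟩ := h4
  have h5 := congrArg (MvPolynomial.aeval (R := ℂ) (fun i : Fin s => if i = i0 then (0 : ℂ) else 1)) hq
  rw [map_mul, MvPolynomial.aeval_X, MvPolynomial.aeval_X, if_pos rfl, zero_mul, if_neg] at h5
  · exact one_ne_zero h5
  · rw [hi0, hi1]
    simp

private theorem CurveAlg.noether (h : CurveAlg R) : ∃ s : ℕ, s ≤ 1 ∧
    ∃ g : MvPolynomial (Fin s) ℂ →ₐ[ℂ] R, Function.Injective g ∧ g.Finite := by
  have : Algebra.FiniteType ℂ R := (Subalgebra.fg_iff_finiteType R).1 h.fg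
  obtain ⟨s, g, hg, hf⟩ := exists_finite_inj_algHom_of_fg ℂ R
  refine ⟨s, ?_, g, hg, hf⟩
  by_contra hs
  have hs2 : 2 ≤ s := by omega
  let : Algebra (MvPolynomial (Fin s) ℂ) R := g.toRingHom.toAlgebra
  have hfin : Module.Finite (MvPolynomial (Fin s) ℂ) R := hf
  have hint : Algebra.IsIntegral (MvPolynomial (Fin s) ℂ) R := Algebra.IsIntegral.of_finite _ _
  set x0 : MvPolynomial (Fin s) ℂ := X ⟨0, by omega⟩ with hx0
  have hx00 : x0 ≠ 0 := MvPolynomial.X_ne_zero _
  have hp : (Ideal.span {x0}).IsPrime := (Ideal.span_singleton_prime hx00).2 X_prime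
  have hker : (⊥ : Ideal R).comap (algebraMap (MvPolynomial (Fin s) ℂ) R) ≤ Ideal.span {x0} := by
    intro x hx
    have h1 : g x = 0 := hx
    have h2 : x = 0 := hg (by rw [h1, map_zero])
    rw [h2]
    exact Ideal.zero_mem _
  obtain ⟨Q, -, hQp, hQ⟩ := Ideal.exists_ideal_over_prime_of_isIntegral (Ideal.span {x0}) ⊥ hker
  have hQ0 : Q ≠ ⊥ := by
    rintro rfl
    have h1 : x0 ∈ Ideal.span {x0} := Ideal.mem_span_singleton_self x0
    rw [← hQ] at h1
    have h2 : g x0 = 0 := h1
    exact hx00 (hg (by rw [h2, map_zero]))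
  have hQm := h.dim Q hQp hQ0
  have hm := Ideal.isMaximal_comap_of_isIntegral_of_isMaximal (R := MvPolynomial (Fin s) ℂ) Q
  rw [hQ] at hm
  exact not_max hs2 hm

theorem CurveAlg.alg (h : CurveAlg R) (t : K) (ht : t ∉ (algebraMap ℂ K).range) (x : K) :
    IsAlgebraic (IntermediateField.adjoin ℂ {t}) x := by
  obtain ⟨s, hs, g, hg, hf⟩ := h.noether
  have hfr := h.isFrac
  have hAR : (g.toRingHom).Finite := hf
  let : Algebra (MvPolynomial (Fin s) ℂ) R := g.toRingHom.toAlgebra
  have hfin : Module.Finite (MvPolynomial (Fin s) ℂ) R := hf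
  have hint : Algebra.IsIntegral (MvPolynomial (Fin s) ℂ) R := Algebra.IsIntegral.of_finite _ _
  let : Algebra (MvPolynomial (Fin s) ℂ) K := ((algebraMap R K).comp g.toRingHom).toAlgebra
  have hst : IsScalarTower (MvPolynomial (Fin s) ℂ) R K := IsScalarTower.of_algebraMap_eq fun _ => rfl
  have hst2 : IsScalarTower ℂ (MvPolynomial (Fin s) ℂ) K := IsScalarTower.of_algebraMap_eq fun c => by
    show algebraMap ℂ K c = algebraMap R K (g (algebraMap ℂ (MvPolynomial (Fin s) ℂ) c))
    rw [AlgHom.commutes]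
    rfl
  have hinj : Function.Injective (algebraMap (MvPolynomial (Fin s) ℂ) K) :=
    (IsFractionRing.injective R K).comp hg
  have hfaith : FaithfulSMul (MvPolynomial (Fin s) ℂ) K := (faithfulSMul_iff_algebraMap_injective _ _).2 hinj
  have hRK : Algebra.IsAlgebraic R K := IsLocalization.isAlgebraic K R⁰
  have hAK : Algebra.IsAlgebraic (MvPolynomial (Fin s) ℂ) K :=
    Algebra.IsAlgebraic.trans (MvPolynomial (Fin s) ℂ) R K
  have htr : Algebra.trdeg ℂ K ≤ 1 := by
    rw [← trdeg_add_eq ℂ (MvPolynomial (Fin s) ℂ) (A := K), trdeg_eq_zero (R := MvPolynomial (Fin s) ℂ) (A := K),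
      MvPolynomial.trdeg_of_isDomain, add_zero]
    simp only [Cardinal.mk_fin, Cardinal.lift_natCast]
    exact_mod_cast hs
  have htt : Transcendental ℂ t := by
    intro h1
    apply ht
    exact minpoly.mem_range_of_degree_eq_one ℂ t
      (IsAlgClosed.degree_eq_one_of_irreducible ℂ (minpoly.irreducible h1.isIntegral))
  have hind : AlgebraicIndependent ℂ (fun _ : Unit => t) :=
    (algebraicIndependent_unique_type_iff).2 htt
  have hb := hind.isTranscendenceBasis_of_trdeg_le_of_finite (by simpa using htr)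
  have h2 := hb.isAlgebraic_field
  rw [Set.range_const] at h2
  exact h2.isAlgebraic x

theorem CurveAlg.ded (h : CurveAlg R) :
    IsDedekindDomain (integralClosure R K) ∧ IsFractionRing (integralClosure R K) K ∧
      Module.Finite R (integralClosure R K) := by
  obtain ⟨s, hs, g, hg, hf⟩ := h.noether
  have hfr := h.isFrac
  let : Algebra (MvPolynomial (Fin s) ℂ) R := g.toRingHom.toAlgebra
  have hfin : Module.Finite (MvPolynomial (Fin s) ℂ) R := hf
  have hint : Algebra.IsIntegral (MvPolynomial (Fin s) ℂ) R := Algebra.IsIntegral.of_finite _ _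
  have hfaith : FaithfulSMul (MvPolynomial (Fin s) ℂ) R := (faithfulSMul_iff_algebraMap_injective _ _).2 hg
  let : Algebra (MvPolynomial (Fin s) ℂ) K := ((algebraMap R K).comp g.toRingHom).toAlgebra
  have hst : IsScalarTower (MvPolynomial (Fin s) ℂ) R K := IsScalarTower.of_algebraMap_eq fun _ => rfl
  have hinj : Function.Injective (algebraMap (MvPolynomial (Fin s) ℂ) K) :=
    (IsFractionRing.injective R K).comp hg
  have hfaith2 : FaithfulSMul (MvPolynomial (Fin s) ℂ) K := (faithfulSMul_iff_algebraMap_injective _ _).2 hinj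
  have hRK : Algebra.IsAlgebraic R K := IsLocalization.isAlgebraic K R⁰
  have hAR : Algebra.IsAlgebraic (MvPolynomial (Fin s) ℂ) R := inferInstance
  have hAK : Algebra.IsAlgebraic (MvPolynomial (Fin s) ℂ) K :=
    Algebra.IsAlgebraic.trans (MvPolynomial (Fin s) ℂ) R K
  let F : Type := FractionRing (MvPolynomial (Fin s) ℂ)
  let : Algebra F K := FractionRing.liftAlgebra (MvPolynomial (Fin s) ℂ) K
  have hst2 : IsScalarTower (MvPolynomial (Fin s) ℂ) F K := FractionRing.isScalarTower_liftAlgebra _ _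
  have hloc : IsLocalization (Algebra.algebraMapSubmonoid R (MvPolynomial (Fin s) ℂ)⁰) K := inferInstance
  have hFK : Module.Finite F K := Module.Finite.of_isLocalization (MvPolynomial (Fin s) ℂ) R
    (MvPolynomial (Fin s) ℂ)⁰
  have hpid : IsPrincipalIdealRing (MvPolynomial (Fin s) ℂ) := by
    rcases Nat.le_one_iff_eq_zero_or_eq_one.1 hs with rfl | rfl
    · exact IsPrincipalIdealRing.of_surjective (MvPolynomial.isEmptyRingEquiv ℂ (Fin 0)).symm
        (MvPolynomial.isEmptyRingEquiv ℂ (Fin 0)).symm.surjective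
    · exact IsPrincipalIdealRing.of_surjective (MvPolynomial.uniqueAlgEquiv ℂ (Fin 1)).symm
        (MvPolynomial.uniqueAlgEquiv ℂ (Fin 1)).symm.surjective
  let : Algebra (MvPolynomial (Fin s) ℂ) (integralClosure R K) :=
    ((algebraMap R (integralClosure R K)).comp g.toRingHom).toAlgebra
  have hst3 : IsScalarTower (MvPolynomial (Fin s) ℂ) R (integralClosure R K) :=
    IsScalarTower.of_algebraMap_eq fun _ => rfl
  have hst4 : IsScalarTower (MvPolynomial (Fin s) ℂ) (integralClosure R K) K :=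
    IsScalarTower.of_algebraMap_eq fun _ => rfl
  have hic : IsIntegralClosure (integralClosure R K) (MvPolynomial (Fin s) ℂ) K := by
    refine ⟨Subtype.val_injective, fun {x} => ⟨fun hx => ?_, ?_⟩⟩
    · exact ⟨⟨x, hx.tower_top⟩, rfl⟩
    · rintro ⟨y, rfl⟩
      exact isIntegral_trans (R := MvPolynomial (Fin s) ℂ) (A := R) _ y.2
  have hsep : Algebra.IsSeparable F K := inferInstance
  refine ⟨IsIntegralClosure.isDedekindDomain (MvPolynomial (Fin s) ℂ) F K (integralClosure R K),
    IsIntegralClosure.isFractionRing_of_finite_extension (MvPolynomial (Fin s) ℂ) F K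
      (integralClosure R K), ?_⟩
  have hfC : Module.Finite (MvPolynomial (Fin s) ℂ) (integralClosure R K) :=
    IsIntegralClosure.finite (MvPolynomial (Fin s) ℂ) F K (integralClosure R K)
  exact Module.Finite.of_restrictScalars_finite (MvPolynomial (Fin s) ℂ) R (integralClosure R K)

theorem CurveAlg.residue (h : CurveAlg R) (P : Ideal (integralClosure R K)) (hP : P.IsMaximal)
    (b : integralClosure R K) : ∃ c : ℂ, b - algebraMap ℂ (integralClosure R K) c ∈ P := by
  obtain ⟨-, -, hfin⟩ := h.ded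
  have h1 : Algebra.FiniteType ℂ R := (Subalgebra.fg_iff_finiteType R).1 h.fg
  have h2 : Algebra.FiniteType ℂ (integralClosure R K) := Algebra.FiniteType.trans h1 inferInstance
  let : Field (integralClosure R K ⧸ P) := Ideal.Quotient.field P
  have h3 : Algebra.FiniteType ℂ (integralClosure R K ⧸ P) :=
    Algebra.FiniteType.of_surjective (Ideal.Quotient.mkₐ ℂ P) (Ideal.Quotient.mkₐ_surjective ℂ P)
  have h4 : Module.Finite ℂ (integralClosure R K ⧸ P) := finite_of_finite_type_of_isJacobsonRing _ _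
  have h5 : Algebra.IsIntegral ℂ (integralClosure R K ⧸ P) := Algebra.IsIntegral.of_finite _ _
  obtain ⟨c, hc⟩ := (IsAlgClosed.algebraMap_bijective_of_isIntegral (k := ℂ)
    (K := integralClosure R K ⧸ P)).2 (Ideal.Quotient.mk P b)
  refine ⟨c, ?_⟩
  rw [← Ideal.Quotient.eq_zero_iff_mem, map_sub, sub_eq_zero, ← hc]
  rfl

end Pool.Agent.OSP
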