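import Pool.Agent.OSP.Ded

/-!
# OSP-DedV: valuation rings of the function field and maximal ideals

Notation `B = integralClosure R K`, a Dedekind domain with fraction field `K` (`CurveAlg.ded`).
`exists_loc`: `P` a maximal ideal `≠ ⊥` of `B`: `Localization.AtPrime P` is a discrete valuation ring with fraction field
`K`; or take the valuation subring of the `P`-adic valuation (`IsDedekindDomain.HeightOneSpectrum.valuation`,
`Valuation.valuationSubring`); an element `x = a/b` with `v_P(x) ≥ 0` can be written with `b ∉ P` (strong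
approximation, or: `P` is locally principal: choose `π ∈ P \ P²`...; simplest: `IsLocalization.AtPrime` of a Dedekind domain
is a valuation ring: for `x ∈ K` either `x` or `x⁻¹` is in `B_P`; define `O` as the valuation subring with carrier `B_P`:
`ValuationSubring.ofSubring` or the structure with `mem_or_inv_mem`). `O ≠ ⊤`: a nonzero element of `P` has no inverse in `O`.
`val_loc`: `O` contains `R`, so it contains `B` (valuation rings are integrally closed). `P := {b | b ∈ 𝔪_O}` (nonunits,
`ValuationSubring.nonunits` or `IsLocalRing.maximalIdeal` pulled back), prime; `P ≠ ⊥`, otherwise `O` contains all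
inverses, `O = ⊤`; so `P` is maximal. `B_P ≤ O`; conversely `B_P` is a valuation ring of `K` of rank one and `O ≠ ⊤`: if
`x ∈ O`, `x ∉ B_P` then `x⁻¹ = a/b ∈ B_P` with `a ∈ P` (otherwise `x ∈ B_P`): so `x⁻¹ ∈ 𝔪_O`, contradiction to `x ∈ O`.
`loc_unique`: both are `{x | ∃ a b, b ∉ P ∧ x b = a}`. `mem_of_all`: `x` in all valuation subrings containing the
constants is algebraic over `ℂ` (`iInf_valuationSubring_superset` with the set of constants: see `f1_val` in
`Pool/Agent/BE/F1.lean`), so a constant.
-/

namespace Pool.Agent.OSP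

variable {K : Type} [Field K] [Algebra ℂ K] {R : Subalgebra ℂ K}

omit [Algebra ℂ K] in
private theorem val_int (O : ValuationSubring K) (A : Subring K) (hA : ∀ r ∈ A, r ∈ O) (x : K)
    (hx : IsIntegral A x) : x ∈ O := by
  have h1 : IsIntegral O.toSubring x := by
    obtain ⟨p, hp, hpx⟩ := hx
    refine ⟨p.map (Subring.inclusion (show A ≤ O.toSubring from hA)), hp.map _, ?_⟩
    rw [Polynomial.eval₂_map]
    exact hpx
  have h2 : IsIntegral O x := h1
  obtain ⟨y, hy⟩ := IsIntegrallyClosed.isIntegral_iff (R := O) (K := K) |>.1 h2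
  rw [← hy]
  exact y.2

private theorem exists_locAux (h : CurveAlg R) (P : Ideal (integralClosure R K)) (hP : P.IsMaximal)
    (h0 : P ≠ ⊥) : ∃ O : ValuationSubring K, IsLocAt R P O := by
  obtain ⟨hd, hf, -⟩ := h.ded
  have := hd
  have := hf
  have hS : P.primeCompl ≤ nonZeroDivisors (integralClosure R K) :=
    P.primeCompl_le_nonZeroDivisors
  have hdv : IsDiscreteValuationRing (Localization.subalgebra.ofField K P.primeCompl hS) :=
    IsLocalization.AtPrime.isDiscreteValuationRing_of_dedekind_domain
      (integralClosure R K) h0 _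
  have hvr : ValuationRing (Localization.subalgebra.ofField K P.primeCompl hS) := inferInstance
  refine ⟨{ (Localization.subalgebra.ofField K P.primeCompl hS).toSubring with
    mem_or_inv_mem' := fun x => ?_ }, ?_⟩
  · rcases ValuationRing.isInteger_or_isInteger
      (Localization.subalgebra.ofField K P.primeCompl hS) x with ⟨y, hy⟩ | ⟨y, hy⟩
    · left
      rw [← hy]
      exact y.2
    · right
      rw [← hy]
      exact y.2
  · intro x
    have e : (x ∈ ({ (Localization.subalgebra.ofField K P.primeCompl hS).toSubring with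
        mem_or_inv_mem' := fun x => by
          rcases ValuationRing.isInteger_or_isInteger
            (Localization.subalgebra.ofField K P.primeCompl hS) x with ⟨y, hy⟩ | ⟨y, hy⟩
          · left
            rw [← hy]
            exact y.2
          · right
            rw [← hy]
            exact y.2 } : ValuationSubring K)) ↔
        ∃ (a s : integralClosure R K) (_ : s ∈ P.primeCompl),
          x = algebraMap (integralClosure R K) K a * (algebraMap (integralClosure R K) K s)⁻¹ :=
      Iff.rfl
    refine e.trans ⟨?_, ?_⟩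
    · rintro ⟨a, s, hs, rfl⟩
      refine ⟨a, s, hs, ?_⟩
      have hs0 : (s : K) ≠ 0 := by
        intro hh
        apply hs
        have : s = 0 := Subtype.ext hh
        rw [this]
        exact P.zero_mem
      change (a : K) * (s : K)⁻¹ * (s : K) = a
      field_simp
    · rintro ⟨a, b, hb, hx⟩
      refine ⟨a, b, hb, ?_⟩
      have hs0 : (b : K) ≠ 0 := by
        intro hh
        apply hb
        have : b = 0 := Subtype.ext hh
        rw [this]
        exact P.zero_mem
      change x = (a : K) * (b : K)⁻¹
      rw [← hx]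
      field_simp

theorem exists_loc (h : CurveAlg R) (P : Ideal (integralClosure R K)) (hP : P.IsMaximal)
    (h0 : P ≠ ⊥) : ∃ O : ValuationSubring K, O ≠ ⊤ ∧ IsLocAt R P O := by
  obtain ⟨O, hO⟩ := exists_locAux h P hP h0
  refine ⟨O, ?_, hO⟩
  intro ht
  obtain ⟨p, hp, hp0⟩ := Submodule.exists_mem_ne_zero_of_ne_bot h0
  have h1 : ((p : K))⁻¹ ∈ O := by rw [ht]; trivial
  obtain ⟨a, b, hb, hab⟩ := (hO _).1 h1
  apply hb
  have hpk : (p : K) ≠ 0 := fun hh => hp0 (Subtype.ext hh)
  have h2 : b = p * a := by
    apply Subtype.ext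
    change (b : K) = (p : K) * (a : K)
    rw [← hab]
    field_simp
  rw [h2]
  exact P.mul_mem_right _ hp

theorem val_loc (h : CurveAlg R) (O : ValuationSubring K) (hO : ∀ r ∈ R, r ∈ O) (hne : O ≠ ⊤) :
    ∃ P : Ideal (integralClosure R K), P.IsMaximal ∧ P ≠ ⊥ ∧ IsLocAt R P O := by
  obtain ⟨hd, hf, -⟩ := h.ded
  have := hd
  have := hf
  have hB : ∀ b : integralClosure R K, (b : K) ∈ O := by
    intro b
    refine val_int O R.toSubring hO (b : K) ?_
    exact b.2
  let i : integralClosure R K →+* O :=
    { toFun := fun b => ⟨(b : K), hB b⟩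
      map_one' := rfl
      map_mul' := fun _ _ => rfl
      map_zero' := rfl
      map_add' := fun _ _ => rfl }
  have hi : ∀ b, ((i b : O) : K) = (b : K) := fun _ => rfl
  let P : Ideal (integralClosure R K) := (IsLocalRing.maximalIdeal O).comap i
  have hPp : P.IsPrime := Ideal.comap_isPrime i _
  have hmem : ∀ b, b ∉ P → (b : K) ≠ 0 ∧ ((b : K))⁻¹ ∈ O := by
    intro b hb
    have hu : IsUnit (i b) := by
      by_contra hc
      exact hb ((IsLocalRing.mem_maximalIdeal _).2 hc)
    obtain ⟨u, hu⟩ := hu
    have h1 : (b : K) * ((↑(u⁻¹) : O) : K) = 1 := by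
      rw [← hi b, ← hu]
      have := congrArg (fun z : O => (z : K)) (u.mul_inv)
      exact this
    have h2 : (b : K) ≠ 0 := left_ne_zero_of_mul_eq_one h1
    refine ⟨h2, ?_⟩
    rw [← eq_inv_of_mul_eq_one_right h1]
    exact ((↑(u⁻¹) : O)).2
  have hPb : P ≠ ⊥ := by
    intro hb
    apply hne
    rw [eq_top_iff]
    intro x _
    obtain ⟨a, b, hb0, rfl⟩ := IsFractionRing.div_surjective (A := integralClosure R K) x
    have hbP : b ∉ P := by
      rw [hb]
      intro hh
      exact nonZeroDivisors.ne_zero hb0 (by simpa using hh)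
    have := (hmem b hbP).2
    rw [div_eq_mul_inv]
    exact O.mul_mem _ _ (hB a) this
  have hPm : P.IsMaximal := hPp.isMaximal hPb
  refine ⟨P, hPm, hPb, ?_⟩
  obtain ⟨O', hO'⟩ := exists_locAux h P hPm hPb
  intro x
  constructor
  · intro hx
    by_contra hc
    have hx' : x ∉ O' := fun hh => hc ((hO' x).1 hh)
    have hxi : x⁻¹ ∈ O' := (O'.mem_or_inv_mem x).resolve_left hx'
    obtain ⟨a, b, hb, hab⟩ := (hO' _).1 hxi
    have hx0 : x ≠ 0 := by
      rintro rfl
      exact hx' O'.zero_mem
    have haP : a ∈ P := by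
      by_contra haP
      apply hc
      refine ⟨b, a, haP, ?_⟩
      rw [← hab]
      field_simp
    obtain ⟨hb0, hbi⟩ := hmem b hb
    have h1 : (⟨x, hx⟩ : O) * i a = i b := by
      apply Subtype.ext
      change x * (a : K) = (b : K)
      rw [← hab]
      field_simp
    apply hb
    change i b ∈ IsLocalRing.maximalIdeal O
    rw [← h1]
    exact Ideal.mul_mem_left _ _ haP
  · rintro ⟨a, b, hb, hab⟩
    obtain ⟨hb0, hbi⟩ := hmem b hb
    have : x = (a : K) * ((b : K))⁻¹ := by
      rw [← hab]
      field_simp
    rw [this]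
    exact O.mul_mem _ _ (hB a) hbi

theorem loc_unique (P : Ideal (integralClosure R K)) (O O' : ValuationSubring K)
    (h : IsLocAt R P O) (h' : IsLocAt R P O') : O = O' := by
  ext x
  rw [h x, h' x]

omit [Algebra ℂ K] in
/-- integral elements lie in every valuation subring; the converse -/
theorem integral_iff_val (A : Subring K) (x : K) :
    IsIntegral A x ↔ ∀ O : ValuationSubring K, (∀ r ∈ A, r ∈ O) → x ∈ O := by
  constructor
  · intro hx O hO
    exact val_int O A hO x hx
  · intro hx
    have h1 := iInf_valuationSubring_superset (K := K) (s := (A : Set K))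
    have h2 : x ∈ (⨅ V : {V : ValuationSubring K // (A : Set K) ⊆ V.toSubring}, V.1.toSubring) := by
      rw [Subring.mem_iInf]
      intro V
      exact hx V.1 V.2
    rw [h1] at h2
    have h3 : IsIntegral (Subring.closure (A : Set K)) x := h2
    obtain ⟨p, hp, hpx⟩ := h3
    refine ⟨p.map (Subring.inclusion (show Subring.closure (A : Set K) ≤ A from
      (Subring.closure_eq A).le)), hp.map _, ?_⟩
    rw [Polynomial.eval₂_map]
    exact hpx

theorem mem_of_all (x : K) (h : ∀ O : ValuationSubring K, HasC O → x ∈ O) :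
    x ∈ (algebraMap ℂ K).range := by
  have h1 : IsIntegral (algebraMap ℂ K).range x := by
    rw [integral_iff_val]
    intro O hO
    exact h O fun c => hO _ ⟨c, rfl⟩
  have h2 : IsIntegral ℂ x := by
    obtain ⟨p, hp, hpx⟩ := h1
    obtain ⟨q0, hq0⟩ := Polynomial.map_surjective (algebraMap ℂ K).rangeRestrict
      (algebraMap ℂ K).rangeRestrict_surjective p
    obtain ⟨q, hq, -, hqm⟩ := Polynomial.lifts_and_natDegree_eq_and_monic
      (f := (algebraMap ℂ K).rangeRestrict) (p := p)
      ((Polynomial.mem_lifts _).2 ⟨q0, hq0⟩) hp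
    refine ⟨q, hqm, ?_⟩
    rw [← hq, Polynomial.eval₂_map] at hpx
    exact hpx
  have h3 : minpoly ℂ x = Polynomial.X - Polynomial.C (-(minpoly ℂ x).coeff 0) := by
    have h4 : (minpoly ℂ x).degree = 1 :=
      IsAlgClosed.degree_eq_one_of_irreducible ℂ (minpoly.irreducible h2)
    have h5 := (minpoly.monic h2)
    have h6 := Polynomial.eq_X_add_C_of_degree_eq_one h4
    rw [h5.leadingCoeff, Polynomial.C_1, one_mul] at h6
    rw [Polynomial.C_neg, sub_neg_eq_add]
    exact h6
  have h7 := minpoly.aeval ℂ x
  rw [h3, Polynomial.aeval_sub, Polynomial.aeval_X, Polynomial.aeval_C] at h7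
  exact ⟨_, (sub_eq_zero.1 h7).symm⟩

end Pool.Agent.OSP
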