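import Pool.Agent.OSP.SupT
import Pool.Agent.OSP.PInd
import Pool.Agent.BE.PhF

/-!
# OSP-Deg: the degrees in which an object lives at `z`, when `O_z` is stable of phase `φ`

`top_bound`: suppose `z ∈ Supp (Hn n X)` for some `n ≥ -m`; let `t` be the largest degree with `z ∈ Supp (Hn t X)`
(`bdd`, `StabCond.hn_mem`: `Dbc S X`; see `phase_lt` in `Pool/Agent/BE/PhF.lean`), `t ≥ -m`. `top_sky`: a nonzero map
`X → (Ox z)⟦-t⟧`, an object of `P (φ - t)` (`P_shift_int`), `φ - t ≤ φ + m < ψ` for all `ψ ∈ l`: contradiction to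
`hn_hom_zero` (the list `[φ - t]` for `(Ox z)⟦-t⟧`, `HNFilt.cons` with `E = 0`: see `stg_hn_single` in StG.lean).
`bot_bound_le`: let `b` be the smallest degree with `z ∈ Supp (Hn b X)`, `b < -m - 2`; `exists_sop` + `koszul`: a nonzero map
`Ox z → X⟦i⟧` with `i ≤ b + 2 < -m`; the phases of `X⟦i⟧` (`hn_shift`) are `≤ φ + m + i < φ`: contradiction.
`bot_bound_lt`: the same with `i ≤ b + 2 < -m + 1`, phases of `X⟦i⟧` `< φ + m + i ≤ φ`.
`stable_deg`: as `phase_lt`: top degree `t`: nonzero `J → (Ox z)⟦-t⟧`, stable of phase `φ - t` (`stable_shift`), so by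
`stable_hom_le` `φ < φ - t`, i.e. `t ≤ -1`, or `t = 0` and `J ≅ (Ox z)⟦0⟧ ≅ Ox z`, excluded. Bottom degree `b`: nonzero
`Ox z → J⟦i⟧`, `i ≤ b + 2`; `φ < φ + i` so `i ≥ 1`, `b ≥ -1`, or `i = 0` and iso, excluded. So `b = t = -1`.
-/

open CategoryTheory CategoryTheory.Limits CategoryTheory.Pretriangulated AlgebraicGeometry
  Opposite TopologicalSpace DerivedCategory

namespace Pool.Agent.OSP

open Pool.Agent.BE

universe w

variable {S : Scheme.{0}}

section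

variable {D : Type*} [Category D] [Preadditive D] [HasZeroObject D] [HasShift D ℤ]
  [∀ n : ℤ, (shiftFunctor D n).Additive] [Pretriangulated D] [IsTriangulated D]
  {T : ObjectProperty D} [T.IsTriangulated] [T.IsClosedUnderIsomorphisms]

open scoped ZeroObject

omit [IsTriangulated D] [T.IsTriangulated] [T.IsClosedUnderIsomorphisms] in
private theorem dg_single (σ : StabCond T) {χ : ℝ} {C : D} (hC : σ.P χ C) (h0 : ¬ IsZero C) :
    HNFilt σ.P [χ] C :=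
  HNFilt.cons χ [] (0 : D) C C 0 (𝟙 C) 0 (contractible_distinguished₁ C) hC h0
    (by simp) (HNFilt.zero _ (isZero_zero D))

/-- morphisms from an object with phases `> χ` to an object of `P χ` -/
private theorem dg_to (σ : StabCond T) {l : List ℝ} {E C : D} {χ : ℝ} (hE : HNFilt σ.P l E)
    (hl : ∀ ψ ∈ l, χ < ψ) (hC : σ.P χ C) (f : E ⟶ C) : f = 0 := by
  by_cases h0 : IsZero C
  · exact h0.eq_of_tgt _ _
  · exact σ.hn_hom_zero hE (dg_single σ hC h0) (by simpa using hl) f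

/-- morphisms from an object of `P χ` to an object with phases `< χ` -/
private theorem dg_from (σ : StabCond T) {l : List ℝ} {E C : D} {χ : ℝ} (hE : HNFilt σ.P l E)
    (hl : ∀ ψ ∈ l, ψ < χ) (hC : σ.P χ C) (f : C ⟶ E) : f = 0 := by
  by_cases h0 : IsZero C
  · exact h0.eq_of_src _ _
  · exact σ.hn_hom_zero (dg_single σ hC h0) hE (by simpa using hl) f

end

private theorem dg_top [HasDerivedCategory.{w} (QCoh S)] (X : DerivedCategory (QCoh S))
    (hX : Dbc S X) (z : S) (n : ℤ) (hn : z ∈ Supp (Hn n X)) :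
    ∃ t : ℤ, n ≤ t ∧ z ∈ Supp (Hn t X) ∧ ∀ m, t < m → z ∉ Supp (Hn m X) := by
  obtain ⟨a, b, hab⟩ := bdd X hX
  obtain ⟨t, ht, hmax⟩ := Int.exists_greatest_of_bdd (P := fun n => z ∈ Supp (Hn n X))
    ⟨b, fun n hn => (hab z n hn).2⟩ ⟨n, hn⟩
  exact ⟨t, hmax n hn, ht, fun m hm hcon => absurd (hmax m hcon) (by omega)⟩

private theorem dg_bot [HasDerivedCategory.{w} (QCoh S)] (X : DerivedCategory (QCoh S))
    (hX : Dbc S X) (z : S) (n : ℤ) (hn : z ∈ Supp (Hn n X)) :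
    ∃ t : ℤ, t ≤ n ∧ z ∈ Supp (Hn t X) ∧ ∀ m, m < t → z ∉ Supp (Hn m X) := by
  obtain ⟨a, b, hab⟩ := bdd X hX
  obtain ⟨t, ht, hmin⟩ := Int.exists_least_of_bdd (P := fun n => z ∈ Supp (Hn n X))
    ⟨a, fun n hn => (hab z n hn).1⟩ ⟨n, hn⟩
  exact ⟨t, hmin n hn, ht, fun m hm hcon => absurd (hmin m hcon) (by omega)⟩

/-- the bottom degree of the support at `z` gives a nonzero morphism from `O_z` -/
private theorem dg_kos [IsNoetherian S] [S.IsSeparated] [HasDerivedCategory.{w} (QCoh S)]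
    (z : S) (hz : IsClosed ({z} : Set S))
    (hd : ringKrullDim (S.presheaf.stalk z) ≤ 2) (X : DerivedCategory (QCoh S)) (hX : Dbc S X)
    (n : ℤ) (hn : z ∈ Supp (Hn n X)) :
    ∃ b i : ℤ, b ≤ n ∧ i ≤ b + 2 ∧ ∃ u : Ox z hz ⟶ X⟦i⟧, u ≠ 0 := by
  obtain ⟨b, hbn, hb, hbot⟩ := dg_bot X hX z n hn
  obtain ⟨U, hU, a1, a2, ha1, ha2, hV⟩ := exists_sop z hz hd
  obtain ⟨i, hi2, v, hv⟩ := koszul z hz U hU a1 a2 ha1 ha2 hV X hX.1 b hb hbot
  exact ⟨b, i, hbn, hi2, v, hv⟩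

theorem top_bound [IsNoetherian S] [S.IsSeparated] [HasDerivedCategory.{w} (QCoh S)]
    (σ : StabCond (Dbc S)) (z : S) (hz : IsClosed ({z} : Set S)) (φ : ℝ)
    (hP : σ.P φ (Ox z hz)) {l : List ℝ} {X : DerivedCategory (QCoh S)} (hX : HNFilt σ.P l X)
    (m : ℤ) (hl : ∀ ψ ∈ l, φ + m < ψ) (n : ℤ) (hn : -m ≤ n) : z ∉ Supp (Hn n X) := by
  intro hcon
  have hD : Dbc S X := σ.hn_mem hX
  obtain ⟨t, hnt, ht, htop⟩ := dg_top X hD z n hcon
  obtain ⟨u, hu⟩ := top_sky z hz X hD t ht htop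
  refine hu (dg_to σ hX ?_ ((σ.P_shift_int φ (-t) (Ox z hz)).1 hP) u)
  intro ψ hψ
  have h1 := hl ψ hψ
  have h2 : ((-t : ℤ) : ℝ) ≤ (m : ℝ) := by
    have h3 : -t ≤ m := by omega
    exact_mod_cast h3
  linarith

theorem bot_bound_le [IsNoetherian S] [S.IsSeparated] [HasDerivedCategory.{w} (QCoh S)]
    (σ : StabCond (Dbc S)) (z : S) (hz : IsClosed ({z} : Set S))
    (hd : ringKrullDim (S.presheaf.stalk z) ≤ 2) (φ : ℝ)
    (hP : σ.P φ (Ox z hz)) {l : List ℝ} {X : DerivedCategory (QCoh S)} (hX : HNFilt σ.P l X)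
    (m : ℤ) (hl : ∀ ψ ∈ l, ψ ≤ φ + m) (n : ℤ) (hn : n < -m - 2) : z ∉ Supp (Hn n X) := by
  intro hcon
  have hD : Dbc S X := σ.hn_mem hX
  obtain ⟨b, i, hbn, hi2, v, hv⟩ := dg_kos z hz hd X hD n hcon
  refine hv (dg_from σ (σ.hn_shift i hX) ?_ hP v)
  intro ψ hψ
  rw [List.mem_map] at hψ
  obtain ⟨a, ha, rfl⟩ := hψ
  have h1 := hl a ha
  have h2 : ((m + i : ℤ) : ℝ) < 0 := by
    have h3 : m + i < 0 := by omega
    exact_mod_cast h3
  push_cast at h2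
  linarith

theorem bot_bound_lt [IsNoetherian S] [S.IsSeparated] [HasDerivedCategory.{w} (QCoh S)]
    (σ : StabCond (Dbc S)) (z : S) (hz : IsClosed ({z} : Set S))
    (hd : ringKrullDim (S.presheaf.stalk z) ≤ 2) (φ : ℝ)
    (hP : σ.P φ (Ox z hz)) {l : List ℝ} {X : DerivedCategory (QCoh S)} (hX : HNFilt σ.P l X)
    (m : ℤ) (hl : ∀ ψ ∈ l, ψ < φ + m) (n : ℤ) (hn : n < -m - 1) : z ∉ Supp (Hn n X) := by
  intro hcon
  have hD : Dbc S X := σ.hn_mem hX
  obtain ⟨b, i, hbn, hi2, v, hv⟩ := dg_kos z hz hd X hD n hcon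
  refine hv (dg_from σ (σ.hn_shift i hX) ?_ hP v)
  intro ψ hψ
  rw [List.mem_map] at hψ
  obtain ⟨a, ha, rfl⟩ := hψ
  have h1 := hl a ha
  have h2 : ((m + i : ℤ) : ℝ) ≤ 0 := by
    have h3 : m + i ≤ 0 := by omega
    exact_mod_cast h3
  push_cast at h2
  linarith

theorem stable_deg [IsNoetherian S] [S.IsSeparated] [HasDerivedCategory.{w} (QCoh S)]
    (σ : StabCond (Dbc S)) (z : S) (hz : IsClosed ({z} : Set S))
    (hd : ringKrullDim (S.presheaf.stalk z) ≤ 2) (φ : ℝ)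
    (hP : σ.StableOf φ (Ox z hz)) (J : DerivedCategory (QCoh S)) (hJ : σ.StableOf φ J)
    (hne : ¬ Nonempty (J ≅ Ox z hz)) (n : ℤ) (hn : n ≠ -1) : z ∉ Supp (Hn n J) := by
  intro hcon
  have hD : Dbc S J := σ.P_le φ J hJ.1
  obtain ⟨t, hnt, ht, htop⟩ := dg_top J hD z n hcon
  obtain ⟨u, hu⟩ := top_sky z hz J hD t ht htop
  have k1 : t < 0 := by
    rcases σ.stable_hom_le hJ (stable_shift σ hP (-t)) u hu with h7 | ⟨h6, h7⟩
    · have h8 : (0 : ℝ) < ((-t : ℤ) : ℝ) := by linarith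
      have h9 : 0 < -t := by exact_mod_cast h8
      omega
    · exfalso
      have h8 : ((-t : ℤ) : ℝ) = 0 := by linarith
      have h9 : -t = 0 := by exact_mod_cast h8
      have h10 : t = 0 := by omega
      subst h10
      have e0 : (Ox z hz)⟦(-0 : ℤ)⟧ ≅ Ox z hz :=
        (shiftFunctorZero' (DerivedCategory (QCoh S)) (-0 : ℤ) (by norm_num)).app (Ox z hz)
      exact hne ⟨(asIso u).trans e0⟩
  obtain ⟨b, i, hbn, hi2, v, hv⟩ := dg_kos z hz hd J hD n hcon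
  have k2 : 0 < i := by
    rcases σ.stable_hom_le hP (stable_shift σ hJ i) v hv with h7 | ⟨h6, h7⟩
    · have h8 : (0 : ℝ) < (i : ℝ) := by linarith
      exact_mod_cast h8
    · exfalso
      have h8 : (i : ℝ) = 0 := by linarith
      have h9 : i = 0 := by exact_mod_cast h8
      subst h9
      have e0 : J⟦(0 : ℤ)⟧ ≅ J := (shiftFunctorZero (DerivedCategory (QCoh S)) ℤ).app J
      exact hne ⟨((asIso v).trans e0).symm⟩
  omega

end Pool.Agent.OSP
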