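import Pool.Agent.OSP.NoR
import Pool.Agent.OSP.Core
import Pool.Agent.OSP.CLm
import Pool.Agent.BE.C.Fin

/-!
# OSP-Fin: the final theorem in compact form
-/

open CategoryTheory CategoryTheory.Limits CategoryTheory.Pretriangulated AlgebraicGeometry
  TopologicalSpace DerivedCategory Opposite

namespace Pool.Agent.OSP

open Pool.Agent.BE Pool.Agent.BE.C

universe w

theorem final (B : IsogSurface) [HasDerivedCategory.{w} (QSh B.S)] (σ : Stab B.S) (z : B.S)
    (hz : IsClosed ({z} : Set B.S)) (φ : ℝ) (h : SkyStable σ φ z) (x : B.S)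
    (hx : IsClosed ({x} : Set B.S)) (hZ : skyZ σ x = skyZ σ z) : SkyStable σ φ x := by
  have i1 : IsNoetherian B.S := noeth_of_proj B.sS B.hS
  have i2 : B.S.IsSeparated := sep_of_proj B.sS B.hS
  let i3 : HasDerivedCategory (QCoh B.S) := HasDerivedCategory.standard _
  have i4 := isEquiv_der (toQ B.S)
  have i5 : (Db B.S).IsTriangulated := db_tri
  obtain ⟨τ, hτ, hS⟩ := exists_transport (toQ B.S).mapDerivedCategory (T₂ := Dbc B.S) dbc_iff σ
  have e : ∀ (x : B.S) (hx : IsClosed ({x} : Set B.S)),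
      Nonempty ((toQ B.S).mapDerivedCategory.obj ((singleFunctor (QSh B.S) 0).obj (C.sky x)) ≅
        Ox x hx) := by
    intro x hx
    obtain ⟨i⟩ := sky_iso x hx
    exact ⟨((toQ B.S).mapDerivedCategorySingleFunctor 0).app (C.sky x) ≪≫
      (singleFunctor (QCoh B.S) 0).mapIso i⟩
  have hst : ∀ (x : B.S) (hx : IsClosed ({x} : Set B.S)) (φ : ℝ),
      SkyStable σ φ x ↔ τ.StableOf φ (Ox x hx) := by
    intro x hx φ
    obtain ⟨i⟩ := e x hx
    rw [SkyStable, ← hS]
    exact ⟨fun h => stableOf_iso τ i h, fun h => stableOf_iso τ i.symm h⟩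
  have hDb : ∀ (x : B.S), IsClosed ({x} : Set B.S) →
      Db B.S ((singleFunctor (QSh B.S) 0).obj (C.sky x)) := by
    intro x hx
    obtain ⟨i⟩ := e x hx
    rw [← dbc_iff]
    exact (Dbc B.S).prop_of_iso i.symm (dbc_Ox x hx)
  have hsz : ∀ (x : B.S) (hx : IsClosed ({x} : Set B.S)), skyZ σ x = τ.Z (Ox x hx) := by
    intro x hx
    obtain ⟨i⟩ := e x hx
    rw [skyZ, ← hτ _ (hDb x hx)]
    exact Z_iso τ i ((dbc_iff _).2 (hDb x hx))
  rw [hst x hx]
  have hd1 : (1 : WithBot ℕ∞) ≤ topologicalKrullDim B.S := by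
    rw [B.dimS]
    exact one_le_two
  refine core (not_closed_of_dim hd1) (fun y _ => stalk_dim_le 2 B.dimS.le y) τ z hz φ
    ((hst z hz φ).1 h) x hx ?_ (noSplit_of_noRat B.sS B.hS B.dimS (noRat_of_isog B) x hx)
  rw [← hsz x hx, ← hsz z hz]
  exact hZ

end Pool.Agent.OSP
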