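import Pool.Agent.OSP.DedV

/-!
# OSP-FinA: generic coordinates; the finite part of a function field

`exists_generic`: `B` is generated by finitely many `x_i`, algebraic over `ℂ(t)`: there are monic polynomials for `x_i` with
coefficients `a/s`, `a, s ∈ ℂ[X]` evaluated at `t` (`IntermediateField.mem_adjoin_simple_iff`); let `D ∈ ℂ[X]`, `D ≠ 0` (even
`aeval t D ≠ 0`) be the product of all denominators and `c : ℂ` with `D.eval c ≠ 0` (`ℂ` is infinite). Let
`(t - c)⁻¹ ∉ O`: then `t - c` is a nonunit of `O`, `t ∈ O`, and `aeval t D - D.eval c` is a multiple of `t - c`, a nonunit, so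
`aeval t D` is a unit of `O`: all coefficients are in `O`, `x_i` is integral over `O`, so `x_i ∈ O` (`ValuationSubring` is
integrally closed). `exists_closure`: `M` = the elements of `L` integral over `Algebra.adjoin ℂ {τ}`, as a subalgebra over
`ℂ`. `ℂ[τ]` is a polynomial ring (`τ` transcendental), `L` a finite separable extension of its fraction field: `M` is a
finite `ℂ[τ]`-module (`IsIntegralClosure.finite`/`isNoetherian`), so `M.FG`; every element of `L` is `m/q(τ)`; `dim`: a nonzero prime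
of `M` contracts to a nonzero prime of the principal ideal domain `ℂ[τ]`, so it is maximal (integrality).
-/

namespace Pool.Agent.OSP

variable {L : Type} [Field L] [Algebra ℂ L]

private theorem fina_unit {L : Type} [Field L] (O : ValuationSubring L) {a b : L} (ha : a ∈ O)
    (hb : b ∈ O) (h : (a * b)⁻¹ ∈ O) (h0 : a * b ≠ 0) : a⁻¹ ∈ O := by
  have h1 : a⁻¹ = b * (a * b)⁻¹ := by
    have ha0 : a ≠ 0 := left_ne_zero_of_mul h0
    have hb0 : b ≠ 0 := right_ne_zero_of_mul h0
    field_simp
  rw [h1]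
  exact O.mul_mem _ _ hb h

private theorem fina_aeval (O : ValuationSubring L) (hO : HasC O) {t : L} (ht : t ∈ O)
    (D : Polynomial ℂ) : Polynomial.aeval t D ∈ O := by
  rw [Polynomial.aeval_eq_sum_range]
  refine sum_mem fun i _ => ?_
  rw [Algebra.smul_def]
  exact O.mul_mem _ _ (hO _) (pow_mem ht i)

private theorem fina_prod (O : ValuationSubring L) {ι : Type} (s : Finset ι) (f : ι → L)
    (hf : ∀ i ∈ s, f i ∈ O) (h0 : ∏ i ∈ s, f i ≠ 0) (h : (∏ i ∈ s, f i)⁻¹ ∈ O) :
    ∀ i ∈ s, (f i)⁻¹ ∈ O := by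
  classical
  intro i hi
  rw [← Finset.mul_prod_erase s f hi] at h h0
  refine fina_unit O (hf i hi) ?_ h h0
  exact prod_mem fun j hj => hf j (Finset.mem_of_mem_erase hj)

/-- one element -/
private theorem fina_one (t : L) (x : L) (alg : IsAlgebraic (IntermediateField.adjoin ℂ {t}) x) :
    ∃ D : Polynomial ℂ, Polynomial.aeval t D ≠ 0 ∧ ∀ O : ValuationSubring L, HasC O → t ∈ O →
      (Polynomial.aeval t D)⁻¹ ∈ O → x ∈ O := by
  classical
  set F := IntermediateField.adjoin ℂ {t} with hF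
  have hint : IsIntegral F x := alg.isIntegral
  have hco : ∀ i : ℕ, ∃ r s : Polynomial ℂ, Polynomial.aeval t s ≠ 0 ∧
      (((minpoly F x).coeff i : F) : L) = Polynomial.aeval t r / Polynomial.aeval t s := by
    intro i
    obtain ⟨r, s, h⟩ := (IntermediateField.mem_adjoin_simple_iff ℂ _).1 ((minpoly F x).coeff i).2
    by_cases hs : Polynomial.aeval t s = 0
    · refine ⟨0, 1, by rw [map_one]; exact one_ne_zero, ?_⟩
      rw [h, hs, div_zero, map_zero, zero_div]
    · exact ⟨r, s, hs, h⟩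
  choose r s hs hrs using hco
  refine ⟨∏ i ∈ Finset.range ((minpoly F x).natDegree + 1), s i, ?_, ?_⟩
  · rw [map_prod, Finset.prod_ne_zero_iff]
    exact fun i _ => hs i
  · intro O hO ht hD
    rw [map_prod] at hD
    have h1 : ∀ i ∈ Finset.range ((minpoly F x).natDegree + 1), (Polynomial.aeval t (s i))⁻¹ ∈ O :=
      fina_prod O _ _ (fun i _ => fina_aeval O hO ht (s i))
        (Finset.prod_ne_zero_iff.2 fun i _ => hs i) hD
    have h2 : ∀ i, (((minpoly F x).coeff i : F) : L) ∈ O := by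
      intro i
      by_cases hi : i ∈ Finset.range ((minpoly F x).natDegree + 1)
      · rw [hrs i, div_eq_mul_inv]
        exact O.mul_mem _ _ (fina_aeval O hO ht (r i)) (h1 i hi)
      · rw [Finset.mem_range, not_lt] at hi
        rw [Polynomial.coeff_eq_zero_of_natDegree_lt (by omega)]
        exact O.zero_mem
    have h3 : (minpoly F x).map (algebraMap F L) ∈ Polynomial.lifts O.subtype := by
      rw [Polynomial.lifts_iff_coeff_lifts]
      intro i
      rw [Polynomial.coeff_map]
      exact ⟨⟨_, h2 i⟩, rfl⟩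
    obtain ⟨q, hq, -, hqm⟩ := Polynomial.lifts_and_natDegree_eq_and_monic h3
      ((minpoly.monic hint).map _)
    have h4 : IsIntegral O x := by
      refine ⟨q, hqm, ?_⟩
      have h5 : Polynomial.eval x (q.map O.subtype) = 0 := by
        rw [hq, Polynomial.eval_map, ← Polynomial.aeval_def, minpoly.aeval]
      rw [Polynomial.eval_map] at h5
      exact h5
    obtain ⟨y, hy⟩ := (IsIntegrallyClosed.isIntegral_iff (R := O) (K := L)).1 h4
    rw [← hy]
    exact y.2

theorem exists_generic (B : Subalgebra ℂ L) (hB : B.FG) (t : L)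
    (ht : t ∉ (algebraMap ℂ L).range)
    (alg : ∀ x : L, IsAlgebraic (IntermediateField.adjoin ℂ {t}) x) :
    ∃ c : ℂ, ∀ O : ValuationSubring L, HasC O → (t - algebraMap ℂ L c)⁻¹ ∉ O →
      ∀ b ∈ B, b ∈ O := by
  classical
  obtain ⟨S, hS⟩ := hB
  choose D hD0 hD using fun x : L => fina_one t x (alg x)
  obtain ⟨E, hE⟩ : ∃ E, E = ∏ x ∈ S, D x := ⟨_, rfl⟩
  have hE0 : Polynomial.aeval t E ≠ 0 := by
    rw [hE, map_prod, Finset.prod_ne_zero_iff]
    exact fun x _ => hD0 x
  have hE1 : E ≠ 0 := by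
    intro h
    rw [h, map_zero] at hE0
    exact hE0 rfl
  obtain ⟨c, hc⟩ : ∃ c : ℂ, E.eval c ≠ 0 := by
    by_contra h
    push Not at h
    exact hE1 (Polynomial.funext fun c => by rw [h c, Polynomial.eval_zero])
  refine ⟨c, fun O hO hO1 b hb => ?_⟩
  have h1 : t - algebraMap ℂ L c ∈ O := (O.mem_or_inv_mem _).resolve_right hO1
  have h2 : t ∈ O := by
    have := O.add_mem _ _ h1 (hO c)
    rwa [sub_add_cancel] at this
  have hv1 : O.valuation (t - algebraMap ℂ L c) < 1 := by
    rw [← O.valuation_le_one_iff, not_le, map_inv₀] at hO1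
    by_contra h3
    rw [not_lt] at h3
    exact absurd (lt_of_lt_of_le hO1 (inv_le_one_of_one_le₀ h3)) (lt_irrefl _)
  obtain ⟨G, hG⟩ : Polynomial.X - Polynomial.C c ∣ E - Polynomial.C (E.eval c) := by
    rw [Polynomial.dvd_iff_isRoot, Polynomial.IsRoot, Polynomial.eval_sub, Polynomial.eval_C, sub_self]
  have h3 : Polynomial.aeval t E =
      (t - algebraMap ℂ L c) * Polynomial.aeval t G + algebraMap ℂ L (E.eval c) := by
    have h4 := congrArg (Polynomial.aeval t) hG
    rw [map_sub, map_mul, map_sub, Polynomial.aeval_C, Polynomial.aeval_X, Polynomial.aeval_C] at h4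
    rw [← h4, sub_add_cancel]
  have hv2 : O.valuation (algebraMap ℂ L (E.eval c)) = 1 := by
    have e0 : algebraMap ℂ L (E.eval c) ≠ 0 := (map_ne_zero _).2 hc
    have e1 : O.valuation (algebraMap ℂ L (E.eval c)) ≤ 1 := (O.valuation_le_one_iff _).2 (hO _)
    have e2 : O.valuation (algebraMap ℂ L (E.eval c))⁻¹ ≤ 1 := by
      rw [← map_inv₀]
      exact (O.valuation_le_one_iff _).2 (hO _)
    have e3 : O.valuation (algebraMap ℂ L (E.eval c)) ≠ 0 := (Valuation.ne_zero_iff _).2 e0
    refine le_antisymm e1 ?_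
    rw [map_inv₀] at e2
    by_contra e4
    rw [not_le] at e4
    exact absurd (lt_of_lt_of_le ((one_lt_inv₀ (zero_lt_iff.2 e3)).2 e4) e2) (lt_irrefl _)
  have hv3 : O.valuation ((t - algebraMap ℂ L c) * Polynomial.aeval t G) < 1 := by
    rw [map_mul]
    exact mul_lt_one_of_lt_of_le hv1 ((O.valuation_le_one_iff _).2 (fina_aeval O hO h2 G))
  have hv4 : O.valuation (Polynomial.aeval t E) = 1 := by
    rw [h3, Valuation.map_add_eq_of_lt_right, hv2]
    rw [hv2]
    exact hv3
  have hinv : (Polynomial.aeval t E)⁻¹ ∈ O := by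
    rw [← O.valuation_le_one_iff, map_inv₀, hv4, inv_one]
  rw [hE, map_prod] at hinv hE0
  have h5 : ∀ x ∈ S, (Polynomial.aeval t (D x))⁻¹ ∈ O :=
    fina_prod O S _ (fun x _ => fina_aeval O hO h2 (D x)) hE0 hinv
  have h6 : ∀ x ∈ S, x ∈ O := fun x hx => hD x O hO h2 (h5 x hx)
  rw [← hS] at hb
  refine Algebra.adjoin_induction (fun x hx => h6 x hx) (fun r => hO r)
    (fun x y _ _ hx hy => O.add_mem _ _ hx hy) (fun x y _ _ hx hy => O.mul_mem _ _ hx hy) hb

open scoped IntermediateField.algebraAdjoinAdjoin in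
theorem exists_closure (τ : L) (hτ : τ ∉ (algebraMap ℂ L).range)
    [FiniteDimensional (IntermediateField.adjoin ℂ {τ}) L] :
    ∃ M : Subalgebra ℂ L, CurveAlg M ∧ τ ∈ M ∧
      ∀ m ∈ M, ∀ O : ValuationSubring L, HasC O → τ ∈ O → m ∈ O := by
  classical
  have hpid : IsPrincipalIdealRing (Algebra.adjoin ℂ {τ}) := by
    have h1 : Function.Surjective (Polynomial.aeval (R := ℂ) (⟨τ, Algebra.self_mem_adjoin_singleton ℂ τ⟩ :
        Algebra.adjoin ℂ {τ})) := by
      rintro ⟨x, hx⟩
      have hx' := hx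
      rw [Algebra.adjoin_singleton_eq_range_aeval] at hx'
      obtain ⟨P, hP⟩ := hx'
      refine ⟨P, Subtype.ext ?_⟩
      have h2 : ((Polynomial.aeval (⟨τ, Algebra.self_mem_adjoin_singleton ℂ τ⟩ :
          Algebra.adjoin ℂ {τ}) P : Algebra.adjoin ℂ {τ}) : L) = Polynomial.aeval τ P :=
        (Polynomial.aeval_algebraMap_apply L (⟨τ, Algebra.self_mem_adjoin_singleton ℂ τ⟩ :
          Algebra.adjoin ℂ {τ}) P).symm
      rw [h2]
      exact hP
    exact IsPrincipalIdealRing.of_surjective _ h1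
  have : CharZero (IntermediateField.adjoin ℂ {τ}) :=
    charZero_of_injective_algebraMap (algebraMap ℂ (IntermediateField.adjoin ℂ {τ})).injective
  have hfin : Module.Finite (Algebra.adjoin ℂ {τ}) (integralClosure (Algebra.adjoin ℂ {τ}) L) :=
    IsIntegralClosure.finite (Algebra.adjoin ℂ {τ}) (IntermediateField.adjoin ℂ {τ}) L
      (integralClosure (Algebra.adjoin ℂ {τ}) L)
  have hded : IsDedekindDomain (integralClosure (Algebra.adjoin ℂ {τ}) L) :=
    integralClosure.isDedekindDomain (Algebra.adjoin ℂ {τ}) (IntermediateField.adjoin ℂ {τ}) L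
  have hfrac : IsFractionRing (integralClosure (Algebra.adjoin ℂ {τ}) L) L :=
    integralClosure.isFractionRing_of_finite_extension (IntermediateField.adjoin ℂ {τ}) L
  refine ⟨(integralClosure (Algebra.adjoin ℂ {τ}) L).restrictScalars ℂ, ⟨?_, ?_, ?_⟩, ?_, ?_⟩
  · rw [Subalgebra.fg_iff_finiteType]
    have h1 : Algebra.FiniteType ℂ (Algebra.adjoin ℂ {τ}) := by
      rw [← Subalgebra.fg_iff_finiteType]
      exact ⟨{τ}, by rw [Finset.coe_singleton]⟩
    have h2 : Algebra.FiniteType ℂ (integralClosure (Algebra.adjoin ℂ {τ}) L) :=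
      Algebra.FiniteType.trans h1 inferInstance
    exact h2
  · intro x
    obtain ⟨a, b, hb, hx⟩ := IsFractionRing.div_surjective
      (A := integralClosure (Algebra.adjoin ℂ {τ}) L) x
    have hb0 : (b : L) ≠ 0 := by
      have := nonZeroDivisors.ne_zero hb
      intro h
      exact this (Subtype.ext h)
    refine ⟨a, a.2, b, b.2, hb0, ?_⟩
    rw [← hx]
    exact div_mul_cancel₀ _ hb0
  · intro P hP h0
    exact Ring.DimensionLEOne.maximalOfPrime (R := integralClosure (Algebra.adjoin ℂ {τ}) L) h0 hP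
  · have h1 : IsIntegral (Algebra.adjoin ℂ {τ}) τ :=
      isIntegral_algebraMap (R := Algebra.adjoin ℂ {τ}) (A := L)
        (x := ⟨τ, Algebra.self_mem_adjoin_singleton ℂ τ⟩)
    exact h1
  · intro m hm O hO hτO
    have h1 : IsIntegral (Algebra.adjoin ℂ {τ}).toSubring m := hm
    refine (integral_iff_val (Algebra.adjoin ℂ {τ}).toSubring m).1 h1 O ?_
    intro x hx
    have hx' : x ∈ Algebra.adjoin ℂ {τ} := hx
    rw [Algebra.adjoin_singleton_eq_range_aeval] at hx'
    obtain ⟨P, hP⟩ := hx'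
    rw [← hP]
    exact fina_aeval O hO hτO P

end Pool.Agent.OSP
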