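import Pool.Agent.OSP.DedV

/-!
# OSP-FinP: partial fractions in a Dedekind domain

The denominator ideal of `f` is factored into primes; its two parts (factors with and without the property)
are comaximal.
-/

namespace Pool.Agent.OSP

variable {L : Type} [Field L] [Algebra ℂ L]

private theorem finp_split {B : Type} [CommRing B] [IsDedekindDomain B] (I : Ideal B)
    (hI : I ≠ ⊥) (q : Ideal B → Prop) :
    ∃ I0 I1 : Ideal B, I0 * I1 = I ∧ I0 ⊔ I1 = ⊤ ∧
      (∀ P : Ideal B, P.IsMaximal → ¬ q P → ¬ I0 ≤ P) ∧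
      (∀ P : Ideal B, P.IsMaximal → q P → ¬ I1 ≤ P) := by
  classical
  set F := UniqueFactorizationMonoid.normalizedFactors I with hF
  have hmax : ∀ J ∈ F, J.IsMaximal := by
    intro J hJ
    have h1 : Prime J := UniqueFactorizationMonoid.prime_of_normalized_factor J hJ
    have h2 : J.IsPrime := Ideal.isPrime_of_prime h1
    exact h2.isMaximal h1.ne_zero
  have h0 : ∀ P : Ideal B, P.IsMaximal → ¬ q P → ¬ (F.filter q).prod ≤ P := by
    intro P hP hq hle
    rw [hP.isPrime.multiset_prod_le] at hle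
    obtain ⟨J, hJ, hJP⟩ := hle
    rw [Multiset.mem_filter] at hJ
    have := (hmax J hJ.1).eq_of_le hP.ne_top hJP
    rw [this] at hJ
    exact hq hJ.2
  have h1 : ∀ P : Ideal B, P.IsMaximal → q P → ¬ (F.filter (fun J => ¬ q J)).prod ≤ P := by
    intro P hP hq hle
    rw [hP.isPrime.multiset_prod_le] at hle
    obtain ⟨J, hJ, hJP⟩ := hle
    rw [Multiset.mem_filter] at hJ
    have := (hmax J hJ.1).eq_of_le hP.ne_top hJP
    rw [this] at hJ
    exact hJ.2 hq
  refine ⟨(F.filter q).prod, (F.filter (fun J => ¬ q J)).prod, ?_, ?_, h0, h1⟩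
  · rw [← Multiset.prod_add, Multiset.filter_add_not, hF]
    exact Ideal.prod_normalizedFactors_eq_self hI
  · by_contra hne
    obtain ⟨P, hP, hle⟩ := Ideal.exists_le_maximal _ hne
    by_cases hq : q P
    · exact h1 P hP hq (le_sup_right.trans hle)
    · exact h0 P hP hq (le_sup_left.trans hle)

theorem partial_fractions (M : Subalgebra ℂ L) (hM : CurveAlg M)
    (p : ValuationSubring L → Prop) (f : L) :
    ∃ h : L, ∀ O : ValuationSubring L, (∀ m ∈ M, m ∈ O) →
      (¬ p O ∨ f ∈ O → h ∈ O) ∧ (p O ∨ f ∈ O → f - h ∈ O) := by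
  obtain ⟨hD, hFr, -⟩ := hM.ded
  set I : Ideal (integralClosure M L) :=
    { carrier := {a | ∃ c : integralClosure M L, (a : L) * f = c}
      zero_mem' := ⟨0, by simp⟩
      add_mem' := by
        rintro a b ⟨c, hc⟩ ⟨d, hd⟩
        exact ⟨c + d, by push_cast; rw [add_mul, hc, hd]⟩
      smul_mem' := by
        rintro r a ⟨c, hc⟩
        exact ⟨r * c, by rw [smul_eq_mul]; push_cast; rw [mul_assoc, hc]⟩ } with hI
  have hmemI : ∀ a : integralClosure M L, a ∈ I → ∃ c : integralClosure M L, (a : L) * f = c :=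
    fun a ha => ha
  have hI0 : I ≠ ⊥ := by
    obtain ⟨x, y, hy, hxy⟩ := IsFractionRing.div_surjective (A := integralClosure M L) f
    have hy0 : y ≠ 0 := nonZeroDivisors.ne_zero hy
    intro h
    have h1 : y ∈ I := by
      refine ⟨x, ?_⟩
      have hy1 : (algebraMap (integralClosure M L) L y) ≠ 0 := by
        intro h2
        exact hy0 ((IsFractionRing.injective (integralClosure M L) L) (by rw [h2, map_zero]))
      rw [← hxy]
      change algebraMap (integralClosure M L) L y * _ = algebraMap (integralClosure M L) L x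
      field_simp
    rw [h] at h1
    exact hy0 h1
  obtain ⟨I0, I1, hmul, hsup, hn0, hn1⟩ :=
    finp_split I hI0 (fun P => ∃ O, IsLocAt M P O ∧ p O)
  have h1 : (1 : integralClosure M L) ∈ I0 ⊔ I1 := by
    rw [hsup]
    exact Submodule.mem_top
  obtain ⟨i0, hi0, i1, hi1, hsum⟩ := Submodule.mem_sup.mp h1
  have hsum' : (i0 : L) + (i1 : L) = 1 := by
    have := congrArg (fun z : integralClosure M L => (z : L)) hsum
    simpa using this
  refine ⟨(i1 : L) * f, fun O hO => ?_⟩
  have hfh : f - (i1 : L) * f = (i0 : L) * f := by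
    rw [← eq_sub_iff_add_eq] at hsum'
    rw [hsum']
    ring
  rw [hfh]
  by_cases hne : O = ⊤
  · subst hne
    exact ⟨fun _ => ValuationSubring.mem_top _, fun _ => ValuationSubring.mem_top _⟩
  obtain ⟨P, hP, hP0, hloc⟩ := val_loc hM O hO hne
  have hB : ∀ b : integralClosure M L, (b : L) ∈ O := by
    intro b
    rw [hloc]
    exact ⟨b, 1, (Ideal.ne_top_iff_one P).mp hP.ne_top, by simp⟩
  constructor
  · rintro (hp | hf)
    · have hq : ¬ I0 ≤ P := by
        apply hn0 P hP
        rintro ⟨O', hO', hpO'⟩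
        rw [loc_unique P O' O hO' hloc] at hpO'
        exact hp hpO'
      obtain ⟨b, hb, hbP⟩ := SetLike.not_le_iff_exists.mp hq
      obtain ⟨c, hc⟩ := hmemI (b * i1) (by rw [← hmul]; exact Ideal.mul_mem_mul hb hi1)
      rw [hloc]
      refine ⟨c, b, hbP, ?_⟩
      rw [← hc]
      push_cast
      ring
    · exact O.mul_mem _ _ (hB i1) hf
  · rintro (hp | hf)
    · have hq : ¬ I1 ≤ P := hn1 P hP ⟨O, hloc, hp⟩
      obtain ⟨b, hb, hbP⟩ := SetLike.not_le_iff_exists.mp hq
      obtain ⟨c, hc⟩ := hmemI (i0 * b) (by rw [← hmul]; exact Ideal.mul_mem_mul hi0 hb)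
      rw [hloc]
      refine ⟨c, b, hbP, ?_⟩
      rw [← hc]
      push_cast
      ring
    · exact O.mul_mem _ _ (hB i0) hf

end Pool.Agent.OSP
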