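import Pool.Agent.OSP.FinA
import Pool.Agent.OSP.FinP

/-!
# OSP-FinC: from `K' = M0 + M∞` to two arbitrary charts
-/

namespace Pool.Agent.OSP

variable {L : Type} [Field L] [Algebra ℂ L]

theorem split_charts (B0 B1 : Subalgebra ℂ L) (fg0 : B0.FG) (fg1 : B1.FG) (t : L)
    (ht : t ∉ (algebraMap ℂ L).range)
    [FiniteDimensional (IntermediateField.adjoin ℂ {t}) L]
    (H : ∀ (c : ℂ) (v : L), ∃ m0 m1 : L, v = m0 + m1 ∧ ∀ O : ValuationSubring L, HasC O →
      ((t - algebraMap ℂ L c)⁻¹ ∈ O → m0 ∈ O) ∧ ((t - algebraMap ℂ L c)⁻¹ ∉ O → m1 ∈ O))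
    (f : L) (hf : ∀ O : ValuationSubring L, HasC O → (∀ b ∈ B0, b ∈ O) → (∀ b ∈ B1, b ∈ O) →
      f ∈ O) :
    ∃ a0 a1 : L, f = a0 + a1 ∧
      (∀ O : ValuationSubring L, HasC O → (∀ b ∈ B0, b ∈ O) → a0 ∈ O) ∧
      (∀ O : ValuationSubring L, HasC O → (∀ b ∈ B1, b ∈ O) → a1 ∈ O) := by
  obtain ⟨c, hc⟩ := exists_generic (B0 ⊔ B1) (fg0.sup fg1) t ht
    (fun x => Algebra.IsAlgebraic.isAlgebraic x)
  set τ : L := (t - algebraMap ℂ L c)⁻¹ with hτ
  have hτC : τ ∉ (algebraMap ℂ L).range := by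
    rintro ⟨γ, hγ⟩
    apply ht
    refine ⟨γ⁻¹ + c, ?_⟩
    rw [map_add, map_inv₀, hγ, hτ, inv_inv, sub_add_cancel]
  have hadj : IntermediateField.adjoin ℂ {τ} = IntermediateField.adjoin ℂ {t} := by
    apply le_antisymm
    · rw [IntermediateField.adjoin_simple_le_iff]
      refine inv_mem (sub_mem (IntermediateField.mem_adjoin_simple_self ℂ t) ?_)
      exact (IntermediateField.adjoin ℂ {t}).algebraMap_mem c
    · rw [IntermediateField.adjoin_simple_le_iff]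
      have h1 : t = τ⁻¹ + algebraMap ℂ L c := by rw [hτ, inv_inv, sub_add_cancel]
      rw [h1]
      exact add_mem (inv_mem (IntermediateField.mem_adjoin_simple_self ℂ τ))
        ((IntermediateField.adjoin ℂ {τ}).algebraMap_mem c)
  have hfd : FiniteDimensional (IntermediateField.adjoin ℂ {τ}) L := by
    rw [hadj]
    infer_instance
  obtain ⟨M, hM, hτM, hMO⟩ := exists_closure τ hτC
  obtain ⟨h, hh⟩ := partial_fractions M hM (fun O => ¬ ∀ b ∈ B0, b ∈ O) f
  obtain ⟨m0, m1, hv, hm⟩ := H c h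
  refine ⟨m1, f - m1, by ring, ?_, ?_⟩
  · intro O hO hB
    by_cases hτO : τ ∈ O
    · have h1 : h ∈ O := (hh O (fun m hm => hMO m hm O hO hτO)).1 (Or.inl (by simpa using hB))
      have h2 : m1 = h - m0 := by rw [hv]; ring
      rw [h2]
      exact sub_mem h1 ((hm O hO).1 hτO)
    · exact (hm O hO).2 hτO
  · intro O hO hB
    by_cases hτO : τ ∈ O
    · have h1 : f - h ∈ O := by
        refine (hh O (fun m hm => hMO m hm O hO hτO)).2 ?_
        by_cases hB0 : ∀ b ∈ B0, b ∈ O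
        · exact Or.inr (hf O hO hB0 hB)
        · exact Or.inl hB0
      have h2 : f - m1 = (f - h) + m0 := by rw [hv]; ring
      rw [h2]
      exact add_mem h1 ((hm O hO).1 hτO)
    · have h1 := hc O hO hτO
      have hf' : f ∈ O := hf O hO (fun b hb => h1 b ((le_sup_left : B0 ≤ B0 ⊔ B1) hb))
        (fun b hb => h1 b ((le_sup_right : B1 ≤ B0 ⊔ B1) hb))
      exact sub_mem hf' ((hm O hO).2 hτO)

end Pool.Agent.OSP
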