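import Pool.Agent.OSP.GDef
import Pool.Agent.OSP.CovA
import Pool.Agent.BE.GeoB

/-! # OSP-GCrv: the coordinate ring of an affine piece of a curve in a projective surface -/

open CategoryTheory CategoryTheory.Limits AlgebraicGeometry Opposite TopologicalSpace

namespace Pool.Agent.OSP

open Pool.Agent.BE

variable {S : Scheme.{0}}

theorem fg_evAlg (sS : S ⟶ SpecC) [LocallyOfFiniteType sS] (d : S) (W : S.Opens)
    (hW : IsAffineOpen W) (h : d ∈ W) :
    letI := kAlg sS d
    (evAlg sS d W h).FG := by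
  let _ := kAlg sS d
  have h1 : (sS.appLE ⊤ W le_top).hom.FiniteType := sS.finiteType_appLE (isAffineOpen_top _) hW _
  have h2 : (Scheme.ΓSpecIso (CommRingCat.of ℂ)).inv.hom.FiniteType :=
    RingHom.FiniteType.of_surjective _
      (ConcreteCategory.bijective_of_isIso (Scheme.ΓSpecIso (CommRingCat.of ℂ)).inv).2
  have h3 : (cS sS W).FiniteType := h1.comp h2
  let _ : Algebra ℂ Γ(S, W) := (cS sS W).toAlgebra
  have h4 : Algebra.FiniteType ℂ Γ(S, W) := h3
  let φ : Γ(S, W) →ₐ[ℂ] S.residueField d :=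
    { ev d h with
      commutes' := fun c => ev_cS sS d W h c }
  have h5 : evAlg sS d W h = (⊤ : Subalgebra ℂ Γ(S, W)).map φ := by
    ext x
    rw [Algebra.map_top]
    rfl
  rw [h5]
  exact h4.out.map φ

private theorem ev_loc (d : S) (W : S.Opens) (hW : IsAffineOpen W) (h : d ∈ W) :
    (∀ a : Γ(S, W), a ∈ (hW.primeIdealOf ⟨d, h⟩).asIdeal ↔ ev d h a = 0) ∧
    ∀ x : S.residueField d, ∃ a b : Γ(S, W), ev d h b ≠ 0 ∧ x * ev d h b = ev d h a := by
  let _ : Algebra Γ(S, W) (S.presheaf.stalk d) := S.presheaf.algebra_section_stalk ⟨d, h⟩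
  have hloc : IsLocalization.AtPrime (S.presheaf.stalk d) (hW.primeIdealOf ⟨d, h⟩).asIdeal :=
    hW.isLocalization_stalk ⟨d, h⟩
  have hev : ∀ a : Γ(S, W), ev d h a = S.residue d (algebraMap Γ(S, W) (S.presheaf.stalk d) a) :=
    fun a => rfl
  have hp : ∀ a : Γ(S, W), a ∈ (hW.primeIdealOf ⟨d, h⟩).asIdeal ↔ ev d h a = 0 := by
    intro a
    rw [hev, ← IsLocalization.AtPrime.to_map_mem_maximal_iff (S.presheaf.stalk d)
      (hW.primeIdealOf ⟨d, h⟩).asIdeal a]
    exact Ideal.Quotient.eq_zero_iff_mem.symm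
  refine ⟨hp, fun x => ?_⟩
  obtain ⟨b, rfl⟩ := S.residue_surjective d x
  obtain ⟨⟨a, s⟩, hs⟩ := IsLocalization.surj (hW.primeIdealOf ⟨d, h⟩).asIdeal.primeCompl b
  have hs1 : (s : Γ(S, W)) ∉ (hW.primeIdealOf ⟨d, h⟩).asIdeal := s.2
  refine ⟨a, s, fun h0 => hs1 ((hp _).2 h0), ?_⟩
  rw [hev, hev, ← map_mul]
  exact congrArg (S.residue d) hs

theorem curveAlg_evAlg (sS : S ⟶ SpecC) [LocallyOfFiniteType sS] [IsIntegral S]
    (hd : topologicalKrullDim S = 2) (d : S) (hη : d ≠ genericPoint S) (W : S.Opens)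
    (hW : IsAffineOpen W) (h : d ∈ W) :
    letI := kAlg sS d
    CurveAlg (evAlg sS d W h) := by
  let _ := kAlg sS d
  obtain ⟨hp, hfr⟩ := ev_loc d W hW h
  refine ⟨fg_evAlg sS d W hW h, fun x => ?_, fun P hP hP0 => ?_⟩
  · obtain ⟨a, b, hb, hab⟩ := hfr x
    exact ⟨ev d h a, ⟨a, rfl⟩, ev d h b, ⟨b, rfl⟩, hb, hab⟩
  · let φ : Γ(S, W) →+* evAlg sS d W h := (ev d h).rangeRestrict
    have hφ : Function.Surjective φ := (ev d h).rangeRestrict_surjective
    have hφ0 : ∀ a, φ a = 0 ↔ ev d h a = 0 := fun a =>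
      ⟨fun h0 => congrArg Subtype.val h0, fun h0 => Subtype.ext h0⟩
    let y : PrimeSpectrum Γ(S, W) := ⟨P.comap φ, hP.comap φ⟩
    have e1 : hW.fromSpec (hW.primeIdealOf ⟨d, h⟩) = d := hW.fromSpec_primeIdealOf ⟨d, h⟩
    have h1 : hW.primeIdealOf ⟨d, h⟩ ≤ y := by
      intro a ha
      show φ a ∈ P
      rw [(hφ0 a).2 ((hp a).1 ha)]
      exact P.zero_mem
    have h2 : d ⤳ hW.fromSpec y := by
      have h3 := ((PrimeSpectrum.le_iff_specializes _ _).1 h1).map hW.fromSpec.continuous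
      rwa [e1] at h3
    have hinj : Function.Injective hW.fromSpec := hW.fromSpec.isOpenEmbedding.injective
    have h3 : d ≠ hW.fromSpec y := by
      intro h4
      have h5 : hW.primeIdealOf ⟨d, h⟩ = y := hinj (by rw [e1]; exact h4)
      apply hP0
      rw [eq_bot_iff]
      intro p hpP
      obtain ⟨a, rfl⟩ := hφ p
      have h6 : a ∈ y.asIdeal := hpP
      rw [← h5, hp] at h6
      exact (hφ0 a).2 h6
    have h4 := closed_of_chain hd d _ hη h2 h3
    have h5 : IsClosed ({y} : Set (PrimeSpectrum Γ(S, W))) := by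
      have h6 : ({y} : Set (PrimeSpectrum Γ(S, W))) = hW.fromSpec ⁻¹' {hW.fromSpec y} := by
        ext t
        simp only [Set.mem_singleton_iff]
        exact hinj.eq_iff.symm
      rw [h6]
      exact h4.preimage hW.fromSpec.continuous
    have h6 : (P.comap φ).IsMaximal := (y.isClosed_singleton_iff_isMaximal).1 h5
    rcases Ideal.map_eq_top_or_isMaximal_of_surjective φ hφ h6 with h7 | h7
    · rw [Ideal.map_comap_of_surjective φ hφ] at h7
      exact absurd h7 hP.ne_top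
    · rwa [Ideal.map_comap_of_surjective φ hφ] at h7

theorem exists_nonconst (sS : S ⟶ SpecC) (d : S) (hc : ¬ IsClosed ({d} : Set S)) :
    ∃ x : S.residueField d, x ∉ (cK sS d).range := by
  by_contra hcon
  push Not at hcon
  apply hc
  rw [← closure_subset_iff_isClosed]
  intro s hs
  have hds : d ⤳ s := specializes_iff_mem_closure.2 hs
  obtain ⟨W, hW, hsW, -⟩ := exists_isAffineOpen_mem_and_subset (X := S) (x := s) (U := ⊤)
    (by trivial)
  have hdW : d ∈ W := hds.mem_open W.isOpen hsW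
  have hsd : s ⤳ d := by
    rw [specializes_iff_forall_open]
    intro V hV hdV
    obtain ⟨f, hf, hdf⟩ := hW.exists_basicOpen_le (V := ⟨V, hV⟩) ⟨d, hdV⟩ hdW
    apply hf
    have h1 : ev d hdW f ≠ 0 := (S.evaluation_ne_zero_iff_mem_basicOpen d hdW f).2 hdf
    obtain ⟨c, hc⟩ := hcon (ev d hdW f)
    have hc0 : c ≠ 0 := by
      rintro rfl
      rw [map_zero] at hc
      exact h1 hc.symm
    have h2 : ev d hdW (f - cS sS W c) = 0 := by
      rw [map_sub, ev_cS, hc, sub_self]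
    have h3 : ev s hsW (f - cS sS W c) = 0 := by
      by_contra h4
      have h5 := (S.evaluation_ne_zero_iff_mem_basicOpen s hsW (f - cS sS W c)).1 h4
      have h6 : d ∈ S.basicOpen (f - cS sS W c) := hds.mem_open (S.basicOpen _).isOpen h5
      exact (S.evaluation_ne_zero_iff_mem_basicOpen d hdW (f - cS sS W c)).2 h6 h2
    rw [map_sub, ev_cS, sub_eq_zero] at h3
    refine (S.evaluation_ne_zero_iff_mem_basicOpen s hsW f).1 ?_
    show ev s hsW f ≠ 0
    rw [h3]
    exact (map_ne_zero_iff _ (cK sS s).injective).2 hc0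
  exact (hsd.antisymm hds).eq

end Pool.Agent.OSP
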