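import Pool.Agent.OSP.GVal

/-!
# OSP-GSep: a valuation ring containing the functions on `W0` and on `W1` contains the functions on `W0 ∩ W1`
-/

open CategoryTheory CategoryTheory.Limits AlgebraicGeometry Opposite TopologicalSpace

namespace Pool.Agent.OSP

open Pool.Agent.BE

variable {S : Scheme.{0}}

private lemma gsep_fromSpec {X : Scheme.{0}} {V : X.Opens} (hV : IsAffineOpen V) (x : X)
    (hx : x ∈ V) :
    X.fromSpecResidueField x = Spec.map (X.evaluation V x hx) ≫ hV.fromSpec := by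
  rw [Scheme.fromSpecResidueField, ← hV.fromSpecStalk_eq_fromSpecStalk hx,
    IsAffineOpen.fromSpecStalk, ← Scheme.germ_residue, Spec.map_comp, Category.assoc]

private theorem gsep_l (W0 : S.Opens) (a0 : IsAffineOpen W0) (d : S) (h0 : d ∈ W0)
    (O : ValuationSubring (S.residueField d)) (hO0 : ∀ a : Γ(S, W0), ev d h0 a ∈ O) :
    ∃ l : Spec (.of O) ⟶ S,
      Spec.map (CommRingCat.ofHom (algebraMap O (S.residueField d))) ≫ l =
        S.fromSpecResidueField d ∧ l (IsLocalRing.closedPoint O) ∈ W0 := by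
  let ψ : Γ(S, W0) →+* O := RingHom.codRestrict (ev d h0) O.toSubring hO0
  refine ⟨Spec.map (CommRingCat.ofHom ψ) ≫ a0.fromSpec, ?_, ?_⟩
  · have hψ : CommRingCat.ofHom ψ ≫ CommRingCat.ofHom (algebraMap O (S.residueField d)) =
        S.evaluation W0 d h0 := by
      ext a
      rfl
    rw [← Spec.map_comp_assoc, hψ, ← gsep_fromSpec]
  · have : Set.range a0.fromSpec = W0 := a0.range_fromSpec
    change _ ∈ (W0 : Set S)
    rw [← this]
    exact ⟨_, rfl⟩

theorem sep_val [S.IsSeparated] (W0 W1 : S.Opens) (a0 : IsAffineOpen W0) (a1 : IsAffineOpen W1)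
    (d : S) (h0 : d ∈ W0) (h1 : d ∈ W1) (O : ValuationSubring (S.residueField d))
    (hO0 : ∀ a : Γ(S, W0), ev d h0 a ∈ O) (hO1 : ∀ a : Γ(S, W1), ev d h1 a ∈ O)
    (a : Γ(S, W0 ⊓ W1)) : ev (U := W0 ⊓ W1) d ⟨h0, h1⟩ a ∈ O := by
  obtain ⟨l, hl, hs⟩ := gsep_l W0 a0 d h0 O hO0
  obtain ⟨l', hl', hs'⟩ := gsep_l W1 a1 d h1 O hO1
  have hun : ValuativeCriterion.Uniqueness (terminal.from S) := by
    have h2 : IsSeparated (terminal.from S) := inferInstance
    rw [IsSeparated.eq_valuativeCriterion] at h2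
    exact h2.1
  have w : S.fromSpecResidueField d ≫ terminal.from S =
      Spec.map (CommRingCat.ofHom (algebraMap O (S.residueField d))) ≫ terminal.from _ :=
    terminal.hom_ext _ _
  have he := (hun { R := O, K := S.residueField d, commSq := ⟨w⟩, .. })
  have hll : l = l' := by
    have h3 := he.allEq ⟨l, hl, terminal.hom_ext _ _⟩ ⟨l', hl', terminal.hom_ext _ _⟩
    exact congrArg CommSq.LiftStruct.l h3
  subst hll
  exact val_factor d O l hl (W0 ⊓ W1) (a0.inf a1) ⟨hs, hs'⟩ ⟨h0, h1⟩ a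

end Pool.Agent.OSP
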