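import Pool.Agent.OSP.GVal
import Pool.Agent.OSP.GSep
import Pool.Agent.OSP.GCrv
import Pool.Agent.OSP.DedV
import Pool.Agent.BE.GeoE
import Pool.Agent.BE.GeoB
import Pool.Agent.BE.MainDefs
import Pool.Agent.BE.F1Alg

/-!
# OSP-GCur: a function which does not split, on a field which is finite over the function field of `E`

`E` is a curve of positive genus. `B0`, `B1` are the images in `κ(x)` of the functions on two affine opens `C0`, `C1`
covering `E`, and `f` the image of a function on `C0 ⊓ C1` which does not split.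
-/

open CategoryTheory CategoryTheory.Limits AlgebraicGeometry Opposite TopologicalSpace

namespace Pool.Agent.OSP

open Pool.Agent.BE

variable {X E : Scheme.{0}}

private theorem gcur_range_closed {R F K : Type} [CommRing R] [Field F] [Field K]
    [IsIntegrallyClosed R] [Algebra R F] [IsFractionRing R F] (g : F →+* K) (hg : Function.Bijective g)
    (f : R →+* K) (hf : f = g.comp (algebraMap R F)) (a : K) (ha : IsIntegral f.range a) :
    a ∈ f.range := by
  obtain ⟨b, rfl⟩ := hg.2 a
  let _ : Algebra R f.range := f.rangeRestrict.toAlgebra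
  let _ : Algebra R K := f.toAlgebra
  have : IsScalarTower R f.range K := IsScalarTower.of_algebraMap_eq fun x => rfl
  have : Algebra.IsIntegral R f.range := ⟨fun x => by
    obtain ⟨y, hy⟩ := f.rangeRestrict_surjective x
    rw [← hy]
    exact isIntegral_algebraMap⟩
  have h1 : IsIntegral R (g b) := isIntegral_trans (R := R) (A := f.range) (g b) ha
  let e : F ≃+* K := RingEquiv.ofBijective g hg
  have h2 : IsIntegral R b := by
    have h3 := IsIntegral.map_of_comp_eq (T := R) (U := F) (RingHom.id R) (e.symm : K →+* F) (by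
      ext x
      show algebraMap R F x = e.symm (f x)
      rw [hf]
      show algebraMap R F x = e.symm (e (algebraMap R F x))
      rw [e.symm_apply_apply]) h1
    have h4 : e.symm (g b) = b := e.symm_apply_apply b
    rw [← h4]
    exact h3
  obtain ⟨y, hy⟩ := (isIntegrallyClosed_iff F).1 ‹_› h2
  exact ⟨y, by rw [hf, ← hy]; rfl⟩

private theorem gcur_residue_bij {C : Scheme.{0}} [IsIntegral C] :
    Function.Bijective (C.residue (genericPoint C)).hom := by
  constructor
  · exact RingHom.injective (C.residue (genericPoint C) : C.presheaf.stalk (genericPoint C) ⟶ _).hom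
  · exact C.residue_surjective _

private theorem gcur_ev_inj {C : Scheme.{0}} [IsIntegral C] (x : C) (hx : x = genericPoint C)
    (U : C.Opens) (hU : x ∈ U) : Function.Injective (ev x hU) := by
  subst hx
  intro a b hab
  refine germ_injective_of_isIntegral C (genericPoint C) hU ?_
  exact gcur_residue_bij.1 hab

private theorem gcur_ev_closed {C : Scheme.{0}} [IsIntegral C] (x : C) (hx : x = genericPoint C)
    (U : C.Opens) (hU : x ∈ U) (hA : IsAffineOpen U) (hn : IsIntegrallyClosed Γ(C, U))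
    (a : C.residueField x) (ha : IsIntegral (ev x hU).range a) : a ∈ (ev x hU).range := by
  subst hx
  have : Nonempty U := ⟨⟨_, hU⟩⟩
  have := functionField_isFractionRing_of_isAffineOpen C U hA
  exact gcur_range_closed (F := C.functionField) (C.residue (genericPoint C)).hom gcur_residue_bij
    (ev (genericPoint C) hU) rfl a ha

theorem no_split_curve (sE : E ⟶ SpecC) (hE : IsCurve sE) (gE : PosGenus E) [IsIntegral E]
    (q : X ⟶ E) (x : X) (hqx : q.base x = genericPoint E)
    (hfin : (q.residueFieldMap x).hom.Finite) :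
    letI := kAlg (q ≫ sE) x
    ∃ (B0 B1 : Subalgebra ℂ (X.residueField x)) (f : X.residueField x), B0.FG ∧ B1.FG ∧
      (∀ O : ValuationSubring (X.residueField x), HasC O → (∀ b ∈ B0, b ∈ O) →
        (∀ b ∈ B1, b ∈ O) → f ∈ O) ∧
      ¬ ∃ a0 a1 : X.residueField x, f = a0 + a1 ∧
        (∀ O : ValuationSubring (X.residueField x), HasC O → (∀ b ∈ B0, b ∈ O) → a0 ∈ O) ∧
        (∀ O : ValuationSubring (X.residueField x), HasC O → (∀ b ∈ B1, b ∈ O) → a1 ∈ O) := by
  let iX : Algebra ℂ (X.residueField x) := kAlg (q ≫ sE) x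
  let iE : Algebra ℂ (E.residueField (q.base x)) := kAlg sE (q.base x)
  obtain ⟨D⟩ := baseData_of_curve sE hE gE
  have hsep : E.IsSeparated := sep_of_proj sE hE.proj
  have hprop : IsProper sE := proper_of_proj sE hE.proj
  obtain ⟨C0, C1, h0, h1, hsup, n0, n1, f, hf⟩ := D
  -- the generic point is in `C0 ⊓ C1`
  have hne : ((C0 ⊓ C1 : E.Opens) : Set E).Nonempty := by
    by_contra hemp
    rw [Set.not_nonempty_iff_eq_empty] at hemp
    have hbot : (C0 ⊓ C1 : E.Opens) = ⊥ := Opens.ext hemp
    have hsub : Subsingleton Γ(E, C0 ⊓ C1) := by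
      rw [hbot]; infer_instance
    exact hf 0 0 (Subsingleton.elim _ _)
  have hmem : q.base x ∈ C0 ⊓ C1 := by
    rw [hqx]
    exact ((genericPoint_spec E).mem_open_set_iff (C0 ⊓ C1).isOpen).2 (by simpa using hne)
  have hm0 : q.base x ∈ C0 := hmem.1
  have hm1 : q.base x ∈ C1 := hmem.2
  let φ : E.residueField (q.base x) →ₐ[ℂ] X.residueField x :=
    { (q.residueFieldMap x).hom with
      commutes' := fun c => cK_comp q sE x c }
  have hconst : ∀ (U : E.Opens) (hU : q.base x ∈ U) (O : ValuationSubring (X.residueField x)),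
      (∀ r ∈ (ev (U := U) (q.base x) hU).range.map (q.residueFieldMap x).hom, r ∈ O) → HasC O := by
    intro U hU O hO c
    refine hO _ ⟨cK sE (q.base x) c, ⟨cS sE U c, ev_cS sE (q.base x) U hU c⟩, ?_⟩
    exact cK_comp q sE x c
  have hint : ∀ (U : E.Opens) (hU : q.base x ∈ U) (a : X.residueField x),
      (∀ O : ValuationSubring (X.residueField x), HasC O →
        (∀ b ∈ (evAlg sE (q.base x) U hU).map φ, b ∈ O) → a ∈ O) →
      IsIntegral ((ev (U := U) (q.base x) hU).range.map (q.residueFieldMap x).hom) a := by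
    intro U hU a ha
    refine (integral_iff_val _ a).2 fun O hO => ha O (hconst U hU O hO) fun b hb => ?_
    obtain ⟨c, hc, rfl⟩ := hb
    exact hO _ ⟨c, hc, rfl⟩
  refine ⟨(evAlg sE (q.base x) C0 hm0).map φ, (evAlg sE (q.base x) C1 hm1).map φ,
    φ (ev (U := C0 ⊓ C1) (q.base x) hmem f), (fg_evAlg sE (q.base x) C0 h0 hm0).map φ,
    (fg_evAlg sE (q.base x) C1 h1 hm1).map φ, ?_, ?_⟩
  · intro O _ hO0 hO1
    exact sep_val C0 C1 h0 h1 (q.base x) hm0 hm1 (O.comap (q.residueFieldMap x).hom)
      (fun a => hO0 _ ⟨ev (U := C0) (q.base x) hm0 a, ⟨a, rfl⟩, rfl⟩)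
      (fun a => hO1 _ ⟨ev (U := C1) (q.base x) hm1 a, ⟨a, rfl⟩, rfl⟩) f
  rintro ⟨a0, a1, hfa, ha0, ha1⟩
  have ht0 := hint C0 hm0 a0 ha0
  have ht1 := hint C1 hm1 a1 ha1
  -- characteristic zero
  have hinv : ∀ (U : E.Opens) (hU : q.base x ∈ U) (n : ℕ), n ≠ 0 →
      ∃ a : Γ(E, U), (n : E.residueField (q.base x)) * ev (U := U) (q.base x) hU a = 1 := by
    intro U hU n hn
    obtain ⟨a, ha⟩ := inv_of_over sE n hn
    refine ⟨rst le_top a, ?_⟩
    rw [ev_rst]
    have := congrArg (ev (U := ⊤) (q.base x) (by trivial)) ha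
    rw [map_mul, map_one, map_natCast] at this
    exact this
  have hchar : CharZero (E.residueField (q.base x)) := by
    refine charZero_of_inj_zero fun n hn => ?_
    by_contra h
    obtain ⟨a, ha⟩ := hinv _ hm0 n h
    rw [hn, zero_mul] at ha
    exact zero_ne_one ha
  have hq : ∀ (U : E.Opens) (hU : q.base x ∈ U) (n : ℕ), n ≠ 0 →
      ((n : E.residueField (q.base x))⁻¹) ∈ (ev (U := U) (q.base x) hU).range := by
    intro U hU n hn
    obtain ⟨a, ha⟩ := hinv U hU n hn
    exact ⟨a, eq_inv_of_mul_eq_one_right ha⟩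
  obtain ⟨c0, ⟨b0, hb0⟩, c1, ⟨b1, hb1⟩, hfc⟩ := f1_algebra (q.residueFieldMap x).hom hfin
    (ev (U := C0) (q.base x) hm0).range (ev (U := C1) (q.base x) hm1).range
    (gcur_ev_closed _ hqx C0 hm0 h0 n0) (gcur_ev_closed _ hqx C1 hm1 h1 n1) (hq C0 hm0) (hq C1 hm1)
    (ev (U := C0 ⊓ C1) (q.base x) hmem f) 1 one_ne_zero a0 (-a1) ht0 ht1.neg
    (by rw [one_nsmul, sub_neg_eq_add]; exact hfa)
  refine hf b0 b1 (gcur_ev_inj _ hqx (C0 ⊓ C1) hmem ?_)
  rw [map_add, ev_rst, ev_rst, hfc, ← hb0, ← hb1]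

end Pool.Agent.OSP
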