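import Pool.Agent.BE.GeoDefs
import Pool.Agent.BE.Sky0
import Pool.Agent.OSP.CAlg

/-!
# OSP-GDef: constants in sections and residue fields
-/

open CategoryTheory CategoryTheory.Limits AlgebraicGeometry Opposite TopologicalSpace

namespace Pool.Agent.OSP

open Pool.Agent.BE

/-- constants as functions -/
noncomputable def cT {S : Scheme.{0}} (sS : S ⟶ SpecC) : ℂ →+* Γ(S, ⊤) :=
  (sS.appTop).hom.comp (Scheme.ΓSpecIso (CommRingCat.of ℂ)).inv.hom

/-- constants as functions on `U` -/
noncomputable def cS {S : Scheme.{0}} (sS : S ⟶ SpecC) (U : S.Opens) : ℂ →+* Γ(S, U) :=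
  (rst (V := U) (U := ⊤) le_top).comp (cT sS)

/-- constants in a residue field -/
noncomputable def cK {S : Scheme.{0}} (sS : S ⟶ SpecC) (x : S) : ℂ →+* S.residueField x :=
  (ev (U := ⊤) x trivial).comp (cT sS)

theorem ev_cS {S : Scheme.{0}} (sS : S ⟶ SpecC) (x : S) (U : S.Opens) (hU : x ∈ U) (c : ℂ) :
    ev x hU (cS sS U c) = cK sS x c := by
  have h1 : cS sS U c = rst (V := U) (U := ⊤) le_top (cT sS c) := rfl
  rw [h1, ev_rst]
  rfl

/-- the `ℂ`-algebra structure of a residue field -/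
@[reducible] noncomputable def kAlg {S : Scheme.{0}} (sS : S ⟶ SpecC) (x : S) :
    Algebra ℂ (S.residueField x) := (cK sS x).toAlgebra

/-- the image of `Γ(S, U)` in the residue field of `d` as a subalgebra -/
noncomputable def evAlg {S : Scheme.{0}} (sS : S ⟶ SpecC) (d : S) (U : S.Opens) (h : d ∈ U) :
    letI := kAlg sS d
    Subalgebra ℂ (S.residueField d) :=
  letI := kAlg sS d
  { (ev d h).range with
    algebraMap_mem' := fun c => ⟨cS sS U c, ev_cS sS d U h c⟩ }

theorem mem_evAlg {S : Scheme.{0}} (sS : S ⟶ SpecC) (d : S) (U : S.Opens) (h : d ∈ U)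
    (x : S.residueField d) :
    letI := kAlg sS d
    x ∈ evAlg sS d U h ↔ ∃ a, ev d h a = x := Iff.rfl

end Pool.Agent.OSP
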