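import Pool.Agent.OSP.CovA
import Pool.Agent.OSP.GDef
import Pool.Agent.BE.GeoDefs
import Pool.Agent.BE.GeoB
import Pool.Agent.BE.FinPt

/-!
# OSP-GFin: the residue field of a point of the cover is finite over the function field of the curve

`fibre_eq`: `π` finite, `x ⤳ z`, `π x = π z` imply `x = z`: incomparability for integral ring maps: on an affine `U ∋ π z`,
`V = π⁻¹ U` affine (contains `z`, `x`), `Γ(V)` integral over `Γ(U)`, primes `𝔭_x ⊆ 𝔭_z` with the same contraction are equal
(`Ideal.comap_lt_comap_of_integral_mem_sdiff`, `Ideal.eq_of_comap_eq...`). `closed_of_closed`: `π` finite, `π z` closed: `z` is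
closed: `π⁻¹ {π z}` is closed; if `z ⤳ z'` then `z' ∈ π⁻¹ {π z}`, so `z' = z` by `fibre_eq`; so `closure {z} = {z}`.
`finite_residue`: `q` is locally of finite type (`q ≫ sE = π ≫ sS` is, `LocallyOfFiniteType.of_comp`-like:
`locallyOfFiniteType_of_comp`). `exists_finite_point q x (closure {x})`: `z` with `x ⤳ z`, `q z = q x`, `κ(z)/κ(q z)` finite. Claim
`z = x`: otherwise `π x ⤳ π z`, `π x ≠ π z` (`fibre_eq`), so `π z` is closed (`closed_of_chain`), so `z` is closed
(`closed_of_closed`), so `q z` is closed in `E`: (`q` is a closed map: `π ≫ sS` is proper, `sE` separated, so `q` is proper: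
`IsProper.of_comp` or as in `proper_of_over`, BE/GeoB) but `q z` is the generic point: contradiction to `not_closed_of_dim`.
-/

open CategoryTheory CategoryTheory.Limits AlgebraicGeometry Opposite TopologicalSpace

namespace Pool.Agent.OSP

open Pool.Agent.BE

variable {S X E : Scheme.{0}}

private theorem gfin_zero {X : Scheme.{0}} (x : X) (U : X.Opens) (hx : x ∈ U) (a : Γ(X, U)) :
    ev x hx a = 0 ↔ x ∉ X.basicOpen a := by
  rw [← Scheme.evaluation_ne_zero_iff_mem_basicOpen X x hx a]
  exact not_not.symm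

theorem fibre_eq (π : X ⟶ S) [IsFinite π] (x z : X) (h : x ⤳ z) (h' : π.base x = π.base z) :
    x = z := by
  obtain ⟨U, hU, hzU, -⟩ := exists_isAffineOpen_mem_and_subset (U := (⊤ : S.Opens))
    (x := π.base z) trivial
  have hV : IsAffineOpen (π ⁻¹ᵁ U) := hU.preimage π
  have hz : z ∈ π ⁻¹ᵁ U := hzU
  have hx : x ∈ π ⁻¹ᵁ U := h.mem_open (π ⁻¹ᵁ U).isOpen hz
  let _ : Algebra Γ(S, U) Γ(X, π ⁻¹ᵁ U) := (π.app U).hom.toAlgebra
  have hfin : Module.Finite Γ(S, U) Γ(X, π ⁻¹ᵁ U) := π.finite_app U hU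
  have hint : Algebra.IsIntegral Γ(S, U) Γ(X, π ⁻¹ᵁ U) := inferInstance
  set I : Ideal Γ(X, π ⁻¹ᵁ U) := RingHom.ker (ev x hx) with hI
  set J : Ideal Γ(X, π ⁻¹ᵁ U) := RingHom.ker (ev z hz) with hJ
  have hIp : I.IsPrime := RingHom.ker_isPrime _
  have hIJ : I ≤ J := by
    intro a ha
    rw [hI, RingHom.mem_ker, gfin_zero] at ha
    rw [hJ, RingHom.mem_ker, gfin_zero]
    exact fun h1 => ha (h.mem_open (X.basicOpen a).isOpen h1)
  have hcom : ∀ (y : X) (hy : y ∈ π ⁻¹ᵁ U) (a : Γ(S, U)),
      ev y hy ((π.app U).hom a) = 0 ↔ π.base y ∉ S.basicOpen a := by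
    intro y hy a
    rw [gfin_zero, ← Scheme.preimage_basicOpen]
    exact Iff.rfl
  have heq : I = J := by
    by_contra hne
    have h1 := Ideal.IsIntegral.comap_lt_comap (R := Γ(S, U)) (lt_of_le_of_ne hIJ hne)
    apply h1.ne
    ext a
    rw [Ideal.mem_comap, Ideal.mem_comap, hI, hJ, RingHom.mem_ker, RingHom.mem_ker]
    change ev x hx ((π.app U).hom a) = 0 ↔ ev z hz ((π.app U).hom a) = 0
    rw [hcom, hcom, h']
  have h2 : z ⤳ x := by
    rw [specializes_iff_forall_open]
    intro W hW hxW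
    obtain ⟨f, hf1, hf2⟩ := hV.exists_basicOpen_le (V := ⟨W, hW⟩) ⟨x, hxW⟩ hx
    have h3 : f ∉ I := by
      rw [hI, RingHom.mem_ker, gfin_zero, not_not]
      exact hf2
    rw [heq, hJ, RingHom.mem_ker, gfin_zero, not_not] at h3
    exact hf1 h3
  exact (h.antisymm h2).eq

theorem closed_of_closed (π : X ⟶ S) [IsFinite π] (z : X)
    (h : IsClosed ({π.base z} : Set S)) : IsClosed ({z} : Set X) := by
  have h1 : IsClosed (π.base ⁻¹' {π.base z}) := h.preimage π.continuous
  rw [← closure_subset_iff_isClosed]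
  intro z' hz'
  have h2 : z ⤳ z' := specializes_iff_mem_closure.2 hz'
  have h3 : z' ∈ π.base ⁻¹' {π.base z} := h2.mem_closed h1 rfl
  exact (fibre_eq π z z' h2 h3.symm).symm

theorem finite_residue (sS : S ⟶ SpecC) (hS : IsProj sS) [IsIntegral S]
    (hd : topologicalKrullDim S = 2) (π : X ⟶ S) [IsFinite π] (sE : E ⟶ SpecC)
    (hE : IsCurve sE) [IsIntegral E] (q : X ⟶ E) (hq : q ≫ sE = π ≫ sS) (x : X)
    (hx : π.base x ≠ genericPoint S) (hqx : q.base x = genericPoint E) :
    (q.residueFieldMap x).hom.Finite := by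
  have h1 := proper_of_proj sS hS
  have h2 := proper_of_proj sE hE.proj
  have h3 : IsProper (q ≫ sE) := by
    rw [hq]
    infer_instance
  have h4 : IsProper q := IsProper.of_comp q sE
  obtain ⟨z, hz, hzc, hfin⟩ := exists_finite_point q x (closure {x}) isClosed_closure
    (subset_closure rfl)
  have hxz : x ⤳ z := specializes_iff_mem_closure.2 hzc
  by_cases he : z = x
  · subst he
    exact hfin
  · exfalso
    have h5 : π.base x ⤳ π.base z := hxz.map π.continuous
    have h6 : π.base x ≠ π.base z := fun h => he (fibre_eq π x z hxz h).symm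
    have h7 := closed_of_chain hd (π.base x) (π.base z) hx h5 h6
    have h8 := closed_of_closed π z h7
    have h9 : IsClosedMap q.base := q.isClosedMap
    have h10 := h9 _ h8
    rw [Set.image_singleton] at h10
    have h11 : q.base z = genericPoint E := hz.trans hqx
    have h12 : IsClosed ({q.base z} : Set E) := h10
    rw [h11] at h12
    refine not_closed_of_dim (X := E) ?_ h12
    rw [hE.dim]

end Pool.Agent.OSP
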