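import Pool.Agent.OSP.GDef

/-!
# OSP-GRfm: residue fields of a finite morphism

`π` finite, `U ∋ π x` affine: `κ(x)` is spanned over `κ(π x)` by the image of `Γ(π⁻¹ U)`, and it is a
finite extension of `κ(π x)`.
-/

open CategoryTheory CategoryTheory.Limits AlgebraicGeometry Opposite TopologicalSpace

namespace Pool.Agent.OSP

open Pool.Agent.BE

variable {S X : Scheme.{0}}

/-- the algebra: `φ : A → B` finite, `L` consists of quotients of elements of `ψ(B)` -/
private theorem alg_span {A B K L : Type} [CommRing A] [CommRing B] [Field K] [Field L]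
    [Algebra K L] (φ : A →+* B) (ψ : B →+* L) (α : A →+* K) (hφ : φ.Finite)
    (h : ∀ a, algebraMap K L (α a) = ψ (φ a))
    (hq : ∀ y : L, ∃ a b : B, ψ b ≠ 0 ∧ y * ψ b = ψ a) :
    Submodule.span K (Set.range ψ) = ⊤ ∧ Module.Finite K L := by
  classical
  let _ : Algebra A B := φ.toAlgebra
  have hfin : Module.Finite A B := hφ
  obtain ⟨s, hs⟩ := hfin.fg_top
  have h1 : ∀ b : B, ψ b ∈ Submodule.span K ((s.image ψ : Finset L) : Set L) := by
    intro b
    have hb : b ∈ Submodule.span A (s : Set B) := by rw [hs]; trivial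
    induction hb using Submodule.span_induction with
    | mem x hx =>
      exact Submodule.subset_span (Finset.mem_coe.2 (Finset.mem_image_of_mem ψ hx))
    | zero => rw [map_zero]; exact Submodule.zero_mem _
    | add x y _ _ hx hy => rw [map_add]; exact Submodule.add_mem _ hx hy
    | smul a x _ hx =>
      have h2 : ψ (a • x) = (α a) • ψ x := by
        rw [Algebra.smul_def, Algebra.smul_def, h, map_mul]
        rfl
      rw [h2]
      exact Submodule.smul_mem _ _ hx
  have h2 : Submodule.span K (Set.range ψ) = Submodule.span K ((s.image ψ : Finset L) : Set L) := by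
    apply le_antisymm
    · rw [Submodule.span_le]
      rintro _ ⟨b, rfl⟩
      exact h1 b
    · apply Submodule.span_mono
      intro y hy
      obtain ⟨b, _, rfl⟩ := Finset.mem_image.1 (Finset.mem_coe.1 hy)
      exact ⟨b, rfl⟩
  have h3 : Subalgebra.toSubmodule (Algebra.adjoin K (Set.range ψ)) =
      Submodule.span K (Set.range ψ) := by
    rw [Algebra.adjoin_eq_span]
    congr 1
    have h4 : Set.range ψ = ((MonoidHom.mrange (ψ : B →* L) : Submonoid L) : Set L) := by
      ext y
      rfl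
    rw [h4, Submonoid.closure_eq]
  have hfg : (Subalgebra.toSubmodule (Algebra.adjoin K (Set.range ψ))).FG := by
    rw [h3, h2]
    exact ⟨_, rfl⟩
  have h5 : Algebra.adjoin K (Set.range ψ) = ⊤ := by
    rw [eq_top_iff]
    intro y _
    obtain ⟨a, b, hb, hy⟩ := hq y
    have hbm : ψ b ∈ Algebra.adjoin K (Set.range ψ) := Algebra.subset_adjoin ⟨b, rfl⟩
    have ham : ψ a ∈ Algebra.adjoin K (Set.range ψ) := Algebra.subset_adjoin ⟨a, rfl⟩
    have hint : IsIntegral K (ψ b) := IsIntegral.of_mem_of_fg _ hfg _ hbm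
    have hinv : (ψ b)⁻¹ ∈ Algebra.adjoin K (Set.range ψ) :=
      Subalgebra.inv_mem_of_algebraic (Algebra.adjoin K (Set.range ψ)) (x := ⟨ψ b, hbm⟩)
        hint.isAlgebraic
    have h6 : y = ψ a * (ψ b)⁻¹ := by rw [← hy, mul_assoc, mul_inv_cancel₀ hb, mul_one]
    rw [h6]
    exact Subalgebra.mul_mem _ ham hinv
  have h7 : Submodule.span K (Set.range ψ) = ⊤ := by
    rw [← h3, h5]
    rfl
  refine ⟨h7, ⟨?_⟩⟩
  rw [← h7, ← h3]
  exact hfg

/-- elements of the residue field are quotients of values of functions on an affine open -/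
private theorem ev_quot (x : X) {V : X.Opens} (hV : IsAffineOpen V) (h : x ∈ V)
    (c : X.residueField x) : ∃ a b : Γ(X, V), ev x h b ≠ 0 ∧ c * ev x h b = ev x h a := by
  let _ : Algebra Γ(X, V) (X.presheaf.stalk x) := X.presheaf.algebra_section_stalk ⟨x, h⟩
  have hloc : IsLocalization.AtPrime (X.presheaf.stalk x) (hV.primeIdealOf ⟨x, h⟩).asIdeal :=
    hV.isLocalization_stalk ⟨x, h⟩
  have hev : ∀ a : Γ(X, V), ev x h a = X.residue x (algebraMap Γ(X, V) (X.presheaf.stalk x) a) :=
    fun a => rfl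
  obtain ⟨b, rfl⟩ := X.residue_surjective x c
  obtain ⟨⟨a, s⟩, hs⟩ := IsLocalization.surj (hV.primeIdealOf ⟨x, h⟩).asIdeal.primeCompl b
  have hs1 : (s : Γ(X, V)) ∉ (hV.primeIdealOf ⟨x, h⟩).asIdeal := s.2
  refine ⟨a, s, ?_, ?_⟩
  · intro h0
    apply hs1
    rw [hev] at h0
    exact (IsLocalization.AtPrime.to_map_mem_maximal_iff (X.presheaf.stalk x)
      (hV.primeIdealOf ⟨x, h⟩).asIdeal (s : Γ(X, V))).1 (Ideal.Quotient.eq_zero_iff_mem.1 h0)
  · rw [hev, hev, ← map_mul]
    exact congrArg (X.residue x) hs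

private theorem both (π : X ⟶ S) [IsFinite π] (x : X) (U : Aff S) (hU : π.base x ∈ U.1) :
    letI := (π.residueFieldMap x).hom.toAlgebra
    Submodule.span (S.residueField (π.base x))
      (Set.range (ev (U := π ⁻¹ᵁ U.1) x hU)) = ⊤ ∧
      Module.Finite (S.residueField (π.base x)) (X.residueField x) := by
  let _ := (π.residueFieldMap x).hom.toAlgebra
  exact alg_span (A := Γ(S, U.1)) (B := Γ(X, π ⁻¹ᵁ U.1)) (K := S.residueField (π.base x))
    (L := X.residueField x) (π.app U.1).hom (ev (U := π ⁻¹ᵁ U.1) x hU) (ev (U := U.1) (π.base x) hU)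
    (IsFinite.finite_app π U.1 U.2)
    (fun a => Scheme.evaluation_naturality_apply π x hU a)
    (fun y => ev_quot x (U.2.preimage π) hU y)

theorem span_ev (π : X ⟶ S) [IsFinite π] (x : X) (U : Aff S) (hU : π.base x ∈ U.1) :
    letI := (π.residueFieldMap x).hom.toAlgebra
    Submodule.span (S.residueField (π.base x))
      (Set.range (ev (U := π ⁻¹ᵁ U.1) x hU)) = ⊤ :=
  (both π x U hU).1

theorem finite_rfm (π : X ⟶ S) [IsFinite π] (x : X) : (π.residueFieldMap x).hom.Finite := by
  obtain ⟨U, hU, hxU, -⟩ := (Opens.isBasis_iff_nbhd.1 S.isBasis_affineOpens)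
    (show π.base x ∈ (⊤ : S.Opens) from trivial)
  exact (both π x ⟨U, hU⟩ hxU).2

end Pool.Agent.OSP
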