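import Pool.Agent.OSP.UnrB

/-!
# OSP-UnrC: an everywhere unramified extension of `ℂ(t)` has `H^1(O) = 0`
-/

namespace Pool.Agent.OSP

open Polynomial

variable {K K' : Type} [Field K] [Field K'] [Algebra ℂ K] [Algebra ℂ K'] [Algebra K K']
  [IsScalarTower ℂ K K'] [FiniteDimensional K K']

/-- `K'/K` is unramified at every valuation subring containing the constants -/
def UR (K K' : Type) [Field K] [Field K'] [Algebra ℂ K] [Algebra K K'] : Prop :=
  ∀ O : ValuationSubring K, HasC O → ∃ (n : ℕ) (x y : Fin n → K'),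
    (∀ i, IsIntegral O (x i)) ∧ (∀ i, IsIntegral O (y i)) ∧
      ∀ u : K', ∑ i, algebraMap K K' (Algebra.trace K K' (u * y i)) * x i = u

/-- integral elements lie in valuation subrings -/
private theorem int_mem {L R : Type} [Field L] [CommRing R] [Algebra R L]
    (O' : ValuationSubring L) (h : ∀ r : R, algebraMap R L r ∈ O') {w : L}
    (hw : IsIntegral R w) : w ∈ O' := by
  obtain ⟨p, hp, he⟩ := hw
  let f : R →+* O' := (algebraMap R L).codRestrict O' h
  have h1 : IsIntegral O' w := by
    refine ⟨p.map f, hp.map f, ?_⟩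
    rw [Polynomial.eval₂_map]
    exact he
  obtain ⟨y, hy⟩ := IsIntegrallyClosed.isIntegral_iff.mp h1
  rw [← hy]
  exact y.2

private theorem lift_int {L R : Type} [Field L] [CommRing R] [Algebra R L] {w : L} (P : L[X])
    (hP : P.Monic) (h0 : P.eval w = 0) (h : ∀ i, P.coeff i ∈ Set.range (algebraMap R L)) :
    IsIntegral R w := by
  have h1 : P ∈ Polynomial.lifts (algebraMap R L) := by
    rw [Polynomial.lifts_iff_coeff_lifts]
    exact h
  obtain ⟨q, hq, -, hm⟩ := Polynomial.lifts_and_natDegree_eq_and_monic h1 hP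
  refine ⟨q, hm, ?_⟩
  rw [← hq, eval_map] at h0
  exact h0

omit [Algebra ℂ K] [Algebra ℂ K'] [IsScalarTower ℂ K K'] [FiniteDimensional K K'] in
private theorem int_of_all (O : ValuationSubring K) (w : K')
    (h : ∀ O' : ValuationSubring K', (∀ r ∈ O, algebraMap K K' r ∈ O') → w ∈ O') :
    IsIntegral O w := by
  have h1 : IsIntegral (O.toSubring.map (algebraMap K K')) w := by
    rw [integral_iff_val]
    intro O' hO'
    exact h O' fun r hr => hO' _ ⟨r, hr, rfl⟩
  obtain ⟨p, hp, he⟩ := h1
  refine lift_int (p.map (algebraMap (O.toSubring.map (algebraMap K K')) K')) (hp.map _) ?_ ?_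
  · rw [eval_map]
    exact he
  · intro i
    rw [coeff_map]
    obtain ⟨r, hr, hr2⟩ := (p.coeff i).2
    exact ⟨⟨r, hr⟩, hr2⟩

omit [Algebra ℂ K'] [IsScalarTower ℂ K K'] [FiniteDimensional K K'] in
private theorem clear_denoms (t : K) (ht : t ∉ (algebraMap ℂ K).range)
    (hK : IntermediateField.adjoin ℂ {t} = ⊤) (O : ValuationSubring K) (hO : HasC O)
    (htO : t ∈ O) (y : K') (hy : IsIntegral O y) :
    ∃ s : ℂ[X], aeval t s ≠ 0 ∧ (aeval t s)⁻¹ ∈ O ∧
      IsIntegral (Algebra.adjoin ℂ {t}) (algebraMap K K' (aeval t s) * y) := by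
  classical
  obtain ⟨p, hp, he⟩ := hy
  have hq : ∀ i, ∃ as : ℂ[X] × ℂ[X], aeval t as.2 ≠ 0 ∧ (aeval t as.2)⁻¹ ∈ O ∧
      ((p.coeff i : O) : K) * aeval t as.2 = aeval t as.1 := by
    intro i
    obtain ⟨a, s, h1, h2, h3⟩ := quot0 t ht hK O hO htO (p.coeff i : K) (p.coeff i).2
    exact ⟨(a, s), h1, h2, h3⟩
  choose f hf0 hf1 hf2 using hq
  obtain ⟨n, hn⟩ : ∃ n, n = p.natDegree := ⟨_, rfl⟩
  obtain ⟨s, hs⟩ : ∃ s : ℂ[X], s = ∏ i ∈ Finset.range n, (f i).2 := ⟨_, rfl⟩
  have hs1 : aeval t s = ∏ i ∈ Finset.range n, aeval t (f i).2 := by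
    rw [hs, map_prod]
  refine ⟨s, ?_, ?_, ?_⟩
  · rw [hs1]
    exact Finset.prod_ne_zero_iff.mpr fun i _ => hf0 i
  · rw [hs1, ← Finset.prod_inv_distrib]
    exact prod_mem fun i _ => hf1 i
  · have hPm : (p.map (algebraMap O K)).Monic := hp.map _
    have hPn : (p.map (algebraMap O K)).natDegree = n := by
      rw [hn]
      exact hp.natDegree_map _
    have hPc : ∀ i, (p.map (algebraMap O K)).coeff i = ((p.coeff i : O) : K) := fun i => by
      rw [coeff_map]
      rfl
    have hPy : aeval y (p.map (algebraMap O K)) = 0 := by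
      rw [aeval_def, eval₂_map]
      exact he
    have h2 := scaleRoots_aeval_eq_zero (r := aeval t s) hPy
    refine lift_int ((scaleRoots (p.map (algebraMap O K)) (aeval t s)).map (algebraMap K K'))
      (((monic_scaleRoots_iff _).mpr hPm).map _) ?_ ?_
    · rw [eval_map]
      exact h2
    · intro i
      rw [coeff_map, coeff_scaleRoots, hPn]
      have key : ∃ q : ℂ[X], (p.map (algebraMap O K)).coeff i * (aeval t s) ^ (n - i)
          = aeval t q := by
        rcases lt_trichotomy i n with hi | hi | hi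
        · refine ⟨(f i).1 * (∏ j ∈ (Finset.range n).erase i, (f j).2) * s ^ (n - i - 1), ?_⟩
          have e1 : n - i = (n - i - 1) + 1 := by omega
          have e2 : aeval t s = aeval t (f i).2 *
              aeval t (∏ j ∈ (Finset.range n).erase i, (f j).2) := by
            rw [← map_mul, hs, Finset.mul_prod_erase (Finset.range n) (fun j => (f j).2)
              (Finset.mem_range.mpr hi)]
          rw [hPc, map_mul, map_mul, map_pow, ← hf2 i]
          conv_lhs => rw [e1, pow_succ]
          conv_lhs =>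
            rhs
            rhs
            rw [e2]
          ring
        · refine ⟨1, ?_⟩
          rw [hi, ← hPn, hPm.coeff_natDegree, Nat.sub_self, pow_zero, map_one, mul_one]
        · refine ⟨0, ?_⟩
          rw [coeff_eq_zero_of_natDegree_lt (by rw [hPn]; exact hi), zero_mul, map_zero]
      obtain ⟨q, hq⟩ := key
      rw [hq]
      exact ⟨⟨aeval t q, aeval_mem_adjoin_singleton ℂ t⟩, rfl⟩

omit [FiniteDimensional K K'] in
private theorem hasC_comap {O' : ValuationSubring K'} (h : HasC O') :
    HasC (O'.comap (algebraMap K K')) := by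
  intro c
  rw [ValuationSubring.mem_comap, ← IsScalarTower.algebraMap_apply]
  exact h c

omit [Algebra ℂ K] [Algebra ℂ K'] [IsScalarTower ℂ K K'] [FiniteDimensional K K'] in
private theorem int_comap (O' : ValuationSubring K') {w : K'}
    (hw : IsIntegral (O'.comap (algebraMap K K')) w) : w ∈ O' :=
  int_mem O' (fun r => r.2) hw

/-- valuation subrings are closed under integral elements of `K` -/
private theorem mem_of_int {L : Type} [Field L] (O : ValuationSubring L) {z : L}
    (hz : IsIntegral O z) : z ∈ O :=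
  int_mem O (fun r => r.2) hz

/-- part (3): an element with small values vanishes -/
private theorem eq_zero_of_small (t : K) (ht : t ∉ (algebraMap ℂ K).range) (c : K')
    (h0 : ∀ O' : ValuationSubring K', HasC O' → algebraMap K K' t ∈ O' → c ∈ O')
    (h1 : ∀ O' : ValuationSubring K', HasC O' → algebraMap K K' t ∉ O' →
      algebraMap K K' t * c ∈ O') : c = 0 := by
  have hC' : ∀ (O : ValuationSubring K) (O' : ValuationSubring K'), HasC O →
      (∀ r ∈ O, algebraMap K K' r ∈ O') → HasC O' := by
    intro O O' hO h a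
    rw [IsScalarTower.algebraMap_apply ℂ K K']
    exact h _ (hO a)
  have hin0 : ∀ O : ValuationSubring K, HasC O → t ∈ O → Algebra.norm K c ∈ O := by
    intro O hO htO
    have hi : IsIntegral O c := int_of_all O c fun O' h => h0 O' (hC' O O' hO h) (h t htO)
    exact mem_of_int O (Algebra.isIntegral_norm K hi)
  have hin1 : ∀ O : ValuationSubring K, HasC O → t ∉ O →
      t ^ (Module.finrank K K') * Algebra.norm K c ∈ O := by
    intro O hO htO
    have hi : IsIntegral O (algebraMap K K' t * c) := by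
      refine int_of_all O _ fun O' h => ?_
      by_cases ht' : algebraMap K K' t ∈ O'
      · exact mul_mem ht' (h0 O' (hC' O O' hO h) ht')
      · exact h1 O' (hC' O O' hO h) ht'
    have h2 := mem_of_int O (Algebra.isIntegral_norm K hi)
    rw [map_mul, Algebra.norm_algebraMap] at h2
    exact h2
  have hall : ∀ O : ValuationSubring K, HasC O → Algebra.norm K c ∈ O := by
    intro O hO
    by_cases htO : t ∈ O
    · exact hin0 O hO htO
    · have hinv : t⁻¹ ∈ O := (O.mem_or_inv_mem t).resolve_left htO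
      have ht0 : t ≠ 0 := fun h => htO (h ▸ zero_mem O)
      have h2 := mul_mem (pow_mem hinv (Module.finrank K K')) (hin1 O hO htO)
      have e : t⁻¹ ^ Module.finrank K K' * (t ^ Module.finrank K K' * Algebra.norm K c)
          = Algebra.norm K c := by
        rw [← mul_assoc, ← mul_pow, inv_mul_cancel₀ ht0, one_pow, one_mul]
      rw [e] at h2
      exact h2
  obtain ⟨a, ha⟩ := mem_of_all _ hall
  obtain ⟨O, hO, htO⟩ : ∃ O : ValuationSubring K, HasC O ∧ t ∉ O := by
    by_contra hcon
    push Not at hcon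
    exact ht (mem_of_all t hcon)
  have hinv : t⁻¹ ∈ O := (O.mem_or_inv_mem t).resolve_left htO
  have ht0 : t ≠ 0 := fun h => htO (h ▸ zero_mem O)
  by_cases ha0 : a = 0
  · rw [ha0, map_zero] at ha
    exact Algebra.norm_eq_zero_iff.mp ha.symm
  · exfalso
    apply htO
    have hn : 0 < Module.finrank K K' := Module.finrank_pos
    obtain ⟨m, hm⟩ : ∃ m, Module.finrank K K' = m + 1 := ⟨Module.finrank K K' - 1, by omega⟩
    have h2 := hin1 O hO htO
    rw [hm, ← ha] at h2
    have h3 := mul_mem (mul_mem (pow_mem hinv m) h2) (hO a⁻¹)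
    have e : t⁻¹ ^ m * (t ^ (m + 1) * algebraMap ℂ K a) * algebraMap ℂ K a⁻¹ = t := by
      have e1 : algebraMap ℂ K a * algebraMap ℂ K a⁻¹ = 1 := by
        rw [← map_mul, mul_inv_cancel₀ ha0, map_one]
      have e2 : t⁻¹ ^ m * t ^ m = 1 := by
        rw [← mul_pow, inv_mul_cancel₀ ht0, one_pow]
      calc t⁻¹ ^ m * (t ^ (m + 1) * algebraMap ℂ K a) * algebraMap ℂ K a⁻¹
          = (t⁻¹ ^ m * t ^ m) * t * (algebraMap ℂ K a * algebraMap ℂ K a⁻¹) := by ring
        _ = t := by rw [e1, e2, one_mul, mul_one]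
    rw [e] at h3
    exact h3

theorem exists_split (hUR : UR K K') (t : K) (ht : t ∉ (algebraMap ℂ K).range)
    (hK : IntermediateField.adjoin ℂ {t} = ⊤) (v : K') :
    ∃ m0 m1 : K', v = m0 + m1 ∧ ∀ O' : ValuationSubring K', HasC O' →
      (algebraMap K K' t ∈ O' → m0 ∈ O') ∧ (algebraMap K K' t ∉ O' → m1 ∈ O') := by
  classical
  let N0 : Submodule ℂ K' :=
    { carrier := {w | ∀ O' : ValuationSubring K', HasC O' → algebraMap K K' t ∈ O' → w ∈ O'}
      add_mem' := fun ha hb O' h1 h2 => add_mem (ha O' h1 h2) (hb O' h1 h2)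
      zero_mem' := fun O' _ _ => zero_mem O'
      smul_mem' := fun c w hw O' h1 h2 => by
        rw [Algebra.smul_def]
        exact mul_mem (h1 c) (hw O' h1 h2) }
  let N1 : Submodule ℂ K' :=
    { carrier := {w | ∀ O' : ValuationSubring K', HasC O' → algebraMap K K' t ∉ O' → w ∈ O'}
      add_mem' := fun ha hb O' h1 h2 => add_mem (ha O' h1 h2) (hb O' h1 h2)
      zero_mem' := fun O' _ _ => zero_mem O'
      smul_mem' := fun c w hw O' h1 h2 => by
        rw [Algebra.smul_def]
        exact mul_mem (h1 c) (hw O' h1 h2) }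
  by_contra hcon
  have hv : v ∉ N0 ⊔ N1 := by
    intro hv
    obtain ⟨m0, h0, m1, h1, e⟩ := Submodule.mem_sup.mp hv
    exact hcon ⟨m0, m1, e.symm, fun O' hO' => ⟨fun h => h0 O' hO' h, fun h => h1 O' hO' h⟩⟩
  obtain ⟨ℓ, hℓ, hle⟩ := Submodule.exists_le_ker_of_notMem hv
  have hR : ∀ (O' : ValuationSubring K'), HasC O' → algebraMap K K' t ∈ O' →
      ∀ r : Algebra.adjoin ℂ {t}, algebraMap (Algebra.adjoin ℂ {t}) K' r ∈ O' := by
    intro O' hO' ht' r
    have h1 : ∀ z ∈ Algebra.adjoin ℂ {t}, algebraMap K K' z ∈ O' := by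
      intro z hz
      induction hz using Algebra.adjoin_induction with
      | mem x hx =>
        rw [Set.mem_singleton_iff.mp hx]
        exact ht'
      | algebraMap r =>
        rw [← IsScalarTower.algebraMap_apply]
        exact hO' r
      | add x y _ _ hx hy =>
        rw [map_add]
        exact add_mem hx hy
      | mul x y _ _ hx hy =>
        rw [map_mul]
        exact mul_mem hx hy
    exact h1 _ r.2
  obtain ⟨c, hc, hc0, hc1⟩ := exists_trace_form t ht hK ℓ v hℓ
    (by
      intro w hw
      have h1 : w ∈ N0 := fun O' hO' ht' => int_mem O' (hR O' hO' ht') hw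
      exact hle (Submodule.mem_sup_left h1))
    (by
      intro w hw
      have h1 : w ∈ N1 := fun O' hO' ht' =>
        int_comap O' (hw (O'.comap (algebraMap K K')) (hasC_comap hO') ht')
      exact hle (Submodule.mem_sup_right h1))
  refine hc (eq_zero_of_small t ht c ?_ ?_)
  · intro O' hO' ht'
    obtain ⟨n, x, y, hx, hy, hsum⟩ := hUR (O'.comap (algebraMap K K')) (hasC_comap hO')
    rw [← hsum c]
    refine sum_mem fun i _ => mul_mem ?_ (int_comap O' (hx i))
    obtain ⟨s, hs0, hs1, hs2⟩ := clear_denoms t ht hK (O'.comap (algebraMap K K'))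
      (hasC_comap hO') ht' (y i) (hy i)
    have h1 := hc0 _ hs2
    have h2 : c * (algebraMap K K' (aeval t s) * y i) = (aeval t s) • (c * y i) := by
      rw [Algebra.smul_def]
      ring
    rw [h2, map_smul, smul_eq_mul] at h1
    have h3 := mul_mem (hR O' hO' ht' ⟨_, h1⟩) hs1
    have e : algebraMap K K' (aeval t s * Algebra.trace K K' (c * y i)) *
        algebraMap K K' (aeval t s)⁻¹ = algebraMap K K' (Algebra.trace K K' (c * y i)) := by
      rw [← map_mul]
      congr 1
      field_simp
    have h4 : algebraMap (Algebra.adjoin ℂ {t}) K'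
        ⟨aeval t s * Algebra.trace K K' (c * y i), h1⟩ =
        algebraMap K K' (aeval t s * Algebra.trace K K' (c * y i)) := rfl
    rw [h4] at h3
    rw [← e]
    exact h3
  · intro O' hO' ht'
    have hO1 : HasC (O'.comap (algebraMap K K')) := hasC_comap hO'
    have ht1 : t ∉ O'.comap (algebraMap K K') := ht'
    obtain ⟨n, x, y, hx, hy, hsum⟩ := hUR (O'.comap (algebraMap K K')) hO1
    rw [← hsum (algebraMap K K' t * c)]
    refine sum_mem fun i _ => mul_mem ?_ (int_comap O' (hx i))
    have hyi : ∀ O : ValuationSubring K, HasC O → t ∉ O → IsIntegral O (y i) := by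
      intro O hO htO
      have hEq : O = O'.comap (algebraMap K K') := by
        ext z
        rw [quot1 t ht hK O hO htO z, quot1 t ht hK _ hO1 ht1 z]
      rw [hEq]
      exact hy i
    have h1 := hc1 (y i) hyi (O'.comap (algebraMap K K')) hO1 ht1
    have h2 : algebraMap K K' t * c * y i = t • (c * y i) := by
      rw [Algebra.smul_def]
      ring
    rw [h2, map_smul, smul_eq_mul, mul_comm]
    exact h1

end Pool.Agent.OSP
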