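import Mathlib

/-! # OSP-UrAlg: the separability idempotent of an unramified algebra and traces -/

open scoped TensorProduct

namespace Pool.Agent.OSP

private theorem exists_fin {A B : Type} [CommRing A] [CommRing B] [Algebra A B] (t : B ⊗[A] B) :
    ∃ (n : ℕ) (x y : Fin n → B), t = ∑ i, x i ⊗ₜ[A] y i := by
  induction t using TensorProduct.induction_on with
  | zero => exact ⟨0, fun i => i.elim0, fun i => i.elim0, by simp⟩
  | tmul x y => exact ⟨1, fun _ => x, fun _ => y, by simp⟩
  | add t t' h h' =>
    obtain ⟨n, x, y, rfl⟩ := h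
    obtain ⟨n', x', y', rfl⟩ := h'
    refine ⟨n + n', Fin.append x x', Fin.append y y', ?_⟩
    rw [Fin.sum_univ_add]
    simp only [Fin.append_left, Fin.append_right]

/-- the functional `x ⊗ y ↦ ψ x * f (ψ y)` -/
private noncomputable def GG {A B K K' : Type} [CommRing A] [CommRing B] [Algebra A B]
    [Field K] [Field K'] [Algebra K K'] (φ : A →+* K) (ψ : B →+* K')
    (h : ∀ a, ψ (algebraMap A B a) = algebraMap K K' (φ a)) (f : K' →ₗ[K] K) :
    B ⊗[A] B →+ K' :=
  TensorProduct.liftAddHom
    { toFun := fun x =>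
        { toFun := fun y => ψ x * algebraMap K K' (f (ψ y))
          map_zero' := by rw [map_zero, map_zero, map_zero, mul_zero]
          map_add' := fun y y' => by rw [map_add, map_add, map_add, mul_add] }
      map_zero' := by
        ext y
        show ψ 0 * _ = 0
        rw [map_zero, zero_mul]
      map_add' := fun x x' => by
        ext y
        show ψ (x + x') * algebraMap K K' (f (ψ y)) =
          ψ x * algebraMap K K' (f (ψ y)) + ψ x' * algebraMap K K' (f (ψ y))
        rw [map_add, add_mul] }
    (fun a x y => by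
      show ψ (a • x) * algebraMap K K' (f (ψ y)) = ψ x * algebraMap K K' (f (ψ (a • y)))
      rw [Algebra.smul_def, Algebra.smul_def, map_mul, map_mul, h, ← Algebra.smul_def (φ a) (ψ y),
        map_smul, smul_eq_mul, map_mul]
      ring)

private theorem GG_tmul {A B K K' : Type} [CommRing A] [CommRing B] [Algebra A B]
    [Field K] [Field K'] [Algebra K K'] (φ : A →+* K) (ψ : B →+* K')
    (h : ∀ a, ψ (algebraMap A B a) = algebraMap K K' (φ a)) (f : K' →ₗ[K] K) (x y : B) :
    GG φ ψ h f (x ⊗ₜ[A] y) = ψ x * algebraMap K K' (f (ψ y)) := rfl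

theorem ur_of_unramified {A B K K' : Type} [CommRing A] [CommRing B] [Algebra A B]
    [Algebra.FormallyUnramified A B] [Algebra.FiniteType A B] [Field K] [Field K'] [Algebra K K']
    [FiniteDimensional K K'] (φ : A →+* K) (ψ : B →+* K')
    (h : ∀ a, ψ (algebraMap A B a) = algebraMap K K' (φ a))
    (hsp : Submodule.span K (Set.range ψ) = ⊤) :
    ∃ (n : ℕ) (x y : Fin n → B), ∀ u : K',
      ∑ i, algebraMap K K' (Algebra.trace K K' (u * ψ (y i))) * ψ (x i) = u := by
  obtain ⟨t, ht, ht1⟩ := Algebra.FormallyUnramified.iff_exists_tensorProduct.1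
    (inferInstance : Algebra.FormallyUnramified A B)
  obtain ⟨n, x, y, rfl⟩ := exists_fin t
  refine ⟨n, x, y, fun u => ?_⟩
  have h1 : ∑ i, x i * y i = 1 := by
    rw [map_sum] at ht1
    simpa using ht1
  have h2 : ∀ (f : K' →ₗ[K] K) (c : B), ∑ i, ψ (x i) * algebraMap K K' (f (ψ c * ψ (y i))) =
      ∑ i, ψ c * ψ (x i) * algebraMap K K' (f (ψ (y i))) := by
    intro f c
    have h3 := congrArg (GG φ ψ h f) (ht c)
    rw [sub_mul, map_sub, map_zero, sub_eq_zero, Finset.mul_sum, Finset.mul_sum, map_sum,
      map_sum] at h3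
    simp only [Algebra.TensorProduct.tmul_mul_tmul, one_mul, GG_tmul, map_mul] at h3
    exact h3
  have h3 : ∀ (f : K' →ₗ[K] K) (v : K'), ∑ i, ψ (x i) * algebraMap K K' (f (v * ψ (y i))) =
      ∑ i, v * ψ (x i) * algebraMap K K' (f (ψ (y i))) := by
    intro f v
    have hv : v ∈ Submodule.span K (Set.range ψ) := by
      rw [hsp]
      exact Submodule.mem_top
    induction hv using Submodule.span_induction with
    | mem v hv =>
      obtain ⟨c, rfl⟩ := hv
      exact h2 f c
    | zero =>
      refine Finset.sum_congr rfl fun i _ => ?_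
      rw [zero_mul, zero_mul, map_zero, map_zero, mul_zero, zero_mul]
    | add v w _ _ hv hw =>
      have e1 : ∀ i, ψ (x i) * algebraMap K K' (f ((v + w) * ψ (y i))) =
          ψ (x i) * algebraMap K K' (f (v * ψ (y i))) +
            ψ (x i) * algebraMap K K' (f (w * ψ (y i))) := by
        intro i
        rw [add_mul, map_add, map_add, mul_add]
      have e2 : ∀ i, (v + w) * ψ (x i) * algebraMap K K' (f (ψ (y i))) =
          v * ψ (x i) * algebraMap K K' (f (ψ (y i))) +
            w * ψ (x i) * algebraMap K K' (f (ψ (y i))) := by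
        intro i
        ring
      simp only [e1, e2, Finset.sum_add_distrib, hv, hw]
    | smul k v _ hv =>
      have e1 : ∀ i, ψ (x i) * algebraMap K K' (f ((k • v) * ψ (y i))) =
          algebraMap K K' k * (ψ (x i) * algebraMap K K' (f (v * ψ (y i)))) := by
        intro i
        rw [smul_mul_assoc, map_smul, smul_eq_mul, map_mul]
        ring
      have e2 : ∀ i, (k • v) * ψ (x i) * algebraMap K K' (f (ψ (y i))) =
          algebraMap K K' k * (v * ψ (x i) * algebraMap K K' (f (ψ (y i)))) := by
        intro i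
        rw [Algebra.smul_def]
        ring
      simp only [e1, e2, ← Finset.mul_sum, hv]
  let b := Module.finBasis K K'
  have h4 : ∀ v : K', Algebra.trace K K' v = ∑ j, b.coord j (v * b j) := by
    intro v
    rw [Algebra.trace_eq_matrix_trace b, Matrix.trace]
    refine Finset.sum_congr rfl fun j _ => ?_
    rw [Matrix.diag_apply, Algebra.leftMulMatrix_eq_repr_mul]
    rfl
  calc ∑ i, algebraMap K K' (Algebra.trace K K' (u * ψ (y i))) * ψ (x i)
      = ∑ i, ∑ j, ψ (x i) * algebraMap K K' (b.coord j (u * b j * ψ (y i))) := by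
        refine Finset.sum_congr rfl fun i _ => ?_
        rw [h4, map_sum, Finset.sum_mul]
        refine Finset.sum_congr rfl fun j _ => ?_
        rw [mul_comm, mul_right_comm]
    _ = ∑ j, ∑ i, ψ (x i) * algebraMap K K' (b.coord j (u * b j * ψ (y i))) := Finset.sum_comm
    _ = ∑ j, ∑ i, u * b j * ψ (x i) * algebraMap K K' (b.coord j (ψ (y i))) :=
        Finset.sum_congr rfl fun j _ => h3 (b.coord j) (u * b j)
    _ = ∑ i, ∑ j, u * b j * ψ (x i) * algebraMap K K' (b.coord j (ψ (y i))) := Finset.sum_comm
    _ = ∑ i, u * ψ (x i) * ψ (y i) := by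
        refine Finset.sum_congr rfl fun i _ => ?_
        have e1 : ∀ j, u * b j * ψ (x i) * algebraMap K K' (b.coord j (ψ (y i))) =
            u * ψ (x i) * (b.repr (ψ (y i)) j • b j) := by
          intro j
          rw [Algebra.smul_def, Module.Basis.coord_apply]
          ring
        simp only [e1, ← Finset.mul_sum, b.sum_repr]
    _ = u * ψ (∑ i, x i * y i) := by
        rw [map_sum, Finset.mul_sum]
        refine Finset.sum_congr rfl fun i _ => ?_
        rw [map_mul]
        ring
    _ = u := by rw [h1, map_one, mul_one]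

end Pool.Agent.OSP
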