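import Pool.Agent.OSP.GVal
import Pool.Agent.OSP.GRfm
import Pool.Agent.OSP.UrAlg
import Pool.Agent.OSP.UnrC

/-!
# OSP-GUR: residue fields of a finite etale cover are unramified at every valuation

`ur_residue`: `O` a valuation subring of `κ(π x)` containing the constants; `val_center`: `s`, `π x ⤳ s`; an affine `U ∋ s` (then
`π x ∈ U`): `ev (Γ(U)) ⊆ O`. `A = Γ(U)`, `B = Γ(π⁻¹ U)`, `Algebra A B := (π.app U).hom.toAlgebra`: etale (`Etale π`:
`HasRingHomProperty`/`IsAffineOpen`... gives `RingHom.Etale (π.app U).hom` or `RingHom.IsStandardSmooth...`; in any case formally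
unramified and of finite type), finite (`IsFinite`: `RingHom.Finite`). `ur_of_unramified` with `φ = ev (π x)`, `ψ = ev x`
(`Scheme.evaluation_naturality_apply`), `hsp = span_ev`. `ψ(b)` is integral over `O` for `b ∈ B`: `b` is integral over `A`
(`B` finite), and `φ(A) ⊆ O`.
-/

open CategoryTheory CategoryTheory.Limits AlgebraicGeometry Opposite TopologicalSpace

namespace Pool.Agent.OSP

open Pool.Agent.BE

variable {S X : Scheme.{0}}

private theorem int_ev {A B K L : Type} [CommRing A] [CommRing B] [Field K] [Field L]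
    [Algebra K L] (O : ValuationSubring K) (φ : A →+* B) (ψ : B →+* L) (α : A →+* K)
    (hφ : φ.Finite) (h : ∀ a, ψ (φ a) = algebraMap K L (α a)) (hα : ∀ a, α a ∈ O) (b : B) :
    IsIntegral O (ψ b) := by
  obtain ⟨p, hp, he⟩ := hφ.to_isIntegral b
  let f : A →+* O := α.codRestrict O hα
  refine ⟨p.map f, hp.map f, ?_⟩
  have h1 : (algebraMap O L).comp f = ψ.comp φ := by
    ext a
    exact (h a).symm
  rw [Polynomial.eval₂_map, h1, ← Polynomial.hom_eval₂, he, map_zero]

theorem ur_residue (sS : S ⟶ SpecC) [IsProper sS] (π : X ⟶ S) [IsFinite π] [Etale π] (x : X) :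
    letI := kAlg sS (π.base x)
    letI := (π.residueFieldMap x).hom.toAlgebra
    UR (S.residueField (π.base x)) (X.residueField x) := by
  let _ := kAlg sS (π.base x)
  let _ := (π.residueFieldMap x).hom.toAlgebra
  intro O hO
  obtain ⟨s, hs, hc⟩ := val_center sS (π.base x) O hO
  obtain ⟨U, hU, hsU, -⟩ := (Opens.isBasis_iff_nbhd.1 S.isBasis_affineOpens)
    (show s ∈ (⊤ : S.Opens) from trivial)
  have hxU : π.base x ∈ U := hs.mem_open U.2 hsU
  have hfin : (π.app U).hom.Finite := IsFinite.finite_app π U hU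
  have het : (π.appLE U (π ⁻¹ᵁ U) le_rfl).hom.Etale :=
    Etale.etale_appLE π hU (hU.preimage π) le_rfl
  rw [Scheme.Hom.appLE_eq_app] at het
  let _ : Algebra Γ(S, U) Γ(X, π ⁻¹ᵁ U) := (π.app U).hom.toAlgebra
  have hfd : FiniteDimensional (S.residueField (π.base x)) (X.residueField x) := finite_rfm π x
  have hun : Algebra.FormallyUnramified Γ(S, U) Γ(X, π ⁻¹ᵁ U) := het.formallyUnramified
  have hft : Algebra.FiniteType Γ(S, U) Γ(X, π ⁻¹ᵁ U) := hfin.finiteType
  have hnat : ∀ a : Γ(S, U), ev (U := π ⁻¹ᵁ U) x hxU ((π.app U).hom a) =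
      (π.residueFieldMap x).hom (ev (U := U) (π.base x) hxU a) := fun a =>
    (Scheme.evaluation_naturality_apply π x hxU a).symm
  have hsp := span_ev π x ⟨U, hU⟩ hxU
  obtain ⟨n, a, b, hab⟩ := ur_of_unramified (A := Γ(S, U)) (B := Γ(X, π ⁻¹ᵁ U))
    (K := S.residueField (π.base x)) (K' := X.residueField x)
    (ev (U := U) (π.base x) hxU) (ev (U := π ⁻¹ᵁ U) x hxU) hnat hsp
  have hint : ∀ c : Γ(X, π ⁻¹ᵁ U), IsIntegral O (ev (U := π ⁻¹ᵁ U) x hxU c) := fun c =>
    int_ev O (π.app U).hom (ev (U := π ⁻¹ᵁ U) x hxU) (ev (U := U) (π.base x) hxU) hfin hnat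
      (fun a => hc ⟨U, hU⟩ hsU hxU a) c
  exact ⟨n, fun i => ev (U := π ⁻¹ᵁ U) x hxU (a i), fun i => ev (U := π ⁻¹ᵁ U) x hxU (b i),
    fun i => hint _, fun i => hint _, hab⟩

end Pool.Agent.OSP
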