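import Pool.Agent.OSP.GRat
import Pool.Agent.OSP.GUR
import Pool.Agent.OSP.GCur
import Pool.Agent.OSP.GFin
import Pool.Agent.OSP.FinC

/-!
# OSP-GEnd: a curve in `S` whose preimage in an etale cover maps onto a curve of positive genus has positive genus
-/

open CategoryTheory CategoryTheory.Limits AlgebraicGeometry Opposite TopologicalSpace

namespace Pool.Agent.OSP

open Pool.Agent.BE

variable {S X E : Scheme.{0}}

private theorem gend_adjoin {K : Type} [Field K] [Algebra ℂ K] (t : K)
    (hK : IntermediateField.adjoin ℂ {t} = ⊤) (c : ℂ) :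
    IntermediateField.adjoin ℂ {(t - algebraMap ℂ K c)⁻¹} = ⊤ := by
  rw [eq_top_iff, ← hK, IntermediateField.adjoin_simple_le_iff]
  set τ : K := (t - algebraMap ℂ K c)⁻¹ with hτ
  have h1 : t = τ⁻¹ + algebraMap ℂ K c := by rw [hτ, inv_inv, sub_add_cancel]
  rw [h1]
  exact add_mem (inv_mem (IntermediateField.mem_adjoin_simple_self ℂ τ))
    ((IntermediateField.adjoin ℂ {τ}).algebraMap_mem c)

private theorem gend_range {K : Type} [Field K] [Algebra ℂ K] (t : K)
    (ht : t ∉ (algebraMap ℂ K).range) (c : ℂ) :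
    (t - algebraMap ℂ K c)⁻¹ ∉ (algebraMap ℂ K).range := by
  rintro ⟨γ, hγ⟩
  apply ht
  refine ⟨γ⁻¹ + c, ?_⟩
  rw [map_add, map_inv₀, hγ, inv_inv, sub_add_cancel]

private theorem gend_fin {K K' : Type} [Field K] [Field K'] [Algebra ℂ K] [Algebra ℂ K']
    [Algebra K K'] [IsScalarTower ℂ K K'] [FiniteDimensional K K'] (t : K)
    (hK : IntermediateField.adjoin ℂ {t} = ⊤) :
    FiniteDimensional (IntermediateField.adjoin ℂ {algebraMap K K' t}) K' := by
  -- every element of `K` maps into the intermediate field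
  have h1 : ∀ k : K, algebraMap K K' k ∈ IntermediateField.adjoin ℂ {algebraMap K K' t} := by
    intro k
    have hk : k ∈ IntermediateField.adjoin ℂ {t} := by rw [hK]; trivial
    have h2 : IntermediateField.adjoin ℂ {t} ≤
        (IntermediateField.adjoin ℂ {algebraMap K K' t}).comap (IsScalarTower.toAlgHom ℂ K K') := by
      rw [IntermediateField.adjoin_simple_le_iff]
      exact IntermediateField.mem_adjoin_simple_self ℂ _
    exact h2 hk
  classical
  let b := Module.finBasis K K'
  refine ⟨⟨Finset.univ.image b, ?_⟩⟩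
  rw [eq_top_iff]
  intro v _
  rw [← b.sum_repr v]
  refine Submodule.sum_mem _ fun i _ => ?_
  have h2 : b.repr v i • b i =
      (⟨algebraMap K K' (b.repr v i), h1 _⟩ : IntermediateField.adjoin ℂ {algebraMap K K' t}) •
        b i := by
    rw [Algebra.smul_def]
    rfl
  rw [h2]
  refine Submodule.smul_mem _ _ (Submodule.subset_span ?_)
  simp

theorem posPt_of_map (sS : S ⟶ SpecC) (hS : IsProj sS) [IsIntegral S]
    (hd : topologicalKrullDim S = 2) (π : X ⟶ S) [IsFinite π] [Etale π] (sE : E ⟶ SpecC)
    (hE : IsCurve sE) (gE : PosGenus E) [IsIntegral E] (q : X ⟶ E) (hq : q ≫ sE = π ≫ sS)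
    (x : X) (hx : π.base x ≠ genericPoint S) (hc : ¬ IsClosed ({π.base x} : Set S))
    (hqx : q.base x = genericPoint E) : PosPt (π.base x) := by
  by_contra hpos
  have hprop : IsProper sS := proper_of_proj sS hS
  let aK := kAlg sS (π.base x)
  let aK' := kAlg (π ≫ sS) x
  let aKK := (π.residueFieldMap x).hom.toAlgebra
  have hst : IsScalarTower ℂ (S.residueField (π.base x)) (X.residueField x) :=
    IsScalarTower.of_algebraMap_eq fun c => (cK_comp π sS x c).symm
  have hfd : FiniteDimensional (S.residueField (π.base x)) (X.residueField x) :=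
    finite_rfm π x
  obtain ⟨t, ht, hK⟩ := rational_of_not_pos sS hS hd (π.base x) hx hc hpos
  have hUR : UR (S.residueField (π.base x)) (X.residueField x) := ur_residue sS π x
  have hfin := finite_residue sS hS hd π sE hE q hq x hx hqx
  obtain ⟨B0, B1, f, fg0, fg1, hf, hno⟩ :
    ∃ (B0 B1 : Subalgebra ℂ (X.residueField x)) (f : X.residueField x), B0.FG ∧ B1.FG ∧
      (∀ O : ValuationSubring (X.residueField x), HasC O → (∀ b ∈ B0, b ∈ O) →
        (∀ b ∈ B1, b ∈ O) → f ∈ O) ∧
      ¬ ∃ a0 a1 : X.residueField x, f = a0 + a1 ∧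
        (∀ O : ValuationSubring (X.residueField x), HasC O → (∀ b ∈ B0, b ∈ O) → a0 ∈ O) ∧
        (∀ O : ValuationSubring (X.residueField x), HasC O → (∀ b ∈ B1, b ∈ O) → a1 ∈ O) := by
    have h := no_split_curve sE hE gE q x hqx hfin
    have he : kAlg (q ≫ sE) x = aK' := by rw [hq]
    rw [he] at h
    exact h
  apply hno
  have ht' : algebraMap (S.residueField (π.base x)) (X.residueField x) t ∉
      (algebraMap ℂ (X.residueField x)).range := by
    rintro ⟨c, hcc⟩
    apply ht
    refine ⟨c, ?_⟩
    apply (algebraMap (S.residueField (π.base x)) (X.residueField x)).injective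
    rw [← hcc, ← IsScalarTower.algebraMap_apply]
  have := gend_fin (K' := X.residueField x) t hK
  refine split_charts B0 B1 fg0 fg1 (algebraMap (S.residueField (π.base x)) (X.residueField x) t)
    ht' ?_ f hf
  intro c v
  have h1 := exists_split hUR (t - algebraMap ℂ _ c)⁻¹ (gend_range t ht c) (gend_adjoin t hK c) v
  rw [map_inv₀, map_sub, ← IsScalarTower.algebraMap_apply] at h1
  exact h1

end Pool.Agent.OSP
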