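import Pool.Agent.BE.GeoDefs
import Pool.Agent.BE.GeoC
import Pool.Agent.BE.GeoB

/-!
# OSP-GProj: a point of a product of two curves with closed projections is closed

`c = fst x`, `c' = snd x` are closed points (`closed_of_dim_one`, BE/GeoC). (1) UNIQUENESS: a point `z` of `pullback sE sF` with
`fst z = c`, `snd z = c'` equals `x`: `Scheme.Pullback.carrierEquiv` (Mathlib/AlgebraicGeometry/PullbackCarrier.lean): the points
over the triplet `(c, c', pt)` are `Spec (κ(c) ⊗[κ(pt)] κ(c'))`; `κ(pt) → κ(c)` is bijective (`c` closed in a scheme locally of finite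
type over the algebraically closed field `ℂ`: `κ(c)` is finite over `ℂ`: see the end of the proof of `exists_finite_point` in
`Pool/Agent/BE/FinPt.lean` for how to get finiteness; `IsAlgClosed`), so the tensor product is isomorphic to the field `κ(c')` and its
spectrum has one point. (Other route: the fibre of `fst` over `c` is isomorphic to `F` by `snd`, see
`Pool/Agent/BE/GeoH.lean`; an isomorphism maps the closed point `snd x` to the closed point `x`.) (2) The set
`fst⁻¹ {c} ∩ snd⁻¹ {c'}` is closed and by (1) equal to `{x}`.
-/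

open CategoryTheory CategoryTheory.Limits AlgebraicGeometry Opposite TopologicalSpace

namespace Pool.Agent.OSP

open Pool.Agent.BE

theorem closed_of_proj {E F : Scheme.{0}} (sE : E ⟶ SpecC) (sF : F ⟶ SpecC) (hE : IsCurve sE)
    (hF : IsCurve sF) [IsIntegral E] [IsIntegral F] (x : (pullback sE sF : Scheme.{0}))
    (h1 : (pullback.fst sE sF).base x ≠ genericPoint E)
    (h2 : (pullback.snd sE sF).base x ≠ genericPoint F) :
    IsClosed ({x} : Set (pullback sE sF : Scheme.{0})) := by
  have hp : IsProper sE := proper_of_proj sE hE.proj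
  have c1 := closed_of_dim_one hE.dim ((pullback.fst sE sF).base x) h1
  have c2 := closed_of_dim_one hF.dim ((pullback.snd sE sF).base x) h2
  set e : E := (pullback.fst sE sF).base x with he
  let pe : SpecC ⟶ E := pointOfClosedPoint sE e c1
  have hpe : pe ≫ sE = 𝟙 _ := pointOfClosedPoint_comp sE e c1
  have hci : IsClosedImmersion pe := isClosedImmersion_of_comp_eq_id sE _ hpe
  let j : F ⟶ pullback sE sF := pullback.lift (sF ≫ pe) (𝟙 F) (by
    rw [Category.assoc, hpe, Category.comp_id, Category.id_comp])
  have hj1 : j ≫ pullback.fst sE sF = sF ≫ pe := pullback.lift_fst _ _ _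
  have hj2 : j ≫ pullback.snd sE sF = 𝟙 F := pullback.lift_snd _ _ _
  have s1 : IsPullback (pullback.snd sE sF) (pullback.fst sE sF) sF sE :=
    (IsPullback.of_hasPullback sE sF).flip
  have s2 : IsPullback (j ≫ pullback.snd sE sF) sF sF (pe ≫ sE) := by
    rw [hj2, hpe]
    exact IsPullback.of_horiz_isIso ⟨by simp⟩
  have s3 : IsPullback j sF (pullback.fst sE sF) pe := IsPullback.of_right s2 hj1 s1
  have hj : IsClosedImmersion j := MorphismProperty.of_isPullback s3.flip hci
  have h3 := Scheme.image_preimage_eq_of_isPullback s3.flip Set.univ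
  have h4 : Set.range pe.base = {e} := by
    ext t
    constructor
    · rintro ⟨a, rfl⟩
      exact pointOfClosedPoint_apply sE e c1 a
    · intro ht
      rw [Set.mem_singleton_iff.1 ht]
      exact ⟨IsLocalRing.closedPoint ℂ, pointOfClosedPoint_apply sE e c1 _⟩
  rw [Set.preimage_univ, Set.image_univ, Set.image_univ] at h3
  have h5 : x ∈ Set.range j.base := by
    have h6 : x ∈ (pullback.fst sE sF).base ⁻¹' (Set.range pe.base) := by
      rw [h4]
      exact he.symm
    have h7 : Set.range j.base = (pullback.fst sE sF).base ⁻¹' (Set.range pe.base) := h3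
    rw [h7]
    exact h6
  obtain ⟨y, hy⟩ := h5
  have h8 : (pullback.snd sE sF).base x = y := by
    rw [← hy]
    have h9 : (j ≫ pullback.snd sE sF).base y = y := by
      rw [hj2]
      rfl
    exact h9
  rw [h8] at c2
  have h10 : ({x} : Set (pullback sE sF : Scheme.{0})) = j.base '' {y} := by
    rw [Set.image_singleton, hy]
  rw [h10]
  exact j.isClosedEmbedding.isClosedMap _ c2

end Pool.Agent.OSP
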