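import Pool.Agent.OSP.DedV

/-!
# OSP-RatB: a function with exactly one pole, simple: the function field is rational

Let `x : K` with `x ∈ O` for every `O ≠ OP` with `HasC O` (call it `Reg x`). CLAIM: if `x (t⁻¹)^n ∈ OP` then `x ∈ ℂ[t]`, by
induction on `n`. `n = 0`: `x` is in all valuation subrings containing the constants, so it is constant (`mem_of_all`).
`n + 1`: `y = x (t⁻¹)^(n+1) ∈ OP`, `res`: `c` with `(y - c) t ∈ OP`, i.e. `(x - c t^(n+1)) (t⁻¹)^n ∈ OP`, and
`Reg (x - c t^(n+1))` because `t ∈ O` for all `O ≠ OP` (`uniq`). With `arch`: `Reg x → x ∈ Algebra.adjoin ℂ {t}`.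
GENERAL `x`: `x` is algebraic over `ℂ(t)` (`alg`), so there is `0 ≠ q ∈ ℂ[t] = Algebra.adjoin ℂ {t}` with `q x` integral
over `Algebra.adjoin ℂ {t}` (clear denominators: elements of `IntermediateField.adjoin ℂ {t}` are quotients of elements of
`Algebra.adjoin ℂ {t}`, `IntermediateField.mem_adjoin_simple_iff`; `IsAlgebraic.exists_integral_multiple` or
`exists_integral_multiple`). `q x ∈ O` for every `O` with `t ∈ O`, `HasC O` (integrally closed), in particular for every `O ≠ OP`
(`uniq`): `Reg (q x)`, so `q x ∈ ℂ[t]` and `x ∈ ℂ(t)`.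
-/

namespace Pool.Agent.OSP

variable {K : Type} [Field K] [Algebra ℂ K]

private theorem ratb_claim (OP : ValuationSubring K) (t : K) (ht0 : t ≠ 0)
    (res : ∀ y ∈ OP, ∃ c : ℂ, (y - algebraMap ℂ K c) * t ∈ OP)
    (uniq : ∀ O : ValuationSubring K, HasC O → O ≠ OP → t ∈ O) :
    ∀ (n : ℕ) (x : K), (∀ O : ValuationSubring K, HasC O → O ≠ OP → x ∈ O) →
      x * (t⁻¹) ^ n ∈ OP → x ∈ Algebra.adjoin ℂ {t} := by
  intro n
  induction n with
  | zero =>
    intro x hx h0
    rw [pow_zero, mul_one] at h0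
    obtain ⟨c, hc⟩ := mem_of_all x (fun O hO => by
      by_cases h : O = OP
      · rw [h]
        exact h0
      · exact hx O hO h)
    rw [← hc]
    exact Subalgebra.algebraMap_mem _ c
  | succ n ih =>
    intro x hx h1
    obtain ⟨c, hc⟩ := res _ h1
    have htm : t ∈ Algebra.adjoin ℂ {t} := Algebra.subset_adjoin (Set.mem_singleton t)
    have e1 : (x - algebraMap ℂ K c * t ^ (n + 1)) * (t⁻¹) ^ n =
        (x * (t⁻¹) ^ (n + 1) - algebraMap ℂ K c) * t := by
      have h2 : t ^ n * (t⁻¹) ^ n = 1 := by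
        rw [← mul_pow, mul_inv_cancel₀ ht0, one_pow]
      have h3 : t⁻¹ * t = 1 := inv_mul_cancel₀ ht0
      calc (x - algebraMap ℂ K c * t ^ (n + 1)) * (t⁻¹) ^ n =
          x * (t⁻¹) ^ n - algebraMap ℂ K c * t * (t ^ n * (t⁻¹) ^ n) := by ring
        _ = x * (t⁻¹) ^ n * (t⁻¹ * t) - algebraMap ℂ K c * t := by rw [h2, h3, mul_one, mul_one]
        _ = _ := by ring
    have h4 := ih (x - algebraMap ℂ K c * t ^ (n + 1)) (fun O hO hne =>
      O.sub_mem (hx O hO hne) (O.mul_mem _ _ (hO c) (pow_mem (uniq O hO hne) _)))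
      (by rw [e1]; exact hc)
    have h5 : x = (x - algebraMap ℂ K c * t ^ (n + 1)) + algebraMap ℂ K c * t ^ (n + 1) := by
      ring
    rw [h5]
    exact Subalgebra.add_mem _ h4 (Subalgebra.mul_mem _ (Subalgebra.algebraMap_mem _ c)
      (Subalgebra.pow_mem _ htm _))

theorem rational_of_pole (OP : ValuationSubring K) (hOP : HasC OP) (t : K) (ht : t ∉ OP)
    (res : ∀ y ∈ OP, ∃ c : ℂ, (y - algebraMap ℂ K c) * t ∈ OP)
    (uniq : ∀ O : ValuationSubring K, HasC O → t ∉ O → O = OP)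
    (arch : ∀ x : K, ∃ n : ℕ, x * (t⁻¹) ^ n ∈ OP)
    (alg : ∀ x : K, IsAlgebraic (IntermediateField.adjoin ℂ {t}) x) :
    IntermediateField.adjoin ℂ {t} = ⊤ := by
  have ht0 : t ≠ 0 := by
    rintro rfl
    exact ht OP.zero_mem
  have uniq' : ∀ O : ValuationSubring K, HasC O → O ≠ OP → t ∈ O := by
    intro O hO hne
    by_contra h
    exact hne (uniq O hO h)
  rw [eq_top_iff]
  intro x _
  have h1 : IsAlgebraic (Algebra.adjoin ℂ {t}) x :=
    IntermediateField.isAlgebraic_adjoin_iff.1 (alg x)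
  obtain ⟨q, hq, hint⟩ := h1.exists_integral_multiple
  have hq0 : (q : K) ≠ 0 := fun h => hq (Subtype.ext h)
  have hqx : (q : K) * x ∈ Algebra.adjoin ℂ {t} := by
    obtain ⟨n, hn⟩ := arch ((q : K) * x)
    refine ratb_claim OP t ht0 res uniq' n _ (fun O hO hne => ?_) hn
    have h2 : IsIntegral (Algebra.adjoin ℂ {t}).toSubring ((q : K) * x) := hint
    refine (integral_iff_val (Algebra.adjoin ℂ {t}).toSubring _).1 h2 O fun r hr => ?_
    have hr' : r ∈ Algebra.adjoin ℂ {t} := hr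
    induction hr' using Algebra.adjoin_induction with
    | mem y hy =>
      rw [Set.mem_singleton_iff.1 hy]
      exact uniq' O hO hne
    | algebraMap c => exact hO c
    | add a b ha hb iha ihb => exact O.add_mem _ _ (iha ha) (ihb hb)
    | mul a b ha hb iha ihb => exact O.mul_mem _ _ (iha ha) (ihb hb)
  have hle := IntermediateField.algebra_adjoin_le_adjoin ℂ {t}
  have h3 : x = ((q : K) * x) / (q : K) := by
    field_simp
  rw [h3]
  exact div_mem (hle hqx) (hle q.2)

end Pool.Agent.OSP
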