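import Pool.Agent.OSP.RatF
import Pool.Agent.OSP.RatB

/-!
# OSP-RatC: if the genus is zero then the function field is rational

(i) There is a valuation subring `O`, `HasC O`, `O ≠ ⊤`, not containing `R1`: otherwise every valuation subring containing
the constants contains `R1` (`⊤` does), so `R1 ⊆ ℂ` (`mem_of_all`), and `K = ℂ` by `h1.frac`, contradiction to `hK`. By
`hval` `R0 ≤ O`. `val_loc`: `O = B0_P`. (ii) `exists_pole`: `f`. (iii) `hsp`: `f = a0 + a1`; `t := a1`. `t ∉ O` (`a0 ∈ O` as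
`a0` is integral over `R0`, `integral_iff_val`), `b t = b f - b a0 ∈ O` for `b ∈ P`. (iv) `uniq`: let `HasC O'`, `t ∉ O'`. `t` is
integral over `R1`, so `R1 ≰ O'`, so `R0 ≤ O'` (`hval`); if `O' ≠ O` then `f ∈ O'`, `a0 ∈ O'`, so `t ∈ O'`: contradiction.
(v) `res`: `y ∈ O`, `y s = a` with `s ∉ P`. `CurveAlg.residue` and `P` maximal: there is `c : ℂ` with
`a - c s ∈ P`: (choose `c1`, `c2` with `a - c1 ∈ P`, `s - c2 ∈ P`, `c2 ≠ 0`, `c = c1/c2`). `(y - c) t = (a - c s) t / s`, `(a - c s) t ∈ O`,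
`s⁻¹ ∈ O`. (vi) `arch`: `t⁻¹` is in the maximal ideal of `O` (as `t ∉ O`), and it generates it: for `y ∈ O` a nonunit,
`y = a/s` with `a ∈ P`, so `y t ∈ O`. `O` is noetherian (localisation of `B0`) so `⋂ (t⁻¹)^n O = 0`; or use
`DVR`: if `x (t⁻¹)^n ∉ O` for all `n` then `x⁻¹ t^n ∈ O` for all `n`: `x⁻¹ ∈ ⋂ (t⁻¹)^n O`; as `x⁻¹ = a/s`, `a ∈ ⋂ P^n` (show by
induction: `a ∈ P^n`-part) and `⋂ P^n = 0` in the noetherian domain `B0` (`Ideal.iInf_pow_eq_bot_of_isDomain`).
(vii) `alg`: `CurveAlg.alg` for `R0` and `t ∉ ℂ` (`t ∉ O`). `rational_of_pole`.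
-/

namespace Pool.Agent.OSP

variable {K : Type} [Field K] [Algebra ℂ K]

/-- integral elements lie in the valuation subrings containing the coordinate ring -/
private lemma int_mem (R : Subalgebra ℂ K) (O : ValuationSubring K) (h : ∀ r ∈ R, r ∈ O) (x : K)
    (hx : IsIntegral R x) : x ∈ O := by
  obtain ⟨p, hp, he⟩ := hx
  let φ : R →+* O :=
    { toFun := fun r => ⟨(r : K), h r r.2⟩
      map_one' := rfl
      map_zero' := rfl
      map_mul' := fun _ _ => rfl
      map_add' := fun _ _ => rfl }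
  have hO : IsIntegral O x := by
    refine ⟨p.map φ, hp.map φ, ?_⟩
    rw [Polynomial.eval₂_map]
    exact he
  obtain ⟨y, hy⟩ := (IsIntegrallyClosed.isIntegral_iff (R := O) (K := K)).1 hO
  rw [← hy]
  exact y.2

private lemma pow_mem_of {B : Type} [CommRing B] (P : Ideal B) (hP : P.IsMaximal) (n : ℕ) (a σ : B)
    (hσ : σ ∉ P) (h : a * σ ∈ P ^ n) : a ∈ P ^ n := by
  have h1 : Ideal.span {σ} ⊔ P = ⊤ := by
    apply hP.out.2
    exact lt_of_le_of_ne le_sup_right (by
      intro h2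
      apply hσ
      have h3 : σ ∈ Ideal.span {σ} ⊔ P := Ideal.mem_sup_left (Ideal.mem_span_singleton_self σ)
      rw [← h2] at h3
      exact h3)
  have h2 : Ideal.span {σ} ⊔ P ^ n = ⊤ := Ideal.sup_pow_eq_top h1
  have h3 : (1 : B) ∈ Ideal.span {σ} ⊔ P ^ n := by rw [h2]; exact Submodule.mem_top
  obtain ⟨u, hu, v, hv, huv⟩ := Submodule.mem_sup.1 h3
  obtain ⟨w, rfl⟩ := Ideal.mem_span_singleton'.1 hu
  have h4 : a = w * (a * σ) + a * v := by
    calc a = a * 1 := (mul_one a).symm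
      _ = a * (w * σ + v) := by rw [huv]
      _ = w * (a * σ) + a * v := by ring
  rw [h4]
  exact Ideal.add_mem _ (Ideal.mul_mem_left _ _ h) (Ideal.mul_mem_left _ _ hv)

theorem rational_of_split (R0 R1 R01 : Subalgebra ℂ K) (h0 : CurveAlg R0) (h1 : CurveAlg R1)
    (h01 : CurveAlg R01) (le0 : R0 ≤ R01) (le1 : R1 ≤ R01)
    (hval : ∀ O : ValuationSubring K, HasC O → (∀ r ∈ R0, r ∈ O) ∨ (∀ r ∈ R1, r ∈ O))
    (hsp : ∀ r ∈ R01, ∃ a0 a1 : K, IsIntegral R0 a0 ∧ IsIntegral R1 a1 ∧ r = a0 + a1)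
    (hK : ∃ x : K, x ∉ (algebraMap ℂ K).range) :
    ∃ t : K, t ∉ (algebraMap ℂ K).range ∧ IntermediateField.adjoin ℂ {t} = ⊤ := by
  -- (i)
  obtain ⟨O, hC, hne, hR1⟩ : ∃ O : ValuationSubring K, HasC O ∧ O ≠ ⊤ ∧ ¬ ∀ r ∈ R1, r ∈ O := by
    by_contra hcon
    push Not at hcon
    have h2 : ∀ O : ValuationSubring K, HasC O → ∀ r ∈ R1, r ∈ O := by
      intro O hC r hr
      by_cases hne : O = ⊤
      · rw [hne]
        exact ValuationSubring.mem_top r
      · exact hcon O hC hne r hr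
    have h3 : ∀ r ∈ R1, r ∈ (algebraMap ℂ K).range := fun r hr =>
      mem_of_all r (fun O hC => h2 O hC r hr)
    obtain ⟨x, hx⟩ := hK
    apply hx
    obtain ⟨a, ha, b, hb, hb0, hab⟩ := h1.frac x
    obtain ⟨c1, hc1⟩ := h3 a ha
    obtain ⟨c2, hc2⟩ := h3 b hb
    refine ⟨c1 / c2, ?_⟩
    rw [map_div₀, hc1, hc2, ← hab]
    exact mul_div_cancel_right₀ x hb0
  have hR0 : ∀ r ∈ R0, r ∈ O := (hval O hC).resolve_right hR1
  obtain ⟨P, hPm, hP0, hloc⟩ := val_loc h0 O hR0 hne
  -- (ii)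
  obtain ⟨f, hf01, hfO, hfP, hfO'⟩ := exists_pole R0 R1 R01 h0 h01 le0 le1 P hPm hP0 O hloc hR1
  -- (iii)
  obtain ⟨a0, t, ha0, ht1, hft⟩ := hsp f hf01
  have ha0O : a0 ∈ O := int_mem R0 O hR0 a0 ha0
  have htO : t ∉ O := by
    intro h
    apply hfO
    rw [hft]
    exact O.add_mem _ _ ha0O h
  have ht0 : t ≠ 0 := by
    rintro rfl
    exact htO O.zero_mem
  have hBO : ∀ b : integralClosure R0 K, (b : K) ∈ O := fun b => int_mem R0 O hR0 b b.2
  have htP : ∀ b : integralClosure R0 K, b ∈ P → (b : K) * t ∈ O := by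
    intro b hb
    have h2 : (b : K) * t = (b : K) * f - (b : K) * a0 := by
      rw [hft]
      ring
    rw [h2]
    exact sub_mem (hfP b hb) (O.mul_mem _ _ (hBO b) ha0O)
  have htC : t ∉ (algebraMap ℂ K).range := by
    rintro ⟨c, rfl⟩
    exact htO (hC c)
  -- inverses of elements outside `P`
  have hinv : ∀ s : integralClosure R0 K, s ∉ P → ((s : K))⁻¹ ∈ O := by
    intro s hs
    rw [hloc]
    refine ⟨1, s, hs, ?_⟩
    have hs0 : (s : K) ≠ 0 := by
      intro h
      apply hs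
      have h2 : s = 0 := Subtype.ext h
      rw [h2]
      exact P.zero_mem
    rw [inv_mul_cancel₀ hs0]
    rfl
  refine ⟨t, htC, rational_of_pole O hC t htO ?_ ?_ ?_ (fun x => CurveAlg.alg h0 t htC x)⟩
  · -- (v)
    intro y hy
    obtain ⟨a, s, hs, hys⟩ := (hloc y).1 hy
    obtain ⟨c1, hc1⟩ := CurveAlg.residue h0 P hPm a
    obtain ⟨c2, hc2⟩ := CurveAlg.residue h0 P hPm s
    have hc20 : c2 ≠ 0 := by
      rintro rfl
      rw [map_zero, sub_zero] at hc2
      exact hs hc2
    refine ⟨c1 / c2, ?_⟩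
    have hm : a - algebraMap ℂ (integralClosure R0 K) (c1 / c2) * s ∈ P := by
      have h2 : a - algebraMap ℂ (integralClosure R0 K) (c1 / c2) * s =
          (a - algebraMap ℂ (integralClosure R0 K) c1) -
          algebraMap ℂ (integralClosure R0 K) (c1 / c2) *
            (s - algebraMap ℂ (integralClosure R0 K) c2) := by
        have h3 : algebraMap ℂ (integralClosure R0 K) c1 =
            algebraMap ℂ (integralClosure R0 K) (c1 / c2) *
              algebraMap ℂ (integralClosure R0 K) c2 := by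
          rw [← map_mul, div_mul_cancel₀ c1 hc20]
        rw [h3]
        ring
      rw [h2]
      exact P.sub_mem hc1 (P.mul_mem_left _ hc2)
    have h2 := htP _ hm
    have h3 := O.mul_mem _ _ h2 (hinv s hs)
    have hs0 : (s : K) ≠ 0 := by
      intro h
      apply hs
      have h2 : s = 0 := Subtype.ext h
      rw [h2]
      exact P.zero_mem
    have h4 : ((a - algebraMap ℂ (integralClosure R0 K) (c1 / c2) * s : integralClosure R0 K) : K)
        = (y - algebraMap ℂ K (c1 / c2)) * (s : K) := by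
      have h5 : ((a - algebraMap ℂ (integralClosure R0 K) (c1 / c2) * s : integralClosure R0 K) : K)
        = (a : K) - algebraMap ℂ K (c1 / c2) * (s : K) := rfl
      rw [h5, ← hys]
      ring
    have h5 : (y - algebraMap ℂ K (c1 / c2)) * t =
        ((a - algebraMap ℂ (integralClosure R0 K) (c1 / c2) * s : integralClosure R0 K) : K) * t *
          ((s : K))⁻¹ := by
      rw [h4]
      field_simp
    rw [h5]
    exact h3
  · -- (iv)
    intro O' hC' htO'
    by_contra hne'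
    have h2 : ¬ ∀ r ∈ R1, r ∈ O' := fun h => htO' (int_mem R1 O' h t ht1)
    have h3 : ∀ r ∈ R0, r ∈ O' := (hval O' hC').resolve_right h2
    have h4 := hfO' O' h3 hne'
    have h5 : t = f - a0 := by
      rw [hft]
      ring
    apply htO'
    rw [h5]
    exact sub_mem h4 (int_mem R0 O' h3 a0 ha0)
  · -- (vi)
    intro x
    by_contra hcon
    push Not at hcon
    have hx0 : x ≠ 0 := by
      rintro rfl
      apply hcon 0
      rw [zero_mul]
      exact O.zero_mem
    obtain ⟨hded, _, _⟩ := CurveAlg.ded h0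
    -- `t⁻¹ = p / s1`
    have htinv : t⁻¹ ∈ O := (O.mem_or_inv_mem t).resolve_left htO
    obtain ⟨p, s1, hs1, hps1⟩ := (hloc _).1 htinv
    have hpP : p ∈ P := by
      by_contra hp
      apply htO
      have h2 : t = (s1 : K) * ((p : K))⁻¹ := by
        rw [← hps1, mul_inv, inv_inv]
        have hs10 : (s1 : K) ≠ 0 := by
          intro h
          apply hs1
          have h2 : s1 = 0 := Subtype.ext h
          rw [h2]
          exact P.zero_mem
        field_simp
      rw [h2]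
      exact O.mul_mem _ _ (hBO s1) (hinv p hp)
    -- `x⁻¹ = a / s`
    have hxinv : ∀ n : ℕ, x⁻¹ * t ^ n ∈ O := by
      intro n
      have h2 := (O.mem_or_inv_mem (x * (t⁻¹) ^ n)).resolve_left (hcon n)
      rw [mul_inv, inv_pow, inv_inv] at h2
      exact h2
    obtain ⟨a, s, hs, has⟩ := (hloc _).1 (by simpa using hxinv 0)
    have ha : ∀ n : ℕ, a ∈ P ^ n := by
      intro n
      obtain ⟨b, s2, hs2, hbs2⟩ := (hloc _).1 (hxinv n)
      have hσ : s1 ^ n * s2 ∉ P := by
        intro h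
        rcases hPm.isPrime.mem_or_mem h with h2 | h2
        · exact hs1 (hPm.isPrime.mem_of_pow_mem n h2)
        · exact hs2 h2
      apply pow_mem_of P hPm n a (s1 ^ n * s2) hσ
      have h2 : a * (s1 ^ n * s2) = p ^ n * (b * s) := by
        apply Subtype.ext
        show (a : K) * ((s1 : K) ^ n * (s2 : K)) = (p : K) ^ n * ((b : K) * (s : K))
        rw [← has, ← hps1, ← hbs2, mul_pow, inv_pow]
        have htn : t ^ n ≠ 0 := pow_ne_zero n ht0
        field_simp
      rw [h2]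
      exact Ideal.mul_mem_right _ _ (Ideal.pow_mem_pow hpP n)
    have h2 : a ∈ ⨅ n : ℕ, P ^ n := by
      rw [Submodule.mem_iInf]
      exact ha
    rw [Ideal.iInf_pow_eq_bot_of_isDomain P hPm.ne_top] at h2
    have ha0 : a = 0 := h2
    rw [ha0] at has
    have hs0 : (s : K) ≠ 0 := by
      intro h
      apply hs
      have h2 : s = 0 := Subtype.ext h
      rw [h2]
      exact P.zero_mem
    rcases mul_eq_zero.1 has with h3 | h3
    · exact inv_ne_zero hx0 h3
    · exact hs0 h3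

end Pool.Agent.OSP
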