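import Pool.Agent.OSP.GVal
import Pool.Agent.OSP.GCrv
import Pool.Agent.OSP.RatC
import Pool.Agent.OSP.Defs
import Pool.Agent.BE.Aff

/-!
# OSP-GRat: a curve whose normalisation has genus zero has a rational function field
-/

open CategoryTheory CategoryTheory.Limits AlgebraicGeometry Opposite TopologicalSpace

namespace Pool.Agent.OSP

open Pool.Agent.BE

variable {S : Scheme.{0}}

theorem rational_of_not_pos (sS : S ⟶ SpecC) (hS : IsProj sS) [IsIntegral S]
    (hd : topologicalKrullDim S = 2) (d : S) (hη : d ≠ genericPoint S)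
    (hc : ¬ IsClosed ({d} : Set S)) (h : ¬ PosPt d) :
    letI := kAlg sS d
    ∃ t : S.residueField d, t ∉ (algebraMap ℂ (S.residueField d)).range ∧
      IntermediateField.adjoin ℂ {t} = ⊤ := by
  letI := kAlg sS d
  have hprop : IsProper sS := proper_of_proj sS hS
  have hsep : S.IsSeparated := sep_of_proj sS hS
  unfold PosPt at h
  push Not at h
  obtain ⟨W0, W1, h0, h1, hcov, hg⟩ := h
  have hW : IsAffineOpen (W0.1 ⊓ W1.1) := affInc_of_affine W1 W0
  have h01 : d ∈ W0.1 ⊓ W1.1 := ⟨h0, h1⟩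
  refine rational_of_split (evAlg sS d W0.1 h0) (evAlg sS d W1.1 h1)
    (evAlg sS d (W0.1 ⊓ W1.1) h01) (curveAlg_evAlg sS hd d hη W0.1 W0.2 h0)
    (curveAlg_evAlg sS hd d hη W1.1 W1.2 h1) (curveAlg_evAlg sS hd d hη _ hW h01)
    ?_ ?_ ?_ ?_ (exists_nonconst sS d hc)
  · rintro _ ⟨a, rfl⟩
    exact ⟨rst inf_le_left a, ev_rst _ _ _ _⟩
  · rintro _ ⟨a, rfl⟩
    exact ⟨rst inf_le_right a, ev_rst _ _ _ _⟩
  · intro O hO
    obtain ⟨s, hs, hU⟩ := val_center sS d O hO
    rcases hcov s hs with h2 | h2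
    · left
      rintro _ ⟨a, rfl⟩
      exact hU W0 h2 h0 a
    · right
      rintro _ ⟨a, rfl⟩
      exact hU W1 h2 h1 a
  · rintro _ ⟨g, rfl⟩
    obtain ⟨a0, a1, i0, i1, he⟩ := hg g
    exact ⟨a0, a1, i0, i1, he⟩

end Pool.Agent.OSP
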