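import Pool.Agent.OSP.GDef
import Pool.Agent.BE.ValA
import Pool.Agent.BE.GeoB
import Pool.Agent.BE.Loc

/-!
# OSP-GVal: centres of valuations of residue fields; constants and morphisms
-/

open CategoryTheory CategoryTheory.Limits AlgebraicGeometry Opposite TopologicalSpace

namespace Pool.Agent.OSP

open Pool.Agent.BE

variable {S : Scheme.{0}}

theorem cK_comp {X : Scheme.{0}} (π : X ⟶ S) (sS : S ⟶ SpecC) (x : X) (c : ℂ) :
    (π.residueFieldMap x).hom (cK sS (π.base x) c) = cK (π ≫ sS) x c := by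
  have h1 := Scheme.evaluation_naturality_apply π (V := ⊤) x trivial (cT sS c)
  exact h1

private lemma gval_fromSpec {X : Scheme.{0}} {V : X.Opens} (hV : IsAffineOpen V) (x : X)
    (hx : x ∈ V) :
    X.fromSpecResidueField x = Spec.map (X.evaluation V x hx) ≫ hV.fromSpec := by
  rw [Scheme.fromSpecResidueField, ← hV.fromSpecStalk_eq_fromSpecStalk hx,
    IsAffineOpen.fromSpecStalk, ← Scheme.germ_residue, Spec.map_comp, Category.assoc]

/-- a morphism `Spec O → S` extending `Spec κ(d) → S`, and an affine open containing the image of the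
closed point -/
theorem val_factor (d : S) (O : ValuationSubring (S.residueField d)) (l : Spec (.of O) ⟶ S)
    (hl₁ : Spec.map (CommRingCat.ofHom (algebraMap O (S.residueField d))) ≫ l =
      S.fromSpecResidueField d) (U : S.Opens) (hU : IsAffineOpen U)
    (hsU : l (IsLocalRing.closedPoint O) ∈ U) (hzU : d ∈ U) (a : Γ(S, U)) :
    ev d hzU a ∈ O := by
  have hl : l = Spec.map (S.presheaf.germ U _ hsU ≫ Scheme.stalkClosedPointTo l) ≫
      hU.fromSpec := by
    conv_lhs => rw [← Scheme.Spec_stalkClosedPointTo_fromSpecStalk l]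
    rw [← hU.fromSpecStalk_eq_fromSpecStalk hsU, IsAffineOpen.fromSpecStalk, Spec.map_comp,
      Category.assoc]
  have key : S.evaluation U d hzU = (S.presheaf.germ U _ hsU ≫ Scheme.stalkClosedPointTo l) ≫
      CommRingCat.ofHom (algebraMap O (S.residueField d)) := by
    apply Spec.map_injective
    rw [← cancel_mono hU.fromSpec, ← gval_fromSpec hU d hzU, ← hl₁, Spec.map_comp,
      Category.assoc, ← hl]
  change (S.evaluation U d hzU).hom a ∈ O
  rw [key]
  exact Subtype.property _

private theorem val_aux {C : Scheme.{0}} (p : S ⟶ C) [IsProper p] (C0 : C.Opens)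
    (h0 : IsAffineOpen C0) (z : S) (hz : z ∈ p ⁻¹ᵁ C0) (O : ValuationSubring (S.residueField z))
    (hO : ∀ a : Γ(C, C0), ev (U := p ⁻¹ᵁ C0) z hz ((p.app C0).hom a) ∈ O) :
    ∃ l : Spec (.of O) ⟶ S,
      Spec.map (CommRingCat.ofHom (algebraMap O (S.residueField z))) ≫ l =
        S.fromSpecResidueField z := by
  let ψ : Γ(C, C0) →+* O := RingHom.codRestrict
    ((ev (U := p ⁻¹ᵁ C0) z hz).comp (p.app C0).hom) O.toSubring hO
  let i₂ : Spec (.of O) ⟶ C := Spec.map (CommRingCat.ofHom ψ) ≫ h0.fromSpec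
  have hψ : CommRingCat.ofHom ψ ≫ CommRingCat.ofHom (algebraMap O (S.residueField z)) =
      p.app C0 ≫ S.evaluation (p ⁻¹ᵁ C0) z hz := by
    ext a
    rfl
  have w : S.fromSpecResidueField z ≫ p =
      Spec.map (CommRingCat.ofHom (algebraMap O (S.residueField z))) ≫ i₂ := by
    rw [← Scheme.Hom.SpecMap_residueFieldMap_fromSpecResidueField,
      gval_fromSpec h0 (p z) hz, ← Spec.map_comp_assoc, Scheme.evaluation_naturality]
    change _ = Spec.map (CommRingCat.ofHom (algebraMap O (S.residueField z))) ≫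
      Spec.map (CommRingCat.ofHom ψ) ≫ h0.fromSpec
    rw [← Spec.map_comp_assoc, hψ]
  have hex : ValuativeCriterion.Existence p := by
    have h1 : UniversallyClosed p := inferInstance
    rw [UniversallyClosed.eq_valuativeCriterion] at h1
    exact h1.1
  obtain ⟨l, hl₁, hl₂⟩ :=
    (hex { R := O, K := S.residueField z, commSq := ⟨w⟩, .. }).exists_lift
  exact ⟨l, hl₁⟩

theorem val_center (sS : S ⟶ SpecC) [IsProper sS] (d : S)
    (O : ValuationSubring (S.residueField d)) (hO : ∀ c : ℂ, cK sS d c ∈ O) :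
    ∃ s : S, d ⤳ s ∧ ∀ (U : Aff S) (_ : s ∈ U.1) (hd : d ∈ U.1) (a : Γ(S, U.1)),
      ev d hd a ∈ O := by
  obtain ⟨l, hl₁⟩ := val_aux sS ⊤ (isAffineOpen_top SpecC) d trivial O (fun a => by
    have h1 : a = (Scheme.ΓSpecIso (CommRingCat.of ℂ)).inv.hom
        ((Scheme.ΓSpecIso (CommRingCat.of ℂ)).hom.hom a) := by
      have := congrArg (fun t => t.hom a) (Scheme.ΓSpecIso (CommRingCat.of ℂ)).hom_inv_id
      exact this.symm
    rw [h1]
    exact hO _)
  refine ⟨l (IsLocalRing.closedPoint O), ?_, fun U hs hd a => val_factor d O l hl₁ U.1 U.2 hs hd a⟩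
  have h1 : S.fromSpecResidueField d (IsLocalRing.closedPoint (S.residueField d)) = d :=
    Scheme.fromSpecResidueField_apply _ _
  rw [← hl₁] at h1
  have h2 : (Spec.map (CommRingCat.ofHom (algebraMap O (S.residueField d))))
      (IsLocalRing.closedPoint (S.residueField d)) ⤳ IsLocalRing.closedPoint O :=
    IsLocalRing.specializes_closedPoint _
  have h3 := h2.map l.continuous
  have h4 : l ((Spec.map (CommRingCat.ofHom (algebraMap O (S.residueField d))))
      (IsLocalRing.closedPoint (S.residueField d))) = d := h1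
  rw [h4] at h3
  exact h3

end Pool.Agent.OSP
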