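import Mathlib

/-!
# OSP-MVt: the formal part of the Mayer-Vietoris argument, in a triangulated category
-/

open CategoryTheory CategoryTheory.Limits CategoryTheory.Pretriangulated

namespace Pool.Agent.OSP

universe v u

variable {D : Type u} [Category.{v} D] [Preadditive D] [HasZeroObject D] [HasShift D ℤ]
  [∀ n : ℤ, (shiftFunctor D n).Additive] [Pretriangulated D] [HasBinaryBiproducts D]

/-- the splitting condition -/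
def Spl {D : Type u} [Category.{v} D] [Preadditive D] {D0 D1 D01 : D ⥤ D} (ι0 : 𝟭 D ⟶ D0)
    (ι1 : 𝟭 D ⟶ D1) (ρ0 : D0 ⟶ D01) (ρ1 : D1 ⟶ D01) (μ : D01 ⟶ D01) (X : D) : Prop :=
  ∃ (a0 : X ⟶ D0.obj X) (a1 : X ⟶ D1.obj X),
    a0 ≫ ρ0.app X - a1 ≫ ρ1.app X = ι0.app X ≫ ρ0.app X ≫ μ.app X

private theorem pa_nat {D0 D1 D01 : D ⥤ D} [D01.Additive] (ι0 : 𝟭 D ⟶ D0)
    (ι1 : 𝟭 D ⟶ D1) (ρ0 : D0 ⟶ D01) (ρ1 : D1 ⟶ D01)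
    (i0 : ∀ X, IsIso (D01.map (ρ0.app X))) (iι : ∀ X, IsIso ((ι0 ≫ ρ0).app (D01.obj X)))
    {X Y : D} (u : X ⟶ Y) (dX : D01.obj X ⟶ X⟦(1 : ℤ)⟧) (dY : D01.obj Y ⟶ Y⟦(1 : ℤ)⟧)
    (hX : Triangle.mk (biprod.lift (ι0.app X) (ι1.app X) : X ⟶ D0.obj X ⊞ D1.obj X)
        (biprod.desc (ρ0.app X) (-ρ1.app X)) dX ∈ distTriang D)
    (hY : Triangle.mk (biprod.lift (ι0.app Y) (ι1.app Y) : Y ⟶ D0.obj Y ⊞ D1.obj Y)
        (biprod.desc (ρ0.app Y) (-ρ1.app Y)) dY ∈ distTriang D) :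
    D01.map u ≫ dY = dX ≫ u⟦(1 : ℤ)⟧' := by
  obtain ⟨c, hc1, hc2⟩ : ∃ c : D01.obj X ⟶ D01.obj Y,
      (biprod.desc (ρ0.app X) (-ρ1.app X) : D0.obj X ⊞ D1.obj X ⟶ D01.obj X) ≫ c =
        biprod.map (D0.map u) (D1.map u) ≫ biprod.desc (ρ0.app Y) (-ρ1.app Y) ∧
      dX ≫ u⟦(1 : ℤ)⟧' = c ≫ dY := by
    refine complete_distinguished_triangle_morphism _ _ hX hY u
      (biprod.map (D0.map u) (D1.map u)) ?_
    show biprod.lift (ι0.app X) (ι1.app X) ≫ biprod.map (D0.map u) (D1.map u) =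
      u ≫ biprod.lift (ι0.app Y) (ι1.app Y)
    apply biprod.hom_ext
    · rw [Category.assoc, biprod.map_fst, biprod.lift_fst_assoc, Category.assoc, biprod.lift_fst]
      exact (ι0.naturality u).symm
    · rw [Category.assoc, biprod.map_snd, biprod.lift_snd_assoc, Category.assoc, biprod.lift_snd]
      exact (ι1.naturality u).symm
  have h1 : ρ0.app X ≫ c = ρ0.app X ≫ D01.map u := by
    have h2 := congrArg (fun z => biprod.inl ≫ z) hc1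
    simp only [biprod.inl_desc_assoc, biprod.inl_map_assoc, biprod.inl_desc] at h2
    rw [h2]
    exact ρ0.naturality u
  have h3 : ρ0.app X ≫ (c - D01.map u) = 0 := by
    rw [Preadditive.comp_sub, h1, sub_self]
  have h4 : D01.map (ρ0.app X) ≫ D01.map (c - D01.map u) = 0 := by
    rw [← D01.map_comp, h3, D01.map_zero]
  have h5 : D01.map (c - D01.map u) = 0 := by
    have := i0 X
    rw [← cancel_epi (D01.map (ρ0.app X)), h4, comp_zero]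
  have h6 : (c - D01.map u) ≫ (ι0 ≫ ρ0).app (D01.obj Y) = 0 := by
    have h7 : (c - D01.map u) ≫ (ι0 ≫ ρ0).app (D01.obj Y) =
        (ι0 ≫ ρ0).app (D01.obj X) ≫ D01.map (c - D01.map u) := (ι0 ≫ ρ0).naturality (c - D01.map u)
    rw [h7, h5, comp_zero]
  have h8 : c - D01.map u = 0 := by
    have := iι Y
    rw [← cancel_mono ((ι0 ≫ ρ0).app (D01.obj Y)), h6, zero_comp]
  rw [hc2, sub_eq_zero.1 h8]

private theorem pb_iff {D0 D1 D01 : D ⥤ D} (ι0 : 𝟭 D ⟶ D0)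
    (ι1 : 𝟭 D ⟶ D1) (ρ0 : D0 ⟶ D01) (ρ1 : D1 ⟶ D01) (μ : D01 ⟶ D01)
    {X : D} (dX : D01.obj X ⟶ X⟦(1 : ℤ)⟧)
    (hX : Triangle.mk (biprod.lift (ι0.app X) (ι1.app X) : X ⟶ D0.obj X ⊞ D1.obj X)
        (biprod.desc (ρ0.app X) (-ρ1.app X)) dX ∈ distTriang D) :
    Spl ι0 ι1 ρ0 ρ1 μ X ↔ (ι0.app X ≫ ρ0.app X ≫ μ.app X) ≫ dX = 0 := by
  constructor
  · rintro ⟨a0, a1, h⟩
    rw [← h]
    have h1 : (biprod.desc (ρ0.app X) (-ρ1.app X) : D0.obj X ⊞ D1.obj X ⟶ D01.obj X) ≫ dX = 0 :=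
      comp_distTriang_mor_zero₂₃ _ hX
    have h2 : a0 ≫ ρ0.app X - a1 ≫ ρ1.app X =
        biprod.lift a0 a1 ≫ (biprod.desc (ρ0.app X) (-ρ1.app X) : D0.obj X ⊞ D1.obj X ⟶ D01.obj X) := by
      rw [biprod.lift_desc, Preadditive.comp_neg, sub_eq_add_neg]
    rw [h2, Category.assoc, h1, comp_zero]
  · intro h
    obtain ⟨a, ha⟩ : ∃ a : (𝟭 D).obj X ⟶ D0.obj X ⊞ D1.obj X,
        ι0.app X ≫ ρ0.app X ≫ μ.app X = a ≫ biprod.desc (ρ0.app X) (-ρ1.app X) :=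
      Triangle.coyoneda_exact₃ _ hX (ι0.app X ≫ ρ0.app X ≫ μ.app X) h
    refine ⟨a ≫ biprod.fst, a ≫ biprod.snd, ?_⟩
    rw [ha]
    have h2 : a = biprod.lift (a ≫ biprod.fst) (a ≫ biprod.snd) := by
      apply biprod.hom_ext
      · rw [biprod.lift_fst]
      · rw [biprod.lift_snd]
    have h3 : a ≫ (biprod.desc (ρ0.app X) (-ρ1.app X) : D0.obj X ⊞ D1.obj X ⟶ D01.obj X) =
        (a ≫ biprod.fst) ≫ ρ0.app X + (a ≫ biprod.snd) ≫ (-ρ1.app X) := by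
      rw [← biprod.lift_desc, ← h2]
    rw [h3, Preadditive.comp_neg, ← sub_eq_add_neg]

theorem mv_split {D0 D1 D01 : D ⥤ D} [D01.Additive] (ι0 : 𝟭 D ⟶ D0)
    (ι1 : 𝟭 D ⟶ D1) (ρ0 : D0 ⟶ D01) (ρ1 : D1 ⟶ D01) (w : ι0 ≫ ρ0 = ι1 ≫ ρ1) (μ : D01 ⟶ D01)
    (i0 : ∀ X, IsIso (D01.map (ρ0.app X))) (iι : ∀ X, IsIso ((ι0 ≫ ρ0).app (D01.obj X)))
    (G : ObjectProperty D)
    (hG : ∀ X, G X → ∃ d : D01.obj X ⟶ X⟦(1 : ℤ)⟧,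
      Triangle.mk (biprod.lift (ι0.app X) (ι1.app X) : X ⟶ D0.obj X ⊞ D1.obj X)
        (biprod.desc (ρ0.app X) (-ρ1.app X)) d ∈ distTriang D)
    (X M Z : D) (f : X ⟶ M) (g : M ⟶ Z) (h : Z ⟶ X⟦(1 : ℤ)⟧)
    (hT : Triangle.mk f g h ∈ distTriang D) (gX : G X) (gM : G M) (gZ : G Z)
    (h0 : ∀ u : X ⟶ Z, u = 0) (hM : Spl ι0 ι1 ρ0 ρ1 μ M) :
    Spl ι0 ι1 ρ0 ρ1 μ X ∧ Spl ι0 ι1 ρ0 ρ1 μ Z := by
  obtain ⟨dX, hX⟩ := hG X gX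
  obtain ⟨dM, hMt⟩ := hG M gM
  obtain ⟨dZ, hZ⟩ := hG Z gZ
  have hM0 := (pb_iff ι0 ι1 ρ0 ρ1 μ dM hMt).1 hM
  have key : ∀ {X Y : D} (u : X ⟶ Y) (dX : D01.obj X ⟶ X⟦(1 : ℤ)⟧) (dY : D01.obj Y ⟶ Y⟦(1 : ℤ)⟧)
      (_ : Triangle.mk (biprod.lift (ι0.app X) (ι1.app X) : X ⟶ D0.obj X ⊞ D1.obj X)
        (biprod.desc (ρ0.app X) (-ρ1.app X)) dX ∈ distTriang D)
      (_ : Triangle.mk (biprod.lift (ι0.app Y) (ι1.app Y) : Y ⟶ D0.obj Y ⊞ D1.obj Y)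
        (biprod.desc (ρ0.app Y) (-ρ1.app Y)) dY ∈ distTriang D),
      u ≫ (ι0.app Y ≫ ρ0.app Y ≫ μ.app Y) ≫ dY = ((ι0.app X ≫ ρ0.app X ≫ μ.app X) ≫ dX) ≫ u⟦(1 : ℤ)⟧' := by
    intro X Y u dX dY hX hY
    have h1 := pa_nat ι0 ι1 ρ0 ρ1 i0 iι u dX dY hX hY
    have h2 : u ≫ ι0.app Y = ι0.app X ≫ D0.map u := ι0.naturality u
    have h3 : D0.map u ≫ ρ0.app Y = ρ0.app X ≫ D01.map u := ρ0.naturality u
    have h4 : D01.map u ≫ μ.app Y = μ.app X ≫ D01.map u := μ.naturality u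
    calc u ≫ (ι0.app Y ≫ ρ0.app Y ≫ μ.app Y) ≫ dY
        = (u ≫ ι0.app Y) ≫ ρ0.app Y ≫ μ.app Y ≫ dY := by simp only [Category.assoc]
      _ = ι0.app X ≫ (D0.map u ≫ ρ0.app Y) ≫ μ.app Y ≫ dY := by rw [h2]; simp only [Category.assoc]
      _ = ι0.app X ≫ ρ0.app X ≫ (D01.map u ≫ μ.app Y) ≫ dY := by rw [h3]; simp only [Category.assoc]
      _ = ι0.app X ≫ ρ0.app X ≫ μ.app X ≫ (D01.map u ≫ dY) := by rw [h4]; simp only [Category.assoc]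
      _ = ((ι0.app X ≫ ρ0.app X ≫ μ.app X) ≫ dX) ≫ u⟦(1 : ℤ)⟧' := by rw [h1]; simp only [Category.assoc]
  have hf := key f dX dM hX hMt
  have hg := key g dM dZ hMt hZ
  rw [hM0, comp_zero] at hf
  rw [hM0, zero_comp] at hg
  constructor
  · rw [pb_iff ι0 ι1 ρ0 ρ1 μ dX hX]
    obtain ⟨v, hv⟩ : ∃ v : X ⟶ Z, (ι0.app X ≫ ρ0.app X ≫ μ.app X) ≫ dX = v ≫ h :=
      Triangle.coyoneda_exact₁ _ hT ((ι0.app X ≫ ρ0.app X ≫ μ.app X) ≫ dX) hf.symm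
    rw [hv, h0 v, zero_comp]
  · rw [pb_iff ι0 ι1 ρ0 ρ1 μ dZ hZ]
    obtain ⟨w', hw⟩ : ∃ w' : X⟦(1 : ℤ)⟧ ⟶ Z⟦(1 : ℤ)⟧, (ι0.app Z ≫ ρ0.app Z ≫ μ.app Z) ≫ dZ = h ≫ w' :=
      Triangle.yoneda_exact₃ _ hT ((ι0.app Z ≫ ρ0.app Z ≫ μ.app Z) ≫ dZ) hg
    have h5 : w' = 0 := by
      rw [← (shiftFunctor D (1 : ℤ)).map_preimage w', h0 ((shiftFunctor D (1 : ℤ)).preimage w'),
        Functor.map_zero]
    rw [hw, h5, comp_zero]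

end Pool.Agent.OSP
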