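import Pool.Agent.OSP.NatD
import Pool.Agent.OSP.MVt

/-!
# OSP-MVd: the Mayer-Vietoris argument in the derived category of an abelian category

`Gd M` means: `0 → M → J0 M ⊞ J1 M → J01 M → 0` is exact.
`mv_tri`: let `θ = biprod.desc (derN ρ0) (-derN ρ1)` at `X`, and `C → D0 X ⊞ D1 X → D01 X → C⟦1⟧` distinguished
(`distinguished_cocone_triangle₁`); `λ = biprod.lift (derI ι0) (derI ι1)`, `λ ≫ θ = 0` (`w`, `derI_comp`), so `λ` lifts to
`c : X → C` (`Triangle.coyoneda_exact₂`). `c` is an isomorphism (`DerivedCategory.isIso_iff`): `H^n(D0 X ⊞ D1 X)` is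
`J0 (H^n X) ⊞ J1 (H^n X)` (additive functor, `isoH`), under which `H^n λ`, `H^n θ` are the maps of `Gd (H^n X)`
(`derI_H`, `derN_H`). So `H^{n-1} θ` is epi for every `n`, the long exact sequence
(`HomologySequence.exact₁/₂/₃`) shows that `H^n C → H^n (D0 X ⊞ D1 X)` is a kernel of `H^n θ`; `H^n λ` is
one too, so `H^n c` is an isomorphism. Then replace `C` by `X` in the triangle (`isomorphic_distinguished`).
-/

open CategoryTheory CategoryTheory.Limits CategoryTheory.Pretriangulated DerivedCategory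

namespace Pool.Agent.OSP

open Pool.Agent.BE

universe w v u

variable {A : Type u} [Category.{v} A] [Abelian A]
  {J0 J1 J01 : A ⥤ A} [J0.Additive] [PreservesFiniteLimits J0] [PreservesFiniteColimits J0]
  [J1.Additive] [PreservesFiniteLimits J1] [PreservesFiniteColimits J1]
  [J01.Additive] [PreservesFiniteLimits J01] [PreservesFiniteColimits J01]

/-- `0 → M → J0 M ⊞ J1 M → J01 M → 0` is exact -/
def Gd {A : Type u} [Category.{v} A] [Abelian A] {J0 J1 J01 : A ⥤ A} (ι0 : 𝟭 A ⟶ J0)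
    (ι1 : 𝟭 A ⟶ J1) (ρ0 : J0 ⟶ J01) (ρ1 : J1 ⟶ J01) (w : ι0 ≫ ρ0 = ι1 ≫ ρ1) (M : A) : Prop :=
  (ShortComplex.mk (biprod.lift (ι0.app M) (ι1.app M) : M ⟶ J0.obj M ⊞ J1.obj M)
    (biprod.desc (ρ0.app M) (-ρ1.app M)) (by
      have h := congrArg (fun t => t.app M) w
      simp only [NatTrans.comp_app] at h
      simp [h])).ShortExact

variable [HasDerivedCategory.{w} A]

private theorem dist_replace {D : Type*} [Category D] [Preadditive D] [HasZeroObject D]
    [HasShift D ℤ] [∀ n : ℤ, (shiftFunctor D n).Additive] [Pretriangulated D] {X C B E : D}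
    (c : X ≅ C) (i : C ⟶ B) (l : X ⟶ B) (t : B ⟶ E) (d : E ⟶ C⟦(1 : ℤ)⟧) (h : l = c.hom ≫ i)
    (hT : Triangle.mk i t d ∈ distTriang D) :
    Triangle.mk l t (d ≫ c.inv⟦(1 : ℤ)⟧') ∈ distTriang D := by
  refine isomorphic_distinguished _ hT _ ?_
  refine Triangle.isoMk _ _ c (Iso.refl _) (Iso.refl _) ?_ ?_ ?_
  · change l ≫ 𝟙 B = c.hom ≫ i
    rw [Category.comp_id, h]
  · change t ≫ 𝟙 E = 𝟙 B ≫ t
    rw [Category.comp_id, Category.id_comp]
  · change (d ≫ c.inv⟦(1 : ℤ)⟧') ≫ c.hom⟦(1 : ℤ)⟧' = 𝟙 E ≫ d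
    rw [Category.assoc, ← Functor.map_comp, Iso.inv_hom_id, CategoryTheory.Functor.map_id,
      Category.comp_id, Category.id_comp]

omit [HasDerivedCategory A] in
private theorem lift_map' {X Y Y' Z Z' : A} (f : X ⟶ Y) (g : X ⟶ Y') (u : Y ⟶ Z) (v : Y' ⟶ Z')
    (a : X ⟶ Z) (b : X ⟶ Z') (h1 : f ≫ u = a) (h2 : g ≫ v = b) :
    biprod.lift f g ≫ biprod.map u v = biprod.lift a b := by
  subst h1 h2
  refine biprod.hom_ext _ _ ?_ ?_ <;> simp

omit [HasDerivedCategory A] in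
private theorem map_desc' {X Y Y' Z Z' : A} (f : Y ⟶ X) (g : Y' ⟶ X) (u : Z ⟶ Y) (v : Z' ⟶ Y')
    (a : Z ⟶ X) (b : Z' ⟶ X) (h1 : u ≫ f = a) (h2 : v ≫ g = b) :
    biprod.map u v ≫ biprod.desc f g = biprod.desc a b := by
  subst h1 h2
  refine biprod.hom_ext' _ _ ?_ ?_ <;> simp

private theorem lam_theta (ι0 : 𝟭 A ⟶ J0) (ι1 : 𝟭 A ⟶ J1) (ρ0 : J0 ⟶ J01) (ρ1 : J1 ⟶ J01)
    (w : ι0 ≫ ρ0 = ι1 ≫ ρ1) (X : DerivedCategory A) :
    (biprod.lift ((derI ι0).app X) ((derI ι1).app X) :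
        X ⟶ J0.mapDerivedCategory.obj X ⊞ J1.mapDerivedCategory.obj X) ≫
      biprod.desc ((derN ρ0).app X) (-(derN ρ1).app X) = 0 := by
  have h0 : (derI ι0).app X ≫ (derN ρ0).app X = (derI (ι0 ≫ ρ0)).app X := by
    rw [← derI_comp]; rfl
  have h1 : (derI ι1).app X ≫ (derN ρ1).app X = (derI (ι1 ≫ ρ1)).app X := by
    rw [← derI_comp]; rfl
  rw [biprod.lift_desc, Preadditive.comp_neg, h0, h1, w, add_neg_cancel]

private theorem se (ι0 : 𝟭 A ⟶ J0) (ι1 : 𝟭 A ⟶ J1) (ρ0 : J0 ⟶ J01) (ρ1 : J1 ⟶ J01)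
    (w : ι0 ≫ ρ0 = ι1 ≫ ρ1) (X : DerivedCategory A) (n : ℤ) (hX : Gd ι0 ι1 ρ0 ρ1 w (Hn n X)) :
    (ShortComplex.mk
      ((homologyFunctor A n).map (biprod.lift ((derI ι0).app X) ((derI ι1).app X) :
        X ⟶ J0.mapDerivedCategory.obj X ⊞ J1.mapDerivedCategory.obj X))
      ((homologyFunctor A n).map (biprod.desc ((derN ρ0).app X) (-(derN ρ1).app X)))
      (by rw [← Functor.map_comp, lam_theta ι0 ι1 ρ0 ρ1 w X, Functor.map_zero])).ShortExact := by
  have : PreservesBinaryBiproducts (homologyFunctor A n) :=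
    preservesBinaryBiproducts_of_preservesBiproducts _
  refine ShortComplex.shortExact_of_iso (Iso.symm ?_) hX
  refine ShortComplex.isoMk (Iso.refl _) ((homologyFunctor A n).mapBiprod
    (J0.mapDerivedCategory.obj X) (J1.mapDerivedCategory.obj X) ≪≫
      biprod.mapIso ((isoH J0 n).app X) ((isoH J1 n).app X)) ((isoH J01 n).app X) ?_ ?_
  · have h0 := derI_H ι0 n X
    have h1 := derI_H ι1 n X
    have hm : ((homologyFunctor A n).mapBiprod (J0.mapDerivedCategory.obj X)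
        (J1.mapDerivedCategory.obj X) ≪≫ biprod.mapIso ((isoH J0 n).app X)
          ((isoH J1 n).app X)).hom = ((homologyFunctor A n).mapBiprod
            (J0.mapDerivedCategory.obj X) (J1.mapDerivedCategory.obj X)).hom ≫
              biprod.map ((isoH J0 n).hom.app X) ((isoH J1 n).hom.app X) := rfl
    rw [hm, Iso.refl_hom, Category.id_comp]
    change biprod.lift _ _ = (homologyFunctor A n).map (biprod.lift _ _) ≫ _ ≫ _
    rw [← Category.assoc, biprod.map_lift_mapBiprod]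
    exact (lift_map' _ _ _ _ _ _ h0 h1).symm
  · have h0 := derN_H ρ0 n X
    have h1 := derN_H ρ1 n X
    have hm : ((homologyFunctor A n).mapBiprod (J0.mapDerivedCategory.obj X)
        (J1.mapDerivedCategory.obj X) ≪≫ biprod.mapIso ((isoH J0 n).app X)
          ((isoH J1 n).app X)).hom = ((homologyFunctor A n).mapBiprod
            (J0.mapDerivedCategory.obj X) (J1.mapDerivedCategory.obj X)).hom ≫
              biprod.map ((isoH J0 n).hom.app X) ((isoH J1 n).hom.app X) := rfl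
    rw [hm]
    change (_ ≫ _) ≫ biprod.desc _ _ = (homologyFunctor A n).map (biprod.desc _ _) ≫ _
    rw [← cancel_epi ((homologyFunctor A n).mapBiprod (J0.mapDerivedCategory.obj X)
      (J1.mapDerivedCategory.obj X)).inv, Category.assoc, Iso.inv_hom_id_assoc,
      ← Category.assoc, biprod.mapBiprod_inv_map_desc]
    refine biprod.hom_ext' _ _ ?_ ?_
    · rw [biprod.inl_desc_assoc]
      refine Eq.trans ?_ h0.symm
      rw [map_desc' _ _ _ _ _ _ rfl rfl, biprod.inl_desc]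
    · rw [biprod.inr_desc_assoc, Functor.map_neg, Preadditive.neg_comp]
      refine Eq.trans ?_ (congrArg (fun t => -t) h1.symm)
      rw [map_desc' _ _ _ _ _ _ rfl rfl, biprod.inr_desc, Preadditive.comp_neg]

theorem mv_tri (ι0 : 𝟭 A ⟶ J0) (ι1 : 𝟭 A ⟶ J1) (ρ0 : J0 ⟶ J01) (ρ1 : J1 ⟶ J01)
    (w : ι0 ≫ ρ0 = ι1 ≫ ρ1) (X : DerivedCategory A) (hX : ∀ n, Gd ι0 ι1 ρ0 ρ1 w (Hn n X)) :
    ∃ d : J01.mapDerivedCategory.obj X ⟶ X⟦(1 : ℤ)⟧,
      Triangle.mk (biprod.lift ((derI ι0).app X) ((derI ι1).app X) :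
          X ⟶ J0.mapDerivedCategory.obj X ⊞ J1.mapDerivedCategory.obj X)
        (biprod.desc ((derN ρ0).app X) (-(derN ρ1).app X)) d ∈
          distTriang (DerivedCategory A) := by
  obtain ⟨C, i, d, hT⟩ := distinguished_cocone_triangle₁
    (biprod.desc ((derN ρ0).app X) (-(derN ρ1).app X) :
      J0.mapDerivedCategory.obj X ⊞ J1.mapDerivedCategory.obj X ⟶ J01.mapDerivedCategory.obj X)
  obtain ⟨c, hc'⟩ : ∃ c : X ⟶ C, (biprod.lift ((derI ι0).app X) ((derI ι1).app X) :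
      X ⟶ J0.mapDerivedCategory.obj X ⊞ J1.mapDerivedCategory.obj X) = c ≫ i :=
    Triangle.coyoneda_exact₂ _ hT
      (biprod.lift ((derI ι0).app X) ((derI ι1).app X)) (lam_theta ι0 ι1 ρ0 ρ1 w X)
  have hiso : IsIso c := by
    rw [isIso_iff]
    intro n
    have hs := se ι0 ι1 ρ0 ρ1 w X n (hX n)
    have hs' := se ι0 ι1 ρ0 ρ1 w X (n - 1) (hX (n - 1))
    have hm : Mono ((homologyFunctor A n).map i) := by
      refine (HomologySequence.mono_homologyMap_mor₁_iff _ hT (n - 1) n (by lia)).2 ?_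
      refine (HomologySequence.epi_homologyMap_mor₂_iff _ hT (n - 1) n (by lia)).1 ?_
      exact hs'.epi_g
    have hk := HomologySequence.exact₂ _ hT n
    have h0 : (homologyFunctor A n).map i ≫ (homologyFunctor A n).map
        (biprod.desc ((derN ρ0).app X) (-(derN ρ1).app X)) = 0 := by
      rw [← Functor.map_comp]
      have := comp_distTriang_mor_zero₁₂ _ hT
      have h2 : i ≫ biprod.desc ((derN ρ0).app X) (-(derN ρ1).app X) = 0 := this
      rw [h2, Functor.map_zero]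
    have hcm : (homologyFunctor A n).map c ≫ (homologyFunctor A n).map i =
        (homologyFunctor A n).map (biprod.lift ((derI ι0).app X) ((derI ι1).app X)) := by
      rw [← Functor.map_comp, hc']
    have := hs.mono_f
    let s := hs.exact.lift _ h0
    have hsl : s ≫ (homologyFunctor A n).map (biprod.lift ((derI ι0).app X) ((derI ι1).app X)) =
        (homologyFunctor A n).map i := hs.exact.lift_f _ h0
    refine ⟨s, ?_, ?_⟩
    · have : Mono ((homologyFunctor A n).map (biprod.lift ((derI ι0).app X)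
        ((derI ι1).app X))) := hs.mono_f
      rw [← cancel_mono ((homologyFunctor A n).map (biprod.lift ((derI ι0).app X)
        ((derI ι1).app X))), Category.assoc, hsl, hcm, Category.id_comp]
    · rw [← cancel_mono ((homologyFunctor A n).map i), Category.assoc, hcm, hsl,
        Category.id_comp]
  exact ⟨_, dist_replace (asIso c) i _ _ d hc' hT⟩

end Pool.Agent.OSP
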