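import Pool.Agent.OSP.RhoJ
import Pool.Agent.OSP.MVd
import Pool.Agent.BE.Aff
import Pool.Agent.BE.SuppJ
import Pool.Agent.BE.Loc

/-!
# OSP-GoodQ: the Mayer-Vietoris sequence of a module supported in `W0 ∪ W1`

`good_of_supp`. For every `s : S` there is a small affine `D ∋ s` with `D ≤ W0`, or `D ≤ W1`, or `D ∩ Supp M = ∅`
(`exists_affine...`: basis of affine opens, `supp_closed`). Let `E = J0 M ⊞ J1 M`, `λ = biprod.lift`, `θ = biprod.desc`.
ON A SMALL `D`: if `D` does not meet `Supp M` all sections over `D` are zero (`supp_J`, `subsingleton_of_disjoint`). If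
`D ≤ W0`: `D ∩ W0 = D`, `D ∩ W01 = D ∩ W1` as opens, so the restrictions `M(D) → M(D ∩ W0)` and
`M(D ∩ W1) → M(D ∩ W01)` are bijective (`pha_res_bij` in `Pool/Agent/BE/PhA.lean` or `res_bijective` in SuppA), and on `D`:
`λ` is injective, `θ` is surjective, and every `t` with `θ t = 0` is `λ m`. Sections of a biproduct: `t` is determined
by `ap biprod.fst D t`, `ap biprod.snd D t`, and `t = ap biprod.inl D _ + ap biprod.inr D _` (`biprod.total`).
GLOBAL: (1) mono: the kernel object `K'` of `λ` has `sec K' D = 0` on small `D` (`exact_iff`/`mono_iff` in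
`Pool/Agent/BE/Pt.lean`: exactness in `QCoh S` is exactness of the sections over every affine open), so `K' = 0` by
`subsingleton_of_local`, `isZero_iff`. (2) epi: the same with the cokernel of `θ` (`E → J01 M → coker → 0` is exact over
every affine open, so `coker(D) = 0`). (3) exact in the middle: `K = kernel θ` (`K(U)` = kernel of `θ` over `U`),
`c : M → K` the lift of `λ`; the cokernel of `c` vanishes on small `D`, so `c` is epi, so
`ShortComplex.Exact` (for instance by `exact_iff`: `c` is surjective on sections).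
It is convenient to prove first: `f : M → N` with `ap f D` surjective (injective) for a small `D` around every point is
epi (mono).
`iso_rJ`, `iso_ι`: `iso_iff`: on `U` the map is a restriction between equal opens, so bijective.
-/

open CategoryTheory CategoryTheory.Limits AlgebraicGeometry Opposite TopologicalSpace

namespace Pool.Agent.OSP

open Pool.Agent.BE

variable {S : Scheme.{0}}

theorem wJ {W0 W1 : S.Opens} (h0 : AffInc W0) (h1 : AffInc W1) :
    ιJ h0 ≫ rJ (affInc_inf h0 h1) h0 inf_le_left =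
      ιJ h1 ≫ rJ (affInc_inf h0 h1) h1 inf_le_right := by
  rw [ι_rJ, ι_rJ]

private theorem gq_res_bij (M : QCoh S) {V U : Aff S} (h : V ≤ U) (h' : U ≤ V) :
    Function.Bijective (res M h) := by
  refine ⟨fun a b hab => ?_, fun x => ⟨res M h' x, ?_⟩⟩
  · have h1 := congrArg (res M h') hab
    change M.obj.res h' (M.obj.res h a) = M.obj.res h' (M.obj.res h b) at h1
    rwa [PM.res_res, PM.res_res, PM.res_id, PM.res_id] at h1
  · change M.obj.res h (M.obj.res h' x) = x
    rw [PM.res_res, PM.res_id]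

private theorem gq_mono {M N : QCoh S} (f : M ⟶ N)
    (h : ∀ (U : Aff S), ∀ s ∈ U.1, ∃ D : Aff S, s ∈ D.1 ∧ Function.Injective (ap f D)) :
    Mono f := by
  have h1 : IsZero (kernel f) := by
    rw [isZero_iff]
    intro U
    refine subsingleton_of_local _ U fun s hs => ?_
    obtain ⟨D, hD, hb⟩ := h U s hs
    refine ⟨D, hD, ⟨fun a b => ?_⟩⟩
    apply (mono_iff (kernel.ι f)).1 inferInstance D
    apply hb
    have key : ∀ x : sec (kernel f) D, ap f D (ap (kernel.ι f) D x) = 0 := by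
      intro x
      have e1 : ap f D (ap (kernel.ι f) D x) = ap (kernel.ι f ≫ f) D x := rfl
      rw [e1, kernel.condition]
      rfl
    rw [key, key]
  exact Preadditive.mono_of_isZero_kernel f h1

private theorem gq_epi {M N : QCoh S} (f : M ⟶ N)
    (h : ∀ (U : Aff S), ∀ s ∈ U.1, ∃ D : Aff S, s ∈ D.1 ∧ Function.Surjective (ap f D)) :
    Epi f := by
  have h2 : IsZero (cokernel f) := by
    rw [isZero_iff]
    intro U
    refine subsingleton_of_local _ U fun s hs => ?_
    obtain ⟨D, hD, hb⟩ := h U s hs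
    have key : ∀ x : sec (cokernel f) D, x = 0 := by
      intro x
      obtain ⟨y, rfl⟩ := (epi_iff (cokernel.π f)).1 inferInstance D x
      obtain ⟨z, rfl⟩ := hb y
      have e1 : ap (cokernel.π f) D (ap f D z) = ap (f ≫ cokernel.π f) D z := rfl
      rw [e1, cokernel.condition]
      rfl
    exact ⟨D, hD, ⟨fun a b => by rw [key a, key b]⟩⟩
  exact Preadditive.epi_of_isZero_cokernel f h2

private theorem gq_exact (T : ShortComplex (QCoh S))
    (h : ∀ (U : Aff S), ∀ s ∈ U.1, ∃ D : Aff S, s ∈ D.1 ∧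
      Function.Exact (ap T.f D) (ap T.g D)) : T.Exact := by
  rw [ShortComplex.exact_iff_epi_kernel_lift]
  apply gq_epi
  intro U s hs
  obtain ⟨D, hD, he⟩ := h U s hs
  refine ⟨D, hD, fun x => ?_⟩
  have h1 : ap T.g D (ap (kernel.ι T.g) D x) = 0 := by
    have e1 : ap T.g D (ap (kernel.ι T.g) D x) = ap (kernel.ι T.g ≫ T.g) D x := rfl
    rw [e1, kernel.condition]
    rfl
  obtain ⟨m, hm⟩ := (he _).1 h1
  refine ⟨m, ?_⟩
  apply (mono_iff (kernel.ι T.g)).1 inferInstance D
  rw [← hm]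
  have e2 : ap (kernel.ι T.g) D (ap (kernel.lift T.g T.f T.zero) D m) =
      ap (kernel.lift T.g T.f T.zero ≫ kernel.ι T.g) D m := rfl
  rw [e2, kernel.lift_ι]

private theorem gq_alg {A B0 B1 C E : Type*} [AddCommGroup A] [AddCommGroup B0]
    [AddCommGroup B1] [AddCommGroup C] [AddCommGroup E] (i0 : A →+ B0) (i1 : A →+ B1)
    (r0 : B0 →+ C) (r1 : B1 →+ C) (p0 : E →+ B0) (p1 : E →+ B1) (l : A → E) (t : E → C)
    (hri : ∀ a, r0 (i0 a) = r1 (i1 a)) (hE : ∀ b0 b1, ∃ e, p0 e = b0 ∧ p1 e = b1)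
    (hE' : ∀ e e', p0 e = p0 e' → p1 e = p1 e' → e = e') (h0 : ∀ a, p0 (l a) = i0 a)
    (h1 : ∀ a, p1 (l a) = i1 a) (ht : ∀ e, t e = r0 (p0 e) - r1 (p1 e))
    (hb : (Function.Bijective i0 ∧ Function.Bijective r1) ∨
      (Function.Bijective i1 ∧ Function.Bijective r0)) :
    Function.Injective l ∧ Function.Exact l t ∧ Function.Surjective t := by
  refine ⟨fun a b hab => ?_, fun e => ⟨fun he => ?_, ?_⟩, fun c => ?_⟩
  · rcases hb with hb | hb
    · apply hb.1.1
      rw [← h0, ← h0, hab]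
    · apply hb.1.1
      rw [← h1, ← h1, hab]
  · rw [ht, sub_eq_zero] at he
    rcases hb with hb | hb
    · obtain ⟨a, ha⟩ := hb.1.2 (p0 e)
      refine ⟨a, hE' _ _ ?_ ?_⟩
      · rw [h0, ha]
      · rw [h1]
        apply hb.2.1
        rw [← hri, ha, he]
    · obtain ⟨a, ha⟩ := hb.1.2 (p1 e)
      refine ⟨a, hE' _ _ ?_ ?_⟩
      · rw [h0]
        apply hb.2.1
        rw [hri, ha, he]
      · rw [h1, ha]
  · rintro ⟨a, rfl⟩
    rw [ht, h0, h1, hri, sub_self]
  · rcases hb with hb | hb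
    · obtain ⟨b, hb1⟩ := hb.2.2 (-c)
      obtain ⟨e, he0, he1⟩ := hE 0 b
      refine ⟨e, ?_⟩
      rw [ht, he0, he1, hb1, map_zero, zero_sub, neg_neg]
    · obtain ⟨b, hb1⟩ := hb.2.2 c
      obtain ⟨e, he0, he1⟩ := hE b 0
      refine ⟨e, ?_⟩
      rw [ht, he0, he1, hb1, map_zero, sub_zero]

private theorem gq_ι_bij {W : S.Opens} (hW : AffInc W) (M : QCoh S) (D : Aff S)
    (h : Function.Bijective (res M (cap_le hW D))) :
    Function.Bijective (ap ((ιJ hW).app M) D) :=
  (jeq hW M D).symm.bijective.comp h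

private theorem gq_r_bij {W' W : S.Opens} (h' : AffInc W') (h : AffInc W) (hle : W' ≤ W)
    (M : QCoh S) (D : Aff S) (hb : Function.Bijective (res M (cap_inc h' h hle D))) :
    Function.Bijective (ap ((rJ h' h hle).app M) D) :=
  (jeq h' M D).symm.bijective.comp (hb.comp (jeq h M D).bijective)

private theorem gq_loc {W0 W1 : S.Opens} (h0 : AffInc W0) (h1 : AffInc W1) (M : QCoh S)
    (hs : ∀ s ∈ Supp M, s ∈ W0 ∨ s ∈ W1) (U : Aff S) (s : S) (hU : s ∈ U.1) :
    ∃ D : Aff S, s ∈ D.1 ∧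
      ((Function.Bijective (ap ((ιJ h0).app M) D) ∧
        Function.Bijective (ap ((rJ (affInc_inf h0 h1) h1 inf_le_right).app M) D)) ∨
      (Function.Bijective (ap ((ιJ h1).app M) D) ∧
        Function.Bijective (ap ((rJ (affInc_inf h0 h1) h0 inf_le_left).app M) D))) := by
  by_cases hs0 : s ∈ W0
  · refine ⟨cap h0 U, ⟨hU, hs0⟩, Or.inl ⟨gq_ι_bij h0 M _ (gq_res_bij M _ ?_),
      gq_r_bij _ _ _ M _ (gq_res_bij M _ ?_)⟩⟩
    · show U.1 ⊓ W0 ≤ (U.1 ⊓ W0) ⊓ W0
      exact le_inf le_rfl inf_le_right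
    · show (U.1 ⊓ W0) ⊓ W1 ≤ (U.1 ⊓ W0) ⊓ (W0 ⊓ W1)
      exact le_inf inf_le_left (le_inf (inf_le_left.trans inf_le_right) inf_le_right)
  · by_cases hs1 : s ∈ W1
    · refine ⟨cap h1 U, ⟨hU, hs1⟩, Or.inr ⟨gq_ι_bij h1 M _ (gq_res_bij M _ ?_),
        gq_r_bij _ _ _ M _ (gq_res_bij M _ ?_)⟩⟩
      · show U.1 ⊓ W1 ≤ (U.1 ⊓ W1) ⊓ W1
        exact le_inf le_rfl inf_le_right
      · show (U.1 ⊓ W1) ⊓ W0 ≤ (U.1 ⊓ W1) ⊓ (W0 ⊓ W1)
        exact le_inf inf_le_left (le_inf inf_le_right (inf_le_left.trans inf_le_right))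
    · have hn : s ∉ Supp M := fun h => (hs s h).elim hs0 hs1
      obtain ⟨V, hV, hV0⟩ : ∃ V : Aff S, s ∈ V.1 ∧ Subsingleton (sec M V) := by
        simp only [Supp, Set.mem_ofPred_eq, not_forall] at hn
        obtain ⟨V, hV, hn⟩ := hn
        exact ⟨V, hV, not_nontrivial_iff_subsingleton.1 hn⟩
      have hsub : ∀ D : Aff S, D ≤ V → Subsingleton (sec M D) := fun D hD =>
        subsingleton_of_local M D fun _ ht => ⟨V, hD ht, hV0⟩
      have hbij : ∀ {D D' : Aff S} (h : D ≤ D'), D' ≤ V → Function.Bijective (res M h) := by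
        intro D D' h hD'
        have i1 := hsub D (h.trans hD')
        have i2 := hsub D' hD'
        exact ⟨fun a b _ => Subsingleton.elim _ _, fun x => ⟨0, Subsingleton.elim _ _⟩⟩
      exact ⟨V, hV, Or.inl ⟨gq_ι_bij h0 M _ (hbij _ le_rfl),
        gq_r_bij _ _ _ M _ (hbij _ (cap_le h1 V))⟩⟩

theorem good_of_supp {W0 W1 : S.Opens} (h0 : AffInc W0) (h1 : AffInc W1) (M : QCoh S)
    (hs : ∀ s ∈ Supp M, s ∈ W0 ∨ s ∈ W1) :
    Gd (ιJ h0) (ιJ h1) (rJ (affInc_inf h0 h1) h0 inf_le_left)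
      (rJ (affInc_inf h0 h1) h1 inf_le_right) (wJ h0 h1) M := by
  have hloc : ∀ (U : Aff S), ∀ s ∈ U.1, ∃ D : Aff S, s ∈ D.1 ∧
      (Function.Injective (ap (biprod.lift ((ιJ h0).app M) ((ιJ h1).app M)) D) ∧
      Function.Exact (ap (biprod.lift ((ιJ h0).app M) ((ιJ h1).app M)) D)
        (ap (biprod.desc ((rJ (affInc_inf h0 h1) h0 inf_le_left).app M)
          (-(rJ (affInc_inf h0 h1) h1 inf_le_right).app M)) D) ∧
      Function.Surjective (ap (biprod.desc ((rJ (affInc_inf h0 h1) h0 inf_le_left).app M)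
          (-(rJ (affInc_inf h0 h1) h1 inf_le_right).app M)) D)) := by
    intro U s hU
    obtain ⟨D, hD, hb⟩ := gq_loc h0 h1 M hs U s hU
    refine ⟨D, hD, gq_alg (ap ((ιJ h0).app M) D).toAddMonoidHom
      (ap ((ιJ h1).app M) D).toAddMonoidHom
      (ap ((rJ (affInc_inf h0 h1) h0 inf_le_left).app M) D).toAddMonoidHom
      (ap ((rJ (affInc_inf h0 h1) h1 inf_le_right).app M) D).toAddMonoidHom
      (ap (biprod.fst : (J h0).obj M ⊞ (J h1).obj M ⟶ _) D).toAddMonoidHom
      (ap (biprod.snd : (J h0).obj M ⊞ (J h1).obj M ⟶ _) D).toAddMonoidHom _ _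
      ?_ ?_ ?_ ?_ ?_ ?_ hb⟩
    · intro a
      have e1 : ap ((ιJ h0 ≫ rJ (affInc_inf h0 h1) h0 inf_le_left).app M) D a =
          ap ((ιJ h1 ≫ rJ (affInc_inf h0 h1) h1 inf_le_right).app M) D a := by
        rw [wJ h0 h1]
      exact e1
    · intro b0 b1
      refine ⟨ap (biprod.inl : _ ⟶ (J h0).obj M ⊞ (J h1).obj M) D b0 +
        ap (biprod.inr : _ ⟶ (J h0).obj M ⊞ (J h1).obj M) D b1, ?_, ?_⟩
      · have e1 : ap (biprod.fst : (J h0).obj M ⊞ (J h1).obj M ⟶ _) D
            (ap (biprod.inl : _ ⟶ (J h0).obj M ⊞ (J h1).obj M) D b0) = b0 := by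
          have e2 : ap ((biprod.inl : _ ⟶ (J h0).obj M ⊞ (J h1).obj M) ≫ biprod.fst) D b0 =
            b0 := by
            rw [biprod.inl_fst]
            rfl
          exact e2
        have e3 : ap (biprod.fst : (J h0).obj M ⊞ (J h1).obj M ⟶ _) D
            (ap (biprod.inr : _ ⟶ (J h0).obj M ⊞ (J h1).obj M) D b1) = 0 := by
          have e2 : ap ((biprod.inr : _ ⟶ (J h0).obj M ⊞ (J h1).obj M) ≫ biprod.fst) D b1 =
            0 := by
            rw [biprod.inr_fst]
            rfl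
          exact e2
        show ap (biprod.fst : (J h0).obj M ⊞ (J h1).obj M ⟶ _) D _ = b0
        rw [map_add, e1, e3, add_zero]
      · have e1 : ap (biprod.snd : (J h0).obj M ⊞ (J h1).obj M ⟶ _) D
            (ap (biprod.inl : _ ⟶ (J h0).obj M ⊞ (J h1).obj M) D b0) = 0 := by
          have e2 : ap ((biprod.inl : _ ⟶ (J h0).obj M ⊞ (J h1).obj M) ≫ biprod.snd) D b0 =
            0 := by
            rw [biprod.inl_snd]
            rfl
          exact e2
        have e3 : ap (biprod.snd : (J h0).obj M ⊞ (J h1).obj M ⟶ _) D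
            (ap (biprod.inr : _ ⟶ (J h0).obj M ⊞ (J h1).obj M) D b1) = b1 := by
          have e2 : ap ((biprod.inr : _ ⟶ (J h0).obj M ⊞ (J h1).obj M) ≫ biprod.snd) D b1 =
            b1 := by
            rw [biprod.inr_snd]
            rfl
          exact e2
        show ap (biprod.snd : (J h0).obj M ⊞ (J h1).obj M ⟶ _) D _ = b1
        rw [map_add, e1, e3, zero_add]
    · intro e e' hf hg
      have key : ∀ z : sec ((J h0).obj M ⊞ (J h1).obj M) D, z =
          ap (biprod.inl : _ ⟶ (J h0).obj M ⊞ (J h1).obj M) D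
            (ap (biprod.fst : (J h0).obj M ⊞ (J h1).obj M ⟶ _) D z) +
          ap (biprod.inr : _ ⟶ (J h0).obj M ⊞ (J h1).obj M) D
            (ap (biprod.snd : (J h0).obj M ⊞ (J h1).obj M ⟶ _) D z) := by
        intro z
        have e1 : z = ap (𝟙 ((J h0).obj M ⊞ (J h1).obj M)) D z := rfl
        conv_lhs => rw [e1, ← biprod.total]
        rfl
      have hf' : ap (biprod.fst : (J h0).obj M ⊞ (J h1).obj M ⟶ _) D e =
        ap (biprod.fst : (J h0).obj M ⊞ (J h1).obj M ⟶ _) D e' := hf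
      have hg' : ap (biprod.snd : (J h0).obj M ⊞ (J h1).obj M ⟶ _) D e =
        ap (biprod.snd : (J h0).obj M ⊞ (J h1).obj M ⟶ _) D e' := hg
      rw [key e, key e', hf', hg']
    · intro a
      have e2 : ap (biprod.lift ((ιJ h0).app M) ((ιJ h1).app M) ≫ biprod.fst) D a =
          ap ((ιJ h0).app M) D a := by
        rw [biprod.lift_fst]
      exact e2
    · intro a
      have e2 : ap (biprod.lift ((ιJ h0).app M) ((ιJ h1).app M) ≫ biprod.snd) D a =
          ap ((ιJ h1).app M) D a := by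
        rw [biprod.lift_snd]
      exact e2
    · intro e
      have e2 : biprod.desc ((rJ (affInc_inf h0 h1) h0 inf_le_left).app M)
          (-(rJ (affInc_inf h0 h1) h1 inf_le_right).app M) =
          biprod.fst ≫ ((rJ (affInc_inf h0 h1) h0 inf_le_left).app M) -
            biprod.snd ≫ ((rJ (affInc_inf h0 h1) h1 inf_le_right).app M) := by
        apply biprod.hom_ext'
        · simp
        · simp
      rw [e2]
      rfl
  refine { exact := ?_, mono_f := ?_, epi_g := ?_ }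
  · apply gq_exact
    intro U s hU
    obtain ⟨D, hD, h⟩ := hloc U s hU
    exact ⟨D, hD, h.2.1⟩
  · apply gq_mono
    intro U s hU
    obtain ⟨D, hD, h⟩ := hloc U s hU
    exact ⟨D, hD, h.1⟩
  · apply gq_epi
    intro U s hU
    obtain ⟨D, hD, h⟩ := hloc U s hU
    exact ⟨D, hD, h.2.2⟩

theorem iso_rJ {W0 W1 : S.Opens} (h0 : AffInc W0) (h1 : AffInc W1) (M : QCoh S) :
    IsIso ((J (affInc_inf h0 h1)).map ((rJ (affInc_inf h0 h1) h0 inf_le_left).app M)) := by
  rw [iso_iff]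
  intro U
  have hb : Function.Bijective
      (ap ((rJ (affInc_inf h0 h1) h0 inf_le_left).app M) (cap (affInc_inf h0 h1) U)) := by
    apply gq_r_bij
    apply gq_res_bij
    show (U.1 ⊓ (W0 ⊓ W1)) ⊓ W0 ≤ (U.1 ⊓ (W0 ⊓ W1)) ⊓ (W0 ⊓ W1)
    exact le_inf inf_le_left (inf_le_left.trans inf_le_right)
  exact (jeq (affInc_inf h0 h1) ((J (affInc_inf h0 h1)).obj M) U).symm.bijective.comp
    (hb.comp (jeq (affInc_inf h0 h1) ((J h0).obj M) U).bijective)

theorem iso_ι {W0 W1 : S.Opens} (h0 : AffInc W0) (h1 : AffInc W1) (M : QCoh S) :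
    IsIso ((ιJ h0 ≫ rJ (affInc_inf h0 h1) h0 inf_le_left).app
      ((J (affInc_inf h0 h1)).obj M)) := by
  rw [ι_rJ, iso_iff]
  intro U
  apply gq_ι_bij
  have hb : Function.Bijective (res M (cap_mono (affInc_inf h0 h1)
      (cap_le (affInc_inf h0 h1) U))) := by
    apply gq_res_bij
    show U.1 ⊓ (W0 ⊓ W1) ≤ (U.1 ⊓ (W0 ⊓ W1)) ⊓ (W0 ⊓ W1)
    exact le_inf le_rfl inf_le_right
  exact (jeq (affInc_inf h0 h1) M (cap (affInc_inf h0 h1) U)).symm.bijective.comp
    (hb.comp (jeq (affInc_inf h0 h1) M U).bijective)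

end Pool.Agent.OSP
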