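import Pool.Agent.BE.C.Defs

/-!
# OSP-IsoDefs: surfaces isogenous to a product of curves
-/

open CategoryTheory CategoryTheory.Limits AlgebraicGeometry TopologicalSpace

namespace Pool.Agent.OSP

open Pool.Agent.BE

/-- The projective surfaces `S` over `ℂ` with a finite étale covering `π : E × F → S`, where `E`, `F`
are smooth projective curves of positive genus. Examples: the quotients `(E × F)/G` by a free
action of a finite group `G`, in particular all Beauville-type and all bielliptic surfaces. -/
structure IsogSurface where
  /-- first curve -/
  E : Scheme.{0}
  /-- second curve -/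
  F : Scheme.{0}
  /-- the surface -/
  S : Scheme.{0}
  /-- structure morphism of `E` -/
  sE : E ⟶ SpecC
  /-- structure morphism of `F` -/
  sF : F ⟶ SpecC
  /-- structure morphism of `S` -/
  sS : S ⟶ SpecC
  hE : IsCurve sE
  hF : IsCurve sF
  gE : PosGenus E
  gF : PosGenus F
  hS : IsProj sS
  intS : IsIntegral S
  dimS : topologicalKrullDim S = 2
  /-- the covering -/
  π : pullback sE sF ⟶ S
  overπ : π ≫ sS = pullback.fst sE sF ≫ sE
  finite : IsFinite π
  etale : Etale π
  surj : Surjective π

attribute [instance] IsogSurface.intS

end Pool.Agent.OSP
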