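import Pool.Agent.OSP.NatD

/-!
# OSP-NatS: exact functors, objects in degree 0 and the derived category

`F(M)` in degree `0` is `F` of (`M` in degree `0`). Mathlib: `HomologicalComplex.singleMapHomologicalComplex`,
`HomologicalComplex.single`, `singleFunctor A 0` is `CochainComplex.singleFunctor A 0 ⋙ Q` (up to
`DerivedCategory.singleFunctorIsoCompQ` or by definition). `e F` := `Q` of the isomorphism of complexes composed with
`F.mapDerivedCategoryFactors.inv` (see `hη'`, `hμ'` in `Pool/Agent/BE/DerN.lean`: `(derI η).app (Q.obj K) =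
Q.map (etaN η K) ≫ F.mapDerivedCategoryFactors.inv.app K`, `(derN τ).app (Q.obj K) = F.mapDerivedCategoryFactors.hom.app K ≫
Q.map (τ on K) ≫ G.mapDerivedCategoryFactors.inv.app K`, both from `Localization.liftNatTrans_app`). The properties are
checked on complexes (`HomologicalComplex.from_single_hom_ext`, or `ext i` and the two cases `i = 0`, `i ≠ 0`).
See also `Pool/Agent/BE/DerC1.lean`, which does a similar computation for objects in degree `0`.
-/

open CategoryTheory CategoryTheory.Limits CategoryTheory.Pretriangulated DerivedCategory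

namespace Pool.Agent.OSP

open Pool.Agent.BE

universe w v u

variable {A : Type u} [Category.{v} A] [Abelian A] [HasDerivedCategory.{w} A]

private noncomputable def nsK (M : A) : CochainComplex A ℤ :=
  (HomologicalComplex.single A (ComplexShape.up ℤ) 0).obj M

omit [HasDerivedCategory.{w} A] in
private theorem nsK_def (M : A) : nsK M = (HomologicalComplex.single A (ComplexShape.up ℤ) 0).obj M := rfl

/-- the isomorphism of complexes -/
private noncomputable def nsI (F : A ⥤ A) [F.Additive] (M : A) :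
    nsK (F.obj M) ≅ (F.mapHomologicalComplex (ComplexShape.up ℤ)).obj (nsK M) :=
  ((HomologicalComplex.singleMapHomologicalComplex F (ComplexShape.up ℤ) 0).app M).symm

private noncomputable def nsX (M : A) : (nsK M).X 0 ≅ M :=
  HomologicalComplex.singleObjXSelf (ComplexShape.up ℤ) 0 M

omit [HasDerivedCategory.{w} A] in
private theorem nsI_f (F : A ⥤ A) [F.Additive] (M : A) :
    ((nsI F M).hom.f 0 : (nsK (F.obj M)).X 0 ⟶ F.obj ((nsK M).X 0)) =
      (nsX (F.obj M)).hom ≫ F.map (nsX M).inv :=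
  HomologicalComplex.singleMapHomologicalComplex_inv_app_self F (ComplexShape.up ℤ) 0 M

private noncomputable def nsMap {M N : A} (φ : M ⟶ N) : nsK M ⟶ nsK N :=
  (HomologicalComplex.single A (ComplexShape.up ℤ) 0).map φ

omit [HasDerivedCategory.{w} A] in
private theorem nsMap_f {M N : A} (φ : M ⟶ N) :
    (nsMap φ).f 0 = (nsX M).hom ≫ φ ≫ (nsX N).inv :=
  HomologicalComplex.single_map_f_self (ComplexShape.up ℤ) 0 φ

private theorem ns_chase {C : Type*} [Category C] {X0 X1 FM FK GM GK : C} (a : X0 ⟶ FM) (b : FM ⟶ FK)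
    (t : FK ⟶ GK) (t' : FM ⟶ GM) (b' : GM ⟶ GK) (e : X1 ≅ GM) (h : b ≫ t = t' ≫ b') :
    (a ≫ b) ≫ t = (a ≫ t' ≫ e.inv) ≫ (e.hom ≫ b') := by
  simp only [Category.assoc, Iso.inv_hom_id_assoc, h]

private theorem ns_chase2 {C : Type*} [Category C] {X0 M GM GK X1 : C} (a : X0 ≅ M)
    (t : X0 ⟶ GK) (t' : M ⟶ GM) (b' : GM ⟶ GK) (e : X1 ≅ GM) (h : a.inv ≫ t = t' ≫ b') :
    t = (a.hom ≫ t' ≫ e.inv) ≫ (e.hom ≫ b') := by
  simp only [Category.assoc, Iso.inv_hom_id_assoc, ← h, Iso.hom_inv_id_assoc]

omit [HasDerivedCategory.{w} A] in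
private theorem ns_tau (F G : A ⥤ A) [F.Additive] [G.Additive] (τ : F ⟶ G) (M : A) :
    (nsI F M).hom ≫ (NatTrans.mapHomologicalComplex τ (ComplexShape.up ℤ)).app (nsK M) =
      nsMap (τ.app M) ≫ (nsI G M).hom := by
  refine HomologicalComplex.from_single_hom_ext ?_
  have h := τ.naturality (nsX M).inv
  have e1 := nsI_f F M
  have e2 := nsI_f G M
  have e3 := nsMap_f (τ.app M)
  have e4 := ns_chase (nsX (F.obj M)).hom (F.map (nsX M).inv) (τ.app ((nsK M).X 0)) (τ.app M)
    (G.map (nsX M).inv) (nsX (G.obj M)) h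
  rw [← e1, ← e2, ← e3] at e4
  exact e4

omit [HasDerivedCategory.{w} A] in
private theorem ns_eta (F : A ⥤ A) [F.Additive] (η : 𝟭 A ⟶ F) (M : A) :
    (etaN F η).app (nsK M) = nsMap (η.app M) ≫ (nsI F M).hom := by
  refine HomologicalComplex.from_single_hom_ext ?_
  have h := η.naturality (nsX M).inv
  have e1 := nsI_f F M
  have e3 := nsMap_f (η.app M)
  have e4 := ns_chase2 (nsX M) (η.app ((nsK M).X 0)) (η.app M)
    (F.map (nsX M).inv) (nsX (F.obj M)) h
  rw [← e1] at e4
  refine e4.trans ?_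
  exact (congrArg (fun z => z ≫ ((nsI F M).hom.f 0 : (nsK (F.obj M)).X 0 ⟶ F.obj ((nsK M).X 0))) e3).symm

private theorem derI_Q {F : A ⥤ A} [F.Additive] [PreservesFiniteLimits F]
    [PreservesFiniteColimits F] (η : 𝟭 A ⟶ F) (K : CochainComplex A ℤ) :
    (derI η).app (Q.obj K) = Q.map ((etaN F η).app K) ≫ F.mapDerivedCategoryFactors.inv.app K := by
  refine (Localization.liftNatTrans_app Q (HomologicalComplex.quasiIso A (ComplexShape.up ℤ))
    Q (F.mapHomologicalComplex (ComplexShape.up ℤ) ⋙ Q) (𝟭 _) F.mapDerivedCategory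
    ((Functor.leftUnitor _).inv ≫ Functor.whiskerRight (etaN F η) Q) K).trans ?_
  simp
  rfl

private theorem derN_Q {F G : A ⥤ A} [F.Additive] [PreservesFiniteLimits F]
    [PreservesFiniteColimits F] [G.Additive] [PreservesFiniteLimits G]
    [PreservesFiniteColimits G] (τ : F ⟶ G) (K : CochainComplex A ℤ) :
    (derN τ).app (Q.obj K) = F.mapDerivedCategoryFactors.hom.app K ≫
      Q.map ((NatTrans.mapHomologicalComplex τ (ComplexShape.up ℤ)).app K) ≫
      G.mapDerivedCategoryFactors.inv.app K := by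
  refine (Localization.liftNatTrans_app Q (HomologicalComplex.quasiIso A (ComplexShape.up ℤ))
    (F.mapHomologicalComplex (ComplexShape.up ℤ) ⋙ Q)
    (G.mapHomologicalComplex (ComplexShape.up ℤ) ⋙ Q) F.mapDerivedCategory G.mapDerivedCategory
    (Functor.whiskerRight (NatTrans.mapHomologicalComplex τ (ComplexShape.up ℤ)) Q) K).trans ?_
  rfl

private noncomputable def nsE (M : A) (F : A ⥤ A) [F.Additive] [PreservesFiniteLimits F]
    [PreservesFiniteColimits F] :
    Q.obj (nsK (F.obj M)) ≅ F.mapDerivedCategory.obj (Q.obj (nsK M)) :=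
  Q.mapIso (nsI F M) ≪≫ (F.mapDerivedCategoryFactors.app (nsK M)).symm

private theorem nsE_hom (M : A) (F : A ⥤ A) [F.Additive] [PreservesFiniteLimits F]
    [PreservesFiniteColimits F] :
    (nsE M F).hom = Q.map (nsI F M).hom ≫ F.mapDerivedCategoryFactors.inv.app (nsK M) := rfl

private theorem nsE_tau (M : A) (F G : A ⥤ A) [F.Additive] [PreservesFiniteLimits F]
    [PreservesFiniteColimits F] [G.Additive] [PreservesFiniteLimits G] [PreservesFiniteColimits G]
    (τ : F ⟶ G) :
    (nsE M F).hom ≫ (derN τ).app (Q.obj (nsK M)) = Q.map (nsMap (τ.app M)) ≫ (nsE M G).hom := by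
  rw [nsE_hom, nsE_hom, derN_Q]
  simp only [Category.assoc]
  have h1 : F.mapDerivedCategoryFactors.inv.app (nsK M) ≫ F.mapDerivedCategoryFactors.hom.app (nsK M) ≫
      Q.map ((NatTrans.mapHomologicalComplex τ (ComplexShape.up ℤ)).app (nsK M)) ≫
      G.mapDerivedCategoryFactors.inv.app (nsK M) =
      Q.map ((NatTrans.mapHomologicalComplex τ (ComplexShape.up ℤ)).app (nsK M)) ≫
      G.mapDerivedCategoryFactors.inv.app (nsK M) := by
    rw [← Category.assoc, Iso.inv_hom_id_app]
    exact Category.id_comp _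
  rw [h1, ← Category.assoc, ← Category.assoc, ← Functor.map_comp, ← Functor.map_comp, ns_tau]

private theorem nsE_eta (M : A) (F : A ⥤ A) [F.Additive] [PreservesFiniteLimits F]
    [PreservesFiniteColimits F] (η : 𝟭 A ⟶ F) :
    (derI η).app (Q.obj (nsK M)) = Q.map (nsMap (η.app M)) ≫ (nsE M F).hom := by
  rw [nsE_hom, derI_Q, ns_eta, Functor.map_comp, Category.assoc]

/-- `F` of an object in degree `0`; `e F` is natural in `F` -/
theorem exists_single (M : A) :
    ∃ e : ∀ (F : A ⥤ A) [F.Additive] [PreservesFiniteLimits F] [PreservesFiniteColimits F],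
        (singleFunctor A 0).obj (F.obj M) ≅ F.mapDerivedCategory.obj ((singleFunctor A 0).obj M),
      (∀ (F G : A ⥤ A) [F.Additive] [PreservesFiniteLimits F] [PreservesFiniteColimits F]
        [G.Additive] [PreservesFiniteLimits G] [PreservesFiniteColimits G] (τ : F ⟶ G),
        (e F).hom ≫ (derN τ).app ((singleFunctor A 0).obj M) =
          (singleFunctor A 0).map (τ.app M) ≫ (e G).hom) ∧
      (∀ (F : A ⥤ A) [F.Additive] [PreservesFiniteLimits F] [PreservesFiniteColimits F]
        (η : 𝟭 A ⟶ F), (derI η).app ((singleFunctor A 0).obj M) =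
          (singleFunctor A 0).map (η.app M) ≫ (e F).hom) :=
  ⟨fun F => nsE M F, fun F G => nsE_tau M F G, fun F => nsE_eta M F⟩

end Pool.Agent.OSP
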