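import Pool.Agent.OSP.MVd
import Pool.Agent.OSP.NatS

/-!
# OSP-MVe: the Mayer-Vietoris argument in the derived category: triangles

The formal argument `mv_split` is applied to the derived category; the hypotheses and the conclusion are
translated by means of the cohomology functors.
-/

open CategoryTheory CategoryTheory.Limits CategoryTheory.Pretriangulated DerivedCategory

namespace Pool.Agent.OSP

open Pool.Agent.BE

universe w v u

variable {A : Type u} [Category.{v} A] [Abelian A]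
  {J0 J1 J01 : A ⥤ A} [J0.Additive] [PreservesFiniteLimits J0] [PreservesFiniteColimits J0]
  [J1.Additive] [PreservesFiniteLimits J1] [PreservesFiniteColimits J1]
  [J01.Additive] [PreservesFiniteLimits J01] [PreservesFiniteColimits J01]
  [HasDerivedCategory.{w} A]

omit [J0.Additive] [PreservesFiniteLimits J0] [PreservesFiniteColimits J0]
  [J1.Additive] [PreservesFiniteLimits J1] [PreservesFiniteColimits J1]
  [J01.Additive] [PreservesFiniteLimits J01] [PreservesFiniteColimits J01]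
  [HasDerivedCategory.{w} A] in
private theorem mve_Gd_iso {ι0 : 𝟭 A ⟶ J0} {ι1 : 𝟭 A ⟶ J1} {ρ0 : J0 ⟶ J01} {ρ1 : J1 ⟶ J01}
    {w : ι0 ≫ ρ0 = ι1 ≫ ρ1} {M M' : A} (e : M ≅ M') (h : Gd ι0 ι1 ρ0 ρ1 w M) :
    Gd ι0 ι1 ρ0 ρ1 w M' := by
  refine ShortComplex.shortExact_of_iso (ShortComplex.isoMk e
    (biprod.mapIso (J0.mapIso e) (J1.mapIso e)) (J01.mapIso e) ?_ ?_) h
  · apply biprod.hom_ext
    · simp
      exact ι0.naturality e.hom
    · simp
      exact ι1.naturality e.hom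
  · apply biprod.hom_ext'
    · simp
    · simp

omit [PreservesFiniteLimits J0] [PreservesFiniteColimits J0]
  [PreservesFiniteLimits J1] [PreservesFiniteColimits J1]
  [PreservesFiniteLimits J01] [PreservesFiniteColimits J01]
  [HasDerivedCategory.{w} A] in
private theorem mve_Gd_zero {ι0 : 𝟭 A ⟶ J0} {ι1 : 𝟭 A ⟶ J1} {ρ0 : J0 ⟶ J01} {ρ1 : J1 ⟶ J01}
    {w : ι0 ≫ ρ0 = ι1 ≫ ρ1} {M : A} (h : IsZero M) : Gd ι0 ι1 ρ0 ρ1 w M := by
  have h0 : IsZero (J0.obj M) := J0.map_isZero h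
  have h1 : IsZero (J1.obj M) := J1.map_isZero h
  have h01 : IsZero (J01.obj M) := J01.map_isZero h
  have hb : IsZero (J0.obj M ⊞ J1.obj M) := by
    rw [IsZero.iff_id_eq_zero]
    apply biprod.hom_ext
    · exact h0.eq_of_tgt _ _
    · exact h1.eq_of_tgt _ _
  unfold Gd
  exact
    { exact := ShortComplex.exact_of_isZero_X₂ _ hb
      mono_f := ⟨fun _ _ _ => h.eq_of_tgt _ _⟩
      epi_g := ⟨fun _ _ _ => h01.eq_of_src _ _⟩ }

/-- the splitting condition on cohomology -/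
private theorem mve_spl_H (ι0 : 𝟭 A ⟶ J0) (ι1 : 𝟭 A ⟶ J1) (ρ0 : J0 ⟶ J01) (ρ1 : J1 ⟶ J01)
    (μ : J01 ⟶ J01) (X : DerivedCategory A)
    (h : Spl (derI ι0) (derI ι1) (derN ρ0) (derN ρ1) (derN μ) X) (n : ℤ) :
    Spl ι0 ι1 ρ0 ρ1 μ (Hn n X) := by
  obtain ⟨a0, a1, ha⟩ := h
  refine ⟨(homologyFunctor A n).map a0 ≫ (isoH J0 n).hom.app X,
    (homologyFunctor A n).map a1 ≫ (isoH J1 n).hom.app X, ?_⟩
  have e0 : ((homologyFunctor A n).map a0 ≫ (isoH J0 n).hom.app X) ≫ ρ0.app (Hn n X) =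
      (homologyFunctor A n).map (a0 ≫ (derN ρ0).app X) ≫ (isoH J01 n).hom.app X := by
    rw [Category.assoc, ← derN_H, Functor.map_comp, Category.assoc]
  have e1 : ((homologyFunctor A n).map a1 ≫ (isoH J1 n).hom.app X) ≫ ρ1.app (Hn n X) =
      (homologyFunctor A n).map (a1 ≫ (derN ρ1).app X) ≫ (isoH J01 n).hom.app X := by
    rw [Category.assoc, ← derN_H, Functor.map_comp, Category.assoc]
  rw [e0, e1, ← Preadditive.sub_comp, ← Functor.map_sub, ha, Functor.map_comp, Functor.map_comp,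
    Category.assoc, Category.assoc, derN_H, reassoc_of% (derN_H ρ0 n X),
    reassoc_of% (derI_H ι0 n X)]

/-- the splitting condition for an object in degree `0` -/
private theorem mve_spl_single (ι0 : 𝟭 A ⟶ J0) (ι1 : 𝟭 A ⟶ J1) (ρ0 : J0 ⟶ J01)
    (ρ1 : J1 ⟶ J01) (μ : J01 ⟶ J01) (M0 : A) (hs : Spl ι0 ι1 ρ0 ρ1 μ M0) :
    Spl (derI ι0) (derI ι1) (derN ρ0) (derN ρ1) (derN μ) ((singleFunctor A 0).obj M0) := by
  obtain ⟨a0, a1, ha⟩ := hs
  obtain ⟨e, he, he'⟩ := exists_single M0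
  refine ⟨(singleFunctor A 0).map a0 ≫ (e J0).hom, (singleFunctor A 0).map a1 ≫ (e J1).hom, ?_⟩
  rw [Category.assoc, Category.assoc, he J0 J01 ρ0, he J1 J01 ρ1, ← Functor.map_comp_assoc,
    ← Functor.map_comp_assoc, ← Preadditive.sub_comp, ← Functor.map_sub, ha, he' J0 ι0,
    Category.assoc, reassoc_of% (he J0 J01 ρ0), he J01 J01 μ, Functor.map_comp,
    Functor.map_comp, Category.assoc, Category.assoc]

/-- a morphism is an isomorphism after `J01` if this holds on cohomology -/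
private theorem mve_isIso_map {X Y : DerivedCategory A} (f : X ⟶ Y)
    (h : ∀ n, IsIso (J01.map ((homologyFunctor A n).map f))) :
    IsIso (J01.mapDerivedCategory.map f) := by
  rw [DerivedCategory.isIso_iff]
  intro n
  have h1 := (isoH J01 n).hom.naturality f
  have h2 : (homologyFunctor A n).map (J01.mapDerivedCategory.map f) =
      (isoH J01 n).hom.app X ≫ J01.map ((homologyFunctor A n).map f) ≫ (isoH J01 n).inv.app Y := by
    rw [← cancel_mono ((isoH J01 n).hom.app Y), Category.assoc, Category.assoc,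
      Iso.inv_hom_id_app]
    erw [Category.comp_id]
    exact h1
  rw [h2]
  have := h n
  infer_instance

theorem lemMV (ι0 : 𝟭 A ⟶ J0) (ι1 : 𝟭 A ⟶ J1) (ρ0 : J0 ⟶ J01) (ρ1 : J1 ⟶ J01)
    (w : ι0 ≫ ρ0 = ι1 ≫ ρ1) (μ : J01 ⟶ J01)
    (i0 : ∀ M, IsIso (J01.map (ρ0.app M))) (iι : ∀ M, IsIso ((ι0 ≫ ρ0).app (J01.obj M)))
    (M0 : A) (X Z : DerivedCategory A) (f : X ⟶ (singleFunctor A 0).obj M0)
    (g : (singleFunctor A 0).obj M0 ⟶ Z) (h : Z ⟶ X⟦(1 : ℤ)⟧)
    (hT : Triangle.mk f g h ∈ distTriang (DerivedCategory A))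
    (hX : ∀ n, Gd ι0 ι1 ρ0 ρ1 w (Hn n X)) (hZ : ∀ n, Gd ι0 ι1 ρ0 ρ1 w (Hn n Z))
    (hM : Gd ι0 ι1 ρ0 ρ1 w M0) (h0 : ∀ u : X ⟶ Z, u = 0) (hs : Spl ι0 ι1 ρ0 ρ1 μ M0) (n : ℤ) :
    Spl ι0 ι1 ρ0 ρ1 μ (Hn n X) ∧ Spl ι0 ι1 ρ0 ρ1 μ (Hn n Z) := by
  have hw : derI ι0 ≫ derN ρ0 = derI ι1 ≫ derN ρ1 := by
    rw [derI_comp, derI_comp, w]
  have hi0 : ∀ X : DerivedCategory A, IsIso (J01.mapDerivedCategory.map ((derN ρ0).app X)) := by
    intro X
    refine mve_isIso_map _ fun n => ?_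
    have h1 : (homologyFunctor A n).map ((derN ρ0).app X) =
        (isoH J0 n).hom.app X ≫ ρ0.app (Hn n X) ≫ (isoH J01 n).inv.app X := by
      rw [← cancel_mono ((isoH J01 n).hom.app X), derN_H, Category.assoc, Category.assoc,
        Iso.inv_hom_id_app]
      simp
    rw [h1, Functor.map_comp, Functor.map_comp]
    have := i0 (Hn n X)
    infer_instance
  have hiι : ∀ X : DerivedCategory A,
      IsIso ((derI ι0 ≫ derN ρ0).app (J01.mapDerivedCategory.obj X)) := by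
    intro X
    rw [derI_comp, DerivedCategory.isIso_iff]
    intro n
    have h1 := derI_H (ι0 ≫ ρ0) n (J01.mapDerivedCategory.obj X)
    have h2 := (ι0 ≫ ρ0).naturality ((isoH J01 n).hom.app X)
    have h3 := iι (Hn n X)
    have h4 : IsIso ((ι0 ≫ ρ0).app
        ((homologyFunctor A n).obj (J01.mapDerivedCategory.obj X))) := by
      have h5 : IsIso ((𝟭 A).map ((isoH J01 n).hom.app X) ≫ (ι0 ≫ ρ0).app
          (J01.obj (Hn n X))) := by
        have := h3
        infer_instance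
      have h6 : IsIso ((ι0 ≫ ρ0).app ((homologyFunctor A n).obj (J01.mapDerivedCategory.obj X)) ≫
          J01.map ((isoH J01 n).hom.app X)) := by
        exact (show _ = _ from h2) ▸ h5
      exact IsIso.of_isIso_comp_right _ (J01.map ((isoH J01 n).hom.app X))
    have h5 : IsIso ((homologyFunctor A n).map ((derI (ι0 ≫ ρ0)).app
        (J01.mapDerivedCategory.obj X)) ≫
        (isoH J01 n).hom.app (J01.mapDerivedCategory.obj X)) := by
      rw [h1]
      exact h4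
    exact IsIso.of_isIso_comp_right _ ((isoH J01 n).hom.app (J01.mapDerivedCategory.obj X))
  have gM : ∀ n, Gd ι0 ι1 ρ0 ρ1 w (Hn n ((singleFunctor A 0).obj M0)) := by
    intro n
    by_cases hn : n = 0
    · subst hn
      obtain ⟨e⟩ := Hn_single M0
      exact mve_Gd_iso e.symm hM
    · exact mve_Gd_zero (Hn_single_ne M0 n hn)
  obtain ⟨s1, s2⟩ := mv_split (derI ι0) (derI ι1) (derN ρ0) (derN ρ1) hw (derN μ) hi0 hiι
    (fun X => ∀ n, Gd ι0 ι1 ρ0 ρ1 w (Hn n X)) (fun X hX => mv_tri ι0 ι1 ρ0 ρ1 w X hX)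
    X ((singleFunctor A 0).obj M0) Z f g h hT hX gM hZ h0
    (mve_spl_single ι0 ι1 ρ0 ρ1 μ M0 hs)
  exact ⟨mve_spl_H ι0 ι1 ρ0 ρ1 μ X s1 n, mve_spl_H ι0 ι1 ρ0 ρ1 μ Z s2 n⟩

end Pool.Agent.OSP
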