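import Pool.Agent.OSP.RhoJ
import Pool.Agent.OSP.MVt
import Pool.Agent.BE.Aff
import Pool.Agent.BE.SuppJ
import Pool.Agent.BE.SkyS
import Pool.Agent.BE.Fam

/-!
# OSP-SplQ: the splitting condition for quasi-coherent modules

The components of a splitting, composed with the identification `M(U ∩ W) = M(U)` for `U ≤ W`, form a family of
endomorphisms. For a skyscraper sheaf the splitting is multiplication by the value of `g`.
-/

open CategoryTheory CategoryTheory.Limits AlgebraicGeometry Opposite TopologicalSpace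

namespace Pool.Agent.OSP

open Pool.Agent.BE

variable {S : Scheme.{0}}


private lemma sq_le_cap {W' : S.Opens} (h : AffInc W') (U : Aff S) (hU : U.1 ≤ W') : U ≤ cap h U :=
  (le_inf le_rfl hU : U.1 ≤ U.1 ⊓ W')

/-- `M(U ∩ W) = M(U)` -/
private noncomputable def sq_up {W' : S.Opens} (h : AffInc W') (M : QCoh S) (U : Aff S)
    (hU : U.1 ≤ W') : sec ((J h).obj M) U →ₗ[Γ(S, U.1)] sec M U where
  toFun m := res M (sq_le_cap h U hU) (jeq h M U m)
  map_add' a b := by simp only [map_add]
  map_smul' a m := by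
    rw [jeq_smul, PM.res_smul, rst_rst, rst_id]
    rfl

private lemma sq_up_res {W' : S.Opens} (h : AffInc W') (M : QCoh S) {V U : Aff S} (hU : U.1 ≤ W')
    (hV : V.1 ≤ W') (h' : V ≤ U) (m : sec ((J h).obj M) U) :
    res M h' (sq_up h M U hU m) = sq_up h M V hV (res ((J h).obj M) h' m) := by
  change M.obj.res h' (M.obj.res (sq_le_cap h U hU) (jeq h M U m)) =
    M.obj.res (sq_le_cap h V hV) (jeq h M V (res ((J h).obj M) h' m))
  rw [jeq_res, PM.res_res, PM.res_res]

/-- multiplication by the value of `g` on the skyscraper sheaf -/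
private noncomputable def sq_gam {Z : S.Opens} (g : Γ(S, Z)) (x : S)
    (hx : IsClosed ({x} : Set S)) (hxZ : x ∈ Z) : sky x hx ⟶ sky x hx :=
  mkHom (M := sky x hx) (N := sky x hx)
    (fun U =>
      { toFun := fun m => (skyeq x hx U).symm (fun h => ev x hxZ g * skyeq x hx U m h)
        map_add' := fun a b => by
          apply (skyeq x hx U).injective
          funext h
          change ev x hxZ g * (skyeq x hx U a h + skyeq x hx U b h) =
            ev x hxZ g * skyeq x hx U a h + ev x hxZ g * skyeq x hx U b h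
          rw [mul_add]
        map_smul' := fun a m => by
          apply (skyeq x hx U).injective
          funext h
          change ev x hxZ g * (ev x h.down a * skyeq x hx U m h) =
            ev x h.down a * (ev x hxZ g * skyeq x hx U m h)
          ring })
    (fun {V U} h m => rfl)

private lemma sq_gam_ap {Z : S.Opens} (g : Γ(S, Z)) (x : S)
    (hx : IsClosed ({x} : Set S)) (hxZ : x ∈ Z) (U : Aff S) (m : sec (sky x hx) U)
    (h : PLift (x ∈ U.1)) :
    skyeq x hx U (ap (sq_gam g x hx hxZ) U m) h = ev x hxZ g * skyeq x hx U m h := rfl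
theorem endFam_of_spl {W0 W1 : S.Opens} (h0 : AffInc W0) (h1 : AffInc W1) (g : Γ(S, W0 ⊓ W1))
    (M : QCoh S)
    (h : Spl (ιJ h0) (ιJ h1) (rJ (affInc_inf h0 h1) h0 inf_le_left)
      (rJ (affInc_inf h0 h1) h1 inf_le_right) (mJ (affInc_inf h0 h1) g) M) :
    Nonempty (EndFam W0 W1 g M) := by
  obtain ⟨a0, a1, hs⟩ := h
  refine ⟨{
    e0 := fun U hU => sq_up h0 M U hU ∘ₗ ap (N := (J h0).obj M) a0 U
    e1 := fun U hU => sq_up h1 M U hU ∘ₗ ap (N := (J h1).obj M) a1 U
    e0_res := fun {V U} h hU m => by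
      rw [LinearMap.comp_apply, LinearMap.comp_apply,
        sq_up_res h0 M hU (le_trans (show V.1 ≤ U.1 from h) hU) h, res_ap]
    e1_res := fun {V U} h hU m => by
      rw [LinearMap.comp_apply, LinearMap.comp_apply,
        sq_up_res h1 M hU (le_trans (show V.1 ≤ U.1 from h) hU) h, res_ap]
    diff := fun U hU m => ?_ }⟩
  have h01 := affInc_inf h0 h1
  have e1 : res M (cap_inc h01 h0 inf_le_left U) (jeq h0 M U (ap (N := (J h0).obj M) a0 U m)) -
      res M (cap_inc h01 h1 inf_le_right U) (jeq h1 M U (ap (N := (J h1).obj M) a1 U m)) =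
      rst (V := (cap h01 U).1) (inf_le_right : U.1 ⊓ (W0 ⊓ W1) ≤ W0 ⊓ W1) g •
        res M (cap_inc h01 h0 inf_le_left U) (res M (cap_le h0 U) m) :=
    congrArg (fun f : M ⟶ (J h01).obj M => jeq h01 M U (ap f U m)) hs
  have e2 := congrArg (fun z => res M (sq_le_cap h01 U hU) z) e1
  simp only [map_sub] at e2
  rw [PM.res_smul, rst_rst, PM.res_res, PM.res_res, PM.res_res, PM.res_res, PM.res_id] at e2
  exact e2


theorem spl_sky {W0 W1 : S.Opens} (h0 : AffInc W0) (h1 : AffInc W1) (g : Γ(S, W0 ⊓ W1))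
    (x : S) (hx : IsClosed ({x} : Set S)) :
    Spl (ιJ h0) (ιJ h1) (rJ (affInc_inf h0 h1) h0 inf_le_left)
      (rJ (affInc_inf h0 h1) h1 inf_le_right) (mJ (affInc_inf h0 h1) g) (sky x hx) := by
  by_cases hxW : x ∈ W0 ⊓ W1
  · refine ⟨sq_gam g x hx hxW ≫ (ιJ h0).app (sky x hx), 0, ?_⟩
    rw [zero_comp, sub_zero]
    apply qhom_ext
    intro U m
    apply (jeq (affInc_inf h0 h1) (sky x hx) U).injective
    apply (skyeq x hx (cap (affInc_inf h0 h1) U)).injective
    funext h
    have e1 : skyeq x hx (cap (affInc_inf h0 h1) U) (jeq (affInc_inf h0 h1) (sky x hx) U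
        (ap ((sq_gam g x hx hxW ≫ (ιJ h0).app (sky x hx)) ≫
          (rJ (affInc_inf h0 h1) h0 inf_le_left).app (sky x hx)) U m)) h =
        ev x hxW g * skyeq x hx U m ⟨h.down.1⟩ := rfl
    have e2 : skyeq x hx (cap (affInc_inf h0 h1) U) (jeq (affInc_inf h0 h1) (sky x hx) U
        (ap ((ιJ h0).app (sky x hx) ≫ (rJ (affInc_inf h0 h1) h0 inf_le_left).app (sky x hx) ≫
          (mJ (affInc_inf h0 h1) g).app (sky x hx)) U m)) h =
        ev x h.down (rst (V := (cap (affInc_inf h0 h1) U).1)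
          (inf_le_right : U.1 ⊓ (W0 ⊓ W1) ≤ W0 ⊓ W1) g) * skyeq x hx U m ⟨h.down.1⟩ := rfl
    refine e1.trans (Eq.trans ?_ e2.symm)
    rw [ev_rst]
  · refine ⟨0, 0, ?_⟩
    apply (J_zero (affInc_inf h0 h1) (sky x hx) ?_).eq_of_tgt
    intro s hs hsW
    rw [supp_sky] at hs
    have hs' : s = x := hs
    rw [hs'] at hsW
    exact hxW hsW


end Pool.Agent.OSP
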