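import Pool.Agent.OSP.GoodQ
import Pool.Agent.OSP.SplQ
import Pool.Agent.OSP.MVe
import Pool.Agent.BE.JEx
import Pool.Agent.BE.MainDefs

/-!
# OSP-MVq: a destabilising triangle supported in `W0 ∪ W1` gives families of endomorphisms
-/

open CategoryTheory CategoryTheory.Limits CategoryTheory.Pretriangulated AlgebraicGeometry
  Opposite TopologicalSpace DerivedCategory

namespace Pool.Agent.OSP

open Pool.Agent.BE

universe w

variable {S : Scheme.{0}}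

theorem endFam_of_tri [S.IsSeparated] [HasDerivedCategory.{w} (QCoh S)] (W0 W1 : Aff S)
    (c : Γ(S, W0.1 ⊓ W1.1)) (x : S) (hx : IsClosed ({x} : Set S)) (hxW : x ∈ W0.1 ∨ x ∈ W1.1)
    (X Z : DerivedCategory (QCoh S)) (f : X ⟶ Ox x hx) (g : Ox x hx ⟶ Z) (h : Z ⟶ X⟦(1 : ℤ)⟧)
    (hT : Triangle.mk f g h ∈ distTriang (DerivedCategory (QCoh S)))
    (hX : ∀ n, ∀ s ∈ Supp (Hn n X), s ∈ W0.1 ∨ s ∈ W1.1)
    (hZ : ∀ n, ∀ s ∈ Supp (Hn n Z), s ∈ W0.1 ∨ s ∈ W1.1)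
    (h0 : ∀ u : X ⟶ Z, u = 0) (n : ℤ) :
    Nonempty (EndFam W0.1 W1.1 c (Hn n X)) ∧ Nonempty (EndFam W0.1 W1.1 c (Hn n Z)) := by
  have a0 : AffInc W0.1 := affInc_of_affine W0
  have a1 : AffInc W1.1 := affInc_of_affine W1
  obtain ⟨h1, h2⟩ := lemMV (ιJ a0) (ιJ a1) (rJ (affInc_inf a0 a1) a0 inf_le_left)
    (rJ (affInc_inf a0 a1) a1 inf_le_right) (wJ a0 a1) (mJ (affInc_inf a0 a1) c)
    (iso_rJ a0 a1) (iso_ι a0 a1) (sky x hx) X Z f g h hT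
    (fun n => good_of_supp a0 a1 _ (hX n)) (fun n => good_of_supp a0 a1 _ (hZ n))
    (good_of_supp a0 a1 _ (fun s hs => by
      rw [supp_sky] at hs
      rw [Set.mem_singleton_iff.1 hs]
      exact hxW)) h0 (spl_sky a0 a1 c x hx) n
  exact ⟨endFam_of_spl a0 a1 c _ h1, endFam_of_spl a0 a1 c _ h2⟩

end Pool.Agent.OSP
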