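import Pool.Agent.OSP.GEnd
import Pool.Agent.OSP.GProj
import Pool.Agent.OSP.IsoDefs

/-!
# OSP-NoR: a surface isogenous to a product of curves of positive genus contains no rational curve
-/

open CategoryTheory CategoryTheory.Limits AlgebraicGeometry Opposite TopologicalSpace

namespace Pool.Agent.OSP

open Pool.Agent.BE

theorem noRat_of_isog (B : IsogSurface) : NoRat B.S := by
  intro d hη hc
  have hE := B.hE.int
  have hF := B.hF.int
  have h1 := B.finite
  have h2 := B.etale
  obtain ⟨x, hx⟩ := B.surj.1 d
  have hx' : B.π.base x = d := hx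
  subst hx'
  have hcl : ¬ IsClosed ({x} : Set (pullback B.sE B.sF : Scheme.{0})) := by
    intro h
    apply hc
    have h3 : IsClosedMap B.π.base := B.π.isClosedMap
    have h4 := h3 _ h
    rwa [Set.image_singleton] at h4
  by_cases hxE : (pullback.fst B.sE B.sF).base x = genericPoint B.E
  · exact posPt_of_map B.sS B.hS B.dimS B.π B.sE B.hE B.gE (pullback.fst B.sE B.sF) B.overπ.symm x
      hη hc hxE
  · by_cases hxF : (pullback.snd B.sE B.sF).base x = genericPoint B.F
    · refine posPt_of_map B.sS B.hS B.dimS B.π B.sF B.hF B.gF (pullback.snd B.sE B.sF) ?_ x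
        hη hc hxF
      rw [B.overπ, pullback.condition]
    · exact absurd (closed_of_proj B.sE B.sF B.hE B.hF x hxE hxF) hcl

end Pool.Agent.OSP
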