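import Pool.Agent.OSP.DedV

/-!
# OSP-RatF: a function with one simple pole, in the coordinate ring of the small chart

Notation: `B0`, `B01` the integral closures of `R0`, `R01` in `K` (`B0 ⊆ B01`). (1) CONDUCTOR: `B01` is a finite `R01`-module
(`CurveAlg.ded`) inside the fraction field of `R01`, so there is `0 ≠ c' ∈ R01` with `c' B01 ⊆ R01`; write `c' = a/b` with
`a, b ∈ R0` (`h0.frac`); `c := a = b c'` satisfies `0 ≠ c ∈ R0`, `c B01 ⊆ b R01 ⊆ R01`. (2) `P B01 = B01`: `hP1` gives `r ∈ R1`,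
`r ∉ O`; so `r⁻¹` is in the maximal ideal of `O`: `r⁻¹ = a/s` with `a ∈ P`, `s ∉ P` (`hO`: `r⁻¹ ∈ O` gives `a`, `s` with `s ∉ P`,
and `a ∉ P` would give `r = s/a ∈ O`). `s = a r`, and `u s - 1 ∈ P` for some `u ∈ B0` (`P` maximal), so `1 ∈ P B01` (`r ∈ R1 ⊆ R01`).
Hence `1 ∈ P^{k+1} B01` for all `k`. (3) In the Dedekind domain `B0` write `(c) = P^k I'` with `I' ⊄ P`
(`P` is prime and nonzero; `exists_eq_pow_mul_and_not_dvd` for `P` and `Ideal.span {c}`, `Ideal.dvd_iff_le`). Choose `π ∈ P \ P²`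
(`P² ≠ P`), `(π) = P J` with `J ⊄ P` (again by divisibility: `P ∣ (π)`, `P² ∤ (π)`), `j ∈ J \ P`, `i ∈ I' \ P`, and
`f := i j / π`. For `p ∈ P`: `j p ∈ J P = (π)`, so `p f ∈ i B0 ⊆ I'`. (4) `f ∉ O`: `π f = i j`; if `f ∈ O` then
`i j ∈ 𝔪_O ∩ B0 = P` (an element `π ∈ P` is a nonunit of `O`: `π⁻¹ = a/s`, `s ∉ P` would give `s = a π ∈ P`), contradiction.
(5) `f ∈ R01`: `f ∈ f · P^{k+1} B01 ⊆ I' P^k B01 = c B01 ⊆ R01`. (6) For `b ∈ P`: `b f ∈ I' ⊆ B0 ⊆ O`. (7) for every
valuation subring `O'` containing `R0` with `O' ≠ O`: if `O' = ⊤` clear; otherwise `val_loc`: `O' = B0_Q`, `Q ≠ P` (`loc_unique`),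
there is `p ∈ P \ Q`, `f = (p f)/p ∈ B0_Q`.
-/

namespace Pool.Agent.OSP

variable {K : Type} [Field K] [Algebra ℂ K]

private theorem rf_den (R01 : Subalgebra ℂ K) (h01 : CurveAlg R01) (s : Finset K) :
    ∃ c ∈ R01, c ≠ 0 ∧ ∀ x ∈ s, x * c ∈ R01 := by
  classical
  induction s using Finset.induction_on with
  | empty => exact ⟨1, R01.one_mem, one_ne_zero, fun x hx => absurd hx (Finset.notMem_empty x)⟩
  | insert y s _ ih =>
    obtain ⟨c, hc, hc0, hcs⟩ := ih
    obtain ⟨a, ha, b, hb, hb0, hab⟩ := h01.frac y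
    refine ⟨b * c, R01.mul_mem hb hc, mul_ne_zero hb0 hc0, fun x hx => ?_⟩
    rcases Finset.mem_insert.1 hx with rfl | hx
    · rw [← mul_assoc, hab]
      exact R01.mul_mem ha hc
    · have h1 : x * (b * c) = b * (x * c) := by ring
      rw [h1]
      exact R01.mul_mem hb (hcs x hx)

private theorem rf_cond (R01 : Subalgebra ℂ K) (h01 : CurveAlg R01) :
    ∃ c ∈ R01, c ≠ 0 ∧ ∀ x ∈ integralClosure R01 K, x * c ∈ R01 := by
  classical
  obtain ⟨-, -, hfin⟩ := h01.ded
  obtain ⟨s, hs⟩ := hfin.fg_top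
  obtain ⟨c, hc, hc0, hcs⟩ := rf_den R01 h01 (s.image Subtype.val)
  refine ⟨c, hc, hc0, fun x hx => ?_⟩
  have h1 : (⟨x, hx⟩ : integralClosure R01 K) ∈ Submodule.span R01 (s : Set _) := by
    rw [hs]
    exact Submodule.mem_top
  have h2 : ∀ y : integralClosure R01 K, y ∈ Submodule.span R01 (s : Set _) →
      (y : K) * c ∈ R01 := by
    intro y hy
    induction hy using Submodule.span_induction with
    | mem y hy => exact hcs _ (Finset.mem_image_of_mem _ hy)
    | zero =>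
      rw [ZeroMemClass.coe_zero, zero_mul]
      exact R01.zero_mem
    | add y z _ _ hy hz =>
      rw [AddMemClass.coe_add, add_mul]
      exact R01.add_mem hy hz
    | smul r y _ hy =>
      have h3 : ((r • y : integralClosure R01 K) : K) = (r : K) * y := rfl
      rw [h3, mul_assoc]
      exact R01.mul_mem r.2 hy
  exact h2 _ h1

private theorem rf_cond2 (R0 R01 : Subalgebra ℂ K) (h0 : CurveAlg R0) (h01 : CurveAlg R01)
    (le0 : R0 ≤ R01) :
    ∃ c ∈ R0, c ≠ 0 ∧ ∀ x ∈ integralClosure R01 K, c * x ∈ R01 := by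
  obtain ⟨c', -, hc0, hc⟩ := rf_cond R01 h01
  obtain ⟨a, ha, b, hb, hb0, hab⟩ := h0.frac c'
  refine ⟨a, ha, ?_, fun x hx => ?_⟩
  · rw [← hab]
    exact mul_ne_zero hc0 hb0
  · have h1 : a * x = b * (x * c') := by
      rw [← hab]
      ring
    rw [h1]
    exact R01.mul_mem (le0 hb) (hc x hx)

private theorem rf_int {R0 R01 : Subalgebra ℂ K} (le0 : R0 ≤ R01) (x : K)
    (hx : x ∈ integralClosure R0 K) : x ∈ integralClosure R01 K :=
  IsIntegral.map_of_comp_eq (Subalgebra.inclusion le0).toRingHom (RingHom.id K) rfl hx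

/-- the inclusion of the integral closures -/
private def rf_inc {R0 R01 : Subalgebra ℂ K} (le0 : R0 ≤ R01) :
    integralClosure R0 K →+* integralClosure R01 K where
  toFun x := ⟨x, rf_int le0 x x.2⟩
  map_one' := rfl
  map_mul' _ _ := rfl
  map_zero' := rfl
  map_add' _ _ := rfl

theorem exists_pole (R0 R1 R01 : Subalgebra ℂ K) (h0 : CurveAlg R0) (h01 : CurveAlg R01)
    (le0 : R0 ≤ R01) (le1 : R1 ≤ R01) (P : Ideal (integralClosure R0 K)) (hP : P.IsMaximal)
    (hP0 : P ≠ ⊥) (O : ValuationSubring K) (hO : IsLocAt R0 P O) (hP1 : ¬ ∀ r ∈ R1, r ∈ O) :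
    ∃ f ∈ R01, f ∉ O ∧ (∀ b : integralClosure R0 K, b ∈ P → (b : K) * f ∈ O) ∧
      ∀ O' : ValuationSubring K, (∀ r ∈ R0, r ∈ O') → O' ≠ O → f ∈ O' := by
  classical
  obtain ⟨hD, hF, -⟩ := h0.ded
  have hPp : P.IsPrime := hP.isPrime
  have hPt : P ≠ ⊤ := hP.ne_top
  obtain ⟨c, hc, hc0, hcond⟩ := rf_cond2 R0 R01 h0 h01 le0
  -- `P B01 = B01`
  have htop : Ideal.map (rf_inc le0) P = ⊤ := by
    push Not at hP1
    obtain ⟨r, hr, hrO⟩ := hP1
    have hr0 : r ≠ 0 := by
      rintro rfl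
      exact hrO O.zero_mem
    have hrinv : r⁻¹ ∈ O := (O.mem_or_inv_mem r).resolve_left hrO
    obtain ⟨a, s, hs, has⟩ := (hO _).1 hrinv
    have haP : a ∈ P := by
      by_contra haP
      apply hrO
      refine (hO r).2 ⟨s, a, haP, ?_⟩
      rw [← has, ← mul_assoc, mul_inv_cancel₀ hr0, one_mul]
    have hsar : (s : K) = a * r := by
      rw [← has]
      field_simp
    obtain ⟨u, hu⟩ := hP.exists_inv hs
    rw [Ideal.eq_top_iff_one]
    obtain ⟨q, hq, huq⟩ := hu
    have hrI : r ∈ integralClosure R01 K :=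
      (integralClosure R01 K).algebraMap_mem ⟨r, le1 hr⟩
    have h1 : (1 : integralClosure R01 K) =
        rf_inc le0 a * (rf_inc le0 u * ⟨r, hrI⟩) + rf_inc le0 q := by
      apply Subtype.ext
      have h2 : ((u : K) * s + q) = 1 := by
        have := congrArg (fun z : integralClosure R0 K => (z : K)) huq
        exact this
      show (1 : K) = (a : K) * (u * r) + q
      rw [← h2, hsar]
      ring
    rw [h1]
    exact Ideal.add_mem _ (Ideal.mul_mem_right _ _ (Ideal.mem_map_of_mem _ haP))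
      (Ideal.mem_map_of_mem _ hq)
  -- factorizations
  obtain ⟨cB, hcB⟩ : ∃ cB : integralClosure R0 K, (cB : K) = c :=
    ⟨⟨c, (integralClosure R0 K).algebraMap_mem ⟨c, hc⟩⟩, rfl⟩
  have hcB0 : cB ≠ 0 := by
    rintro rfl
    exact hc0 hcB.symm
  have hunit : ¬ IsUnit P := by
    rw [Ideal.isUnit_iff]
    exact hPt
  have hspan0 : Ideal.span {cB} ≠ (0 : Ideal (integralClosure R0 K)) := by
    rw [Ne, Ideal.zero_eq_bot, Ideal.span_singleton_eq_bot]
    exact hcB0
  obtain ⟨I', hI1, hI2⟩ :=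
    (FiniteMultiplicity.of_not_isUnit hunit hspan0).exists_eq_pow_mul_and_not_dvd
  obtain ⟨k, hk⟩ : ∃ k, k = multiplicity P (Ideal.span {cB}) := ⟨_, rfl⟩
  rw [← hk] at hI1
  obtain ⟨π, hπ1, hπ2⟩ := Ideal.exists_mem_pow_notMem_pow_succ P hP0 hPt 1
  rw [pow_one] at hπ1
  obtain ⟨J, hJ⟩ := Ideal.dvd_span_singleton.2 hπ1
  have hJP : ¬ P ∣ J := by
    rintro ⟨J', rfl⟩
    apply hπ2
    rw [← Ideal.dvd_span_singleton, hJ, pow_succ, pow_one, ← mul_assoc]
    exact dvd_mul_right _ _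
  rw [Ideal.dvd_iff_le] at hI2 hJP
  obtain ⟨i, hiI, hiP⟩ := Set.not_subset.1 hI2
  obtain ⟨j, hjJ, hjP⟩ := Set.not_subset.1 hJP
  have hπ0 : (π : K) ≠ 0 := by
    intro h
    apply hπ2
    have : π = 0 := Subtype.ext h
    rw [this]
    exact Ideal.zero_mem _
  obtain ⟨f, hf⟩ : ∃ f : K, f = i * j / π := ⟨_, rfl⟩
  have hπf : (π : K) * f = i * j := by
    rw [hf]
    field_simp
  have hPf : ∀ p ∈ P, ∃ t ∈ I', (p : K) * f = ((t : integralClosure R0 K) : K) := by
    intro p hp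
    have h1 : p * j ∈ Ideal.span {π} := by
      rw [hJ]
      exact Ideal.mul_mem_mul hp hjJ
    obtain ⟨t, ht⟩ := Ideal.mem_span_singleton'.1 h1
    refine ⟨t * i, Ideal.mul_mem_left _ _ hiI, ?_⟩
    have h2 : (t : K) * π = p * j := congrArg (fun z : integralClosure R0 K => (z : K)) ht
    apply mul_left_cancel₀ hπ0
    show (π : K) * (p * f) = π * (t * i)
    calc (π : K) * (p * f) = p * (π * f) := by ring
      _ = (p * j) * i := by rw [hπf]; ring
      _ = π * (t * i) := by rw [← h2]; ring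
  have hBO : ∀ b : integralClosure R0 K, (b : K) ∈ O := by
    intro b
    refine (hO _).2 ⟨b, 1, ?_, ?_⟩
    · intro h
      exact hPt ((Ideal.eq_top_iff_one P).2 h)
    · show (b : K) * 1 = b
      rw [mul_one]
  refine ⟨f, ?_, ?_, ?_, ?_⟩
  · have hmap : Ideal.map (rf_inc le0) (P ^ (k + 1)) = ⊤ := by
      rw [Ideal.map_pow, htop, Ideal.top_pow]
    have hq : ∀ q ∈ P ^ (k + 1), ∃ z : integralClosure R0 K, f * (q : K) = c * (z : K) := by
      intro q hq
      rw [pow_succ'] at hq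
      refine Submodule.mul_induction_on hq ?_ ?_
      · intro p hp p' hp'
        obtain ⟨t, ht, hpt⟩ := hPf p hp
        have h1 : p' * t ∈ Ideal.span {cB} := by
          rw [hI1]
          exact Ideal.mul_mem_mul hp' ht
        obtain ⟨z, hz⟩ := Ideal.mem_span_singleton'.1 h1
        refine ⟨z, ?_⟩
        have h2 : (z : K) * cB = p' * t := congrArg (fun z : integralClosure R0 K => (z : K)) hz
        show f * ((p : K) * p') = c * z
        calc f * ((p : K) * p') = p' * (p * f) := by ring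
          _ = c * z := by rw [hpt, ← h2, hcB]; ring
      · rintro x y ⟨z, hz⟩ ⟨w, hw⟩
        refine ⟨z + w, ?_⟩
        show f * ((x : K) + y) = c * (z + w)
        rw [mul_add, mul_add, hz, hw]
    have hy : ∀ y ∈ Ideal.map (rf_inc le0) (P ^ (k + 1)),
        ∃ z : integralClosure R01 K, f * (y : K) = c * (z : K) := by
      intro y hy
      refine Submodule.span_induction ?_ ?_ ?_ ?_ hy
      · rintro _ ⟨q, hq', rfl⟩
        obtain ⟨z, hz⟩ := hq q hq'
        exact ⟨rf_inc le0 z, hz⟩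
      · exact ⟨0, by show f * 0 = c * 0; rw [mul_zero, mul_zero]⟩
      · rintro x y _ _ ⟨z, hz⟩ ⟨w, hw⟩
        refine ⟨z + w, ?_⟩
        show f * ((x : K) + y) = c * (z + w)
        rw [mul_add, mul_add, hz, hw]
      · rintro r x _ ⟨z, hz⟩
        refine ⟨r * z, ?_⟩
        show f * ((r : K) * x) = c * (r * z)
        calc f * ((r : K) * x) = r * (f * x) := by ring
          _ = c * (r * z) := by rw [hz]; ring
    obtain ⟨z, hz⟩ := hy 1 (by rw [hmap]; exact Submodule.mem_top)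
    have h1 : f = c * (z : K) := by
      rw [← hz]
      show f = f * 1
      rw [mul_one]
    rw [h1]
    exact hcond z z.2
  · intro hfO
    obtain ⟨a, b, hb, hab⟩ := (hO f).1 hfO
    have h1 : i * j * b = π * a := by
      apply Subtype.ext
      show (i : K) * j * b = π * a
      rw [← hab, ← hπf]
      ring
    have h2 : i * j * b ∈ P := by
      rw [h1]
      exact Ideal.mul_mem_right _ _ hπ1
    rcases hPp.mem_or_mem h2 with h3 | h3
    · rcases hPp.mem_or_mem h3 with h4 | h4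
      · exact hiP h4
      · exact hjP h4
    · exact hb h3
  · intro b hb
    obtain ⟨t, -, ht⟩ := hPf b hb
    rw [ht]
    exact hBO t
  · intro O' hO' hne
    by_cases htopO : O' = ⊤
    · rw [htopO]
      exact ValuationSubring.mem_top f
    · obtain ⟨Q, hQ, -, hOQ⟩ := val_loc h0 O' hO' htopO
      have hPQ : ¬ P ≤ Q := by
        intro h
        have h1 : P = Q := hP.eq_of_le hQ.ne_top h
        rw [← h1] at hOQ
        exact hne (loc_unique P O' O hOQ hO)
      obtain ⟨p, hp, hpQ⟩ := Set.not_subset.1 hPQ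
      obtain ⟨t, -, ht⟩ := hPf p hp
      exact (hOQ f).2 ⟨t, p, hpQ, by rw [mul_comm]; exact ht⟩

end Pool.Agent.OSP
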