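import Pool.Agent.BE.Glue0

/-!
# OSP-RhoJ: the natural transformations `J_W → J_W'` (restriction) and `J_W → J_W` (multiplication)
-/

open CategoryTheory CategoryTheory.Limits AlgebraicGeometry Opposite TopologicalSpace

namespace Pool.Agent.OSP

open Pool.Agent.BE

variable {S : Scheme.{0}}

/-- the restriction `J_W → J_W'` for `W' ≤ W` -/
noncomputable def rJ {W' W : S.Opens} (h' : AffInc W') (h : AffInc W) (hle : W' ≤ W) :
    J h ⟶ J h' where
  app M := mkHom (M := (J h).obj M) (N := (J h').obj M) (fun U => jres h' h hle M U)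
    (fun {V U} hVU m => by
      change M.obj.res (cap_mono h' hVU) (M.obj.res (cap_inc h' h hle U) (jeq h M U m)) =
        M.obj.res (cap_inc h' h hle V) (M.obj.res (cap_mono h hVU) (jeq h M U m))
      rw [PM.res_res, PM.res_res])
  naturality M N f := by
    apply qhom_ext
    intro U m
    apply (jeq h' N U).injective
    exact res_ap f (cap_inc h' h hle U) (jeq h M U m)

lemma ap_rJ {W' W : S.Opens} (h' : AffInc W') (h : AffInc W) (hle : W' ≤ W) (M : QCoh S)
    (U : Aff S) (m : sec ((J h).obj M) U) :
    jeq h' M U (ap ((rJ h' h hle).app M) U m) = res M (cap_inc h' h hle U) (jeq h M U m) := rfl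

/-- multiplication by a function on `W` on `J_W M` -/
noncomputable def mJ {W : S.Opens} (h : AffInc W) (g : Γ(S, W)) : J h ⟶ J h where
  app M := mkHom (M := (J h).obj M) (N := (J h).obj M) (fun U => jmul h g M U)
    (fun {V U} hVU m => by
      change M.obj.res (cap_mono h hVU) (rst (V := (cap h U).1) (inf_le_right : U.1 ⊓ W ≤ W) g •
          jeq h M U m) =
        rst (V := (cap h V).1) (inf_le_right : V.1 ⊓ W ≤ W) g •
          M.obj.res (cap_mono h hVU) (jeq h M U m)
      rw [PM.res_smul]
      have h2 : rst (V := (cap h V).1) (cap_mono h hVU)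
          (rst (V := (cap h U).1) (inf_le_right : U.1 ⊓ W ≤ W) g) =
          rst (V := (cap h V).1) (inf_le_right : V.1 ⊓ W ≤ W) g :=
        rst_rst (W := (cap h V).1) (V := (cap h U).1) (inf_le_right : U.1 ⊓ W ≤ W)
          (cap_mono h hVU) g
      exact congrArg (fun r => r • M.obj.res (cap_mono h hVU) (jeq h M U m)) h2)
  naturality M N f := by
    apply qhom_ext
    intro U m
    apply (jeq h N U).injective
    change rst (V := (cap h U).1) (inf_le_right : U.1 ⊓ W ≤ W) g •
        ap f (cap h U) (jeq h M U m) =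
      ap f (cap h U) (rst (V := (cap h U).1) (inf_le_right : U.1 ⊓ W ≤ W) g • jeq h M U m)
    rw [map_smul]

lemma ap_mJ {W : S.Opens} (h : AffInc W) (g : Γ(S, W)) (M : QCoh S) (U : Aff S)
    (m : sec ((J h).obj M) U) :
    jeq h M U (ap ((mJ h g).app M) U m) =
      rst (V := (cap h U).1) (inf_le_right : U.1 ⊓ W ≤ W) g • jeq h M U m := rfl

lemma ι_rJ {W' W : S.Opens} (h' : AffInc W') (h : AffInc W) (hle : W' ≤ W) :
    ιJ h ≫ rJ h' h hle = ιJ h' := by
  apply NatTrans.ext
  funext M
  apply qhom_ext
  intro U m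
  apply (jeq h' M U).injective
  change M.obj.res (cap_inc h' h hle U) (M.obj.res (cap_le h U) m) = M.obj.res (cap_le h' U) m
  rw [PM.res_res]

end Pool.Agent.OSP
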