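import Pool.Agent.OSP.Deg

/-!
# OSP-SlD: the generic degree of the objects of one slice
-/

open CategoryTheory CategoryTheory.Limits CategoryTheory.Pretriangulated AlgebraicGeometry
  Opposite TopologicalSpace DerivedCategory

namespace Pool.Agent.OSP

open Pool.Agent.BE

universe w

variable {S : Scheme.{0}}

theorem slice_deg [IsNoetherian S] [S.IsSeparated] [IsIntegral S]
    [HasDerivedCategory.{w} (QCoh S)] (hg : ¬ IsClosed ({genericPoint S} : Set S))
    (σ : StabCond (Dbc S)) (z : S) (hz : IsClosed ({z} : Set S))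
    (hd : ringKrullDim (S.presheaf.stalk z) ≤ 2) (φ : ℝ)
    (hP : σ.StableOf φ (Ox z hz)) (m : ℤ) (X : DerivedCategory (QCoh S)) (hX : σ.P (φ + m) X)
    (n : ℤ) (hn : n ≠ -m - 1) : genericPoint S ∉ Supp (Hn n X) := by
  have base : ∀ Y : DerivedCategory (QCoh S), σ.P φ Y → ∀ n : ℤ, n ≠ -1 →
      genericPoint S ∉ Supp (Hn n Y) := by
    intro Y hY
    refine P_induction σ φ (fun Y => ∀ n : ℤ, n ≠ -1 → genericPoint S ∉ Supp (Hn n Y))
      ?_ ?_ ?_ Y hY
    · intro X hX n _
      have h1 : Supp (Hn n X) = ∅ :=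
        (isZero_iff_supp _).1 ((homologyFunctor (QCoh S) n).map_isZero hX)
      rw [h1]
      exact Set.notMem_empty _
    · intro A X B f g h hT _ hA _ hB n hn hg'
      rcases supp_tri f g h hT n hg' with h1 | h1
      · exact hA n hn h1
      · exact hB n hn h1
    · intro X hX n hn hg'
      by_cases hiso : Nonempty (X ≅ Ox z hz)
      · obtain ⟨e⟩ := hiso
        have h1 : Supp (Hn n X) = Supp (Hn n (Ox z hz)) :=
          supp_of_iso ((homologyFunctor (QCoh S) n).mapIso e)
        rw [h1] at hg'
        have h2 : genericPoint S = z := supp_Ox z hz n hg'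
        rw [h2] at hg
        exact hg hz
      · exact stable_deg σ z hz hd φ hP X hX hiso n hn (supp_generic _ hg' z)
  have h1 : σ.P φ (X⟦-m⟧) := by
    have h0 := (σ.P_shift_int (φ + m) (-m) X).1 hX
    push_cast at h0
    rwa [add_neg_cancel_right] at h0
  have h2 := base _ h1 (n + m) (by omega)
  rw [supp_shift] at h2
  have e : n + m + -m = n := by ring
  rwa [e] at h2

end Pool.Agent.OSP
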