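import Pool.Agent.BE.DbcT
import Pool.Agent.BE.PhO

/-!
# OSP-SupT: supports in a triangle whose middle term vanishes near `s`

`supp_tri_iff`: `supp_tri` for the rotated triangles `Y → Z → X⟦1⟧` and `Z → X⟦1⟧ → Y⟦1⟧` (`rot_of_distTriang`),
`supp_shift`. `supp_Ox`: copy of `phf_supp_Ox` in `Pool/Agent/BE/PhF.lean`. `supp_generic`: `supp_closed`,
`genericPoint_specializes`. `bdd`: the degrees `n` with `s ∈ Supp (Hn n X)` are bounded (`Dbc`, `isZero_iff_supp`).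
-/

open CategoryTheory CategoryTheory.Limits CategoryTheory.Pretriangulated AlgebraicGeometry
  Opposite TopologicalSpace DerivedCategory

namespace Pool.Agent.OSP

open Pool.Agent.BE

universe w

variable {S : Scheme.{0}}

private theorem rot1 [HasDerivedCategory.{w} (QCoh S)] {X Y Z : DerivedCategory (QCoh S)}
    (f : X ⟶ Y) (g : Y ⟶ Z) (h : Z ⟶ X⟦(1 : ℤ)⟧)
    (hT : Triangle.mk f g h ∈ distTriang (DerivedCategory (QCoh S))) (n : ℤ) :
    Supp (Hn n Z) ⊆ Supp (Hn n Y) ∪ Supp (Hn (n + 1) X) := by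
  have h1 := supp_tri _ _ _ (rot_of_distTriang _ hT) n
  have h2 : Supp (Hn n (X⟦(1 : ℤ)⟧)) = Supp (Hn (n + 1) X) := supp_shift X n 1
  rw [← h2]
  exact h1

private theorem rot2 [HasDerivedCategory.{w} (QCoh S)] {X Y Z : DerivedCategory (QCoh S)}
    (f : X ⟶ Y) (g : Y ⟶ Z) (h : Z ⟶ X⟦(1 : ℤ)⟧)
    (hT : Triangle.mk f g h ∈ distTriang (DerivedCategory (QCoh S))) (n : ℤ) :
    Supp (Hn (n + 1) X) ⊆ Supp (Hn n Z) ∪ Supp (Hn (n + 1) Y) := by
  have h1 := supp_tri _ _ _ (rot_of_distTriang _ (rot_of_distTriang _ hT)) n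
  have h2 : Supp (Hn n (X⟦(1 : ℤ)⟧)) = Supp (Hn (n + 1) X) := supp_shift X n 1
  have h3 : Supp (Hn n (Y⟦(1 : ℤ)⟧)) = Supp (Hn (n + 1) Y) := supp_shift Y n 1
  rw [← h2, ← h3]
  exact h1

theorem supp_tri_iff [HasDerivedCategory.{w} (QCoh S)] {X Y Z : DerivedCategory (QCoh S)}
    (f : X ⟶ Y) (g : Y ⟶ Z) (h : Z ⟶ X⟦(1 : ℤ)⟧)
    (hT : Triangle.mk f g h ∈ distTriang (DerivedCategory (QCoh S))) (s : S)
    (hs : ∀ n, s ∉ Supp (Hn n Y)) (n : ℤ) :
    s ∈ Supp (Hn n Z) ↔ s ∈ Supp (Hn (n + 1) X) := by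
  constructor
  · intro h1
    rcases rot1 f g h hT n h1 with h2 | h2
    · exact absurd h2 (hs n)
    · exact h2
  · intro h1
    rcases rot2 f g h hT n h1 with h2 | h2
    · exact h2
    · exact absurd h2 (hs (n + 1))

/-- the same when the third term vanishes near `s` -/
theorem supp_tri_iff₃ [HasDerivedCategory.{w} (QCoh S)] {X Y Z : DerivedCategory (QCoh S)}
    (f : X ⟶ Y) (g : Y ⟶ Z) (h : Z ⟶ X⟦(1 : ℤ)⟧)
    (hT : Triangle.mk f g h ∈ distTriang (DerivedCategory (QCoh S))) (s : S)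
    (hs : ∀ n, s ∉ Supp (Hn n Z)) (n : ℤ) :
    s ∈ Supp (Hn n X) ↔ s ∈ Supp (Hn n Y) := by
  constructor
  · intro h1
    have h4 := rot2 f g h hT (n - 1)
    rw [sub_add_cancel] at h4
    rcases h4 h1 with h2 | h2
    · exact absurd h2 (hs (n - 1))
    · exact h2
  · intro h1
    rcases supp_tri f g h hT n h1 with h2 | h2
    · exact h2
    · exact absurd h2 (hs n)

/-- third term -/
theorem supp_tri₃ [HasDerivedCategory.{w} (QCoh S)] {X Y Z : DerivedCategory (QCoh S)}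
    (f : X ⟶ Y) (g : Y ⟶ Z) (h : Z ⟶ X⟦(1 : ℤ)⟧)
    (hT : Triangle.mk f g h ∈ distTriang (DerivedCategory (QCoh S))) (n : ℤ) :
    Supp (Hn n Z) ⊆ Supp (Hn n Y) ∪ Supp (Hn (n + 1) X) :=
  rot1 f g h hT n

theorem supp_Ox [HasDerivedCategory.{w} (QCoh S)] (x : S) (hx : IsClosed ({x} : Set S))
    (n : ℤ) : Supp (Hn n (Ox x hx)) ⊆ {x} := by
  by_cases hn : n = 0
  · subst hn
    obtain ⟨e⟩ := Hn_single (sky x hx)
    have h1 : Supp (Hn 0 (Ox x hx)) = Supp (sky x hx) := supp_of_iso e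
    rw [h1, supp_sky]
  · have h1 : Supp (Hn n (Ox x hx)) = ∅ := (isZero_iff_supp _).1 (Hn_single_ne (sky x hx) n hn)
    rw [h1]
    exact Set.empty_subset _

theorem supp_generic [IsIntegral S] (M : QCoh S) (h : genericPoint S ∈ Supp M) (s : S) :
    s ∈ Supp M := by
  have h4 : genericPoint S ⤳ s := genericPoint_specializes s
  exact h4.mem_closed (supp_closed M) h

theorem bdd [HasDerivedCategory.{w} (QCoh S)] (X : DerivedCategory (QCoh S)) (hX : Dbc S X) :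
    ∃ a b : ℤ, ∀ (s : S) (n : ℤ), s ∈ Supp (Hn n X) → a ≤ n ∧ n ≤ b := by
  obtain ⟨-, a, b, hab⟩ := hX
  refine ⟨a, b, fun s n hs => ?_⟩
  by_contra hcon
  have h5 : n < a ∨ b < n := by omega
  rw [(isZero_iff_supp _).1 (hab n h5)] at hs
  exact hs

end Pool.Agent.OSP
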