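import Pool.Agent.OSP.DedV

/-! # OSP-UnrA: valuation subrings of `ℂ(t)` -/

namespace Pool.Agent.OSP

open Polynomial

variable {K : Type} [Field K] [Algebra ℂ K]

private theorem nz {t : K} (ht : t ∉ (algebraMap ℂ K).range) {s : ℂ[X]} (hs : s ≠ 0) :
    aeval t s ≠ 0 := by
  intro h
  have h1 : IsAlgebraic ℂ t := ⟨s, hs, h⟩
  have h2 : Irreducible (minpoly ℂ t) := minpoly.irreducible h1.isIntegral
  exact ht (minpoly.mem_range_of_degree_eq_one _ _ (IsAlgClosed.degree_eq_one_of_irreducible ℂ h2))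

private theorem frac {t : K} (ht : t ∉ (algebraMap ℂ K).range)
    (hK : IntermediateField.adjoin ℂ {t} = ⊤) (z : K) :
    ∃ a s u w : ℂ[X], s ≠ 0 ∧ a * u + s * w = 1 ∧ z * aeval t s = aeval t a := by
  have hz : z ∈ IntermediateField.adjoin ℂ {t} := by
    rw [hK]
    exact IntermediateField.mem_top
  rw [IntermediateField.mem_adjoin_simple_iff] at hz
  obtain ⟨a0, s0, hz⟩ := hz
  by_cases h0 : s0 = 0
  · refine ⟨0, 1, 0, 1, one_ne_zero, by ring, ?_⟩
    rw [hz, h0, map_zero, div_zero, zero_mul]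
  · classical
    obtain ⟨a, ha⟩ := EuclideanDomain.gcd_dvd_left a0 s0
    obtain ⟨s, hs⟩ := EuclideanDomain.gcd_dvd_right a0 s0
    have hg := EuclideanDomain.gcd_eq_gcd_ab a0 s0
    generalize EuclideanDomain.gcd a0 s0 = g at ha hs hg
    generalize EuclideanDomain.gcdA a0 s0 = u at hg
    generalize EuclideanDomain.gcdB a0 s0 = w at hg
    have hg0 : g ≠ 0 := by
      rintro rfl
      rw [zero_mul] at hs
      exact h0 hs
    have hs0 : s ≠ 0 := by
      rintro rfl
      rw [mul_zero] at hs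
      exact h0 hs
    refine ⟨a, s, u, w, hs0, ?_, ?_⟩
    · apply mul_left_cancel₀ hg0
      rw [ha, hs] at hg
      linear_combination -hg
    · have h1 := nz ht hg0
      have h2 := nz ht hs0
      rw [hz, ha, hs, map_mul, map_mul, mul_div_mul_left _ _ h1, div_mul_cancel₀ _ h2]

private theorem aeval_mem {O : ValuationSubring K} (hO : HasC O) {y : K} (hy : y ∈ O)
    (p : ℂ[X]) : aeval y p ∈ O := by
  rw [aeval_eq_sum_range]
  refine sum_mem fun i _ => ?_
  rw [Algebra.smul_def]
  exact mul_mem (hO _) (pow_mem hy i)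

private theorem val_const {O : ValuationSubring K} (hO : HasC O) {c : ℂ} (hc : c ≠ 0) :
    O.valuation (algebraMap ℂ K c) = 1 := by
  have h0 : algebraMap ℂ K c ≠ 0 := by
    rw [Ne, map_eq_zero_iff _ (algebraMap ℂ K).injective]
    exact hc
  have h1 : O.valuation (algebraMap ℂ K c) ≤ 1 := (O.valuation_le_one_iff _).2 (hO c)
  have h2 : O.valuation (algebraMap ℂ K c)⁻¹ ≤ 1 := by
    rw [O.valuation_le_one_iff, ← map_inv₀]
    exact hO c⁻¹
  refine le_antisymm h1 ?_
  rw [map_inv₀] at h2
  have h3 : 0 < O.valuation (algebraMap ℂ K c) := by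
    rw [zero_lt_iff]
    exact (Valuation.ne_zero_iff _).2 h0
  exact (inv_le_one₀ h3).1 h2

private theorem val_deg {t : K} {O : ValuationSubring K} (hO : HasC O) (htO : t ∉ O)
    {s : ℂ[X]} (hs : s ≠ 0) : O.valuation (aeval t s) = O.valuation t ^ s.natDegree := by
  have ht0 : t ≠ 0 := by
    rintro rfl
    exact htO O.zero_mem
  have hv : 1 < O.valuation t := by
    rw [← not_le, O.valuation_le_one_iff]
    exact htO
  have hinv : O.valuation t⁻¹ < 1 := by
    rw [map_inv₀]
    exact inv_lt_one_of_one_lt₀ hv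
  have hi : t⁻¹ ∈ O := (O.valuation_le_one_iff _).1 hinv.le
  have h1 : aeval t⁻¹ s.reverse * t ^ s.natDegree = aeval t s := by
    have := invertibleOfNonzero ht0
    have h2 := eval₂_reverse_mul_pow (algebraMap ℂ K) t s
    rw [invOf_eq_inv] at h2
    exact h2
  have h3 : O.valuation (aeval t⁻¹ s.reverse) = 1 := by
    have h4 : aeval t⁻¹ s.reverse = aeval t⁻¹ s.reverse.divX * t⁻¹ +
        algebraMap ℂ K (s.leadingCoeff) := by
      conv_lhs => rw [← divX_mul_X_add s.reverse]
      rw [map_add, map_mul, aeval_X, aeval_C, coeff_zero_reverse]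
    have h5 : O.valuation (algebraMap ℂ K (s.leadingCoeff)) = 1 :=
      val_const hO (leadingCoeff_ne_zero.2 hs)
    have h6 : O.valuation (aeval t⁻¹ s.reverse.divX * t⁻¹) < 1 := by
      rw [map_mul]
      exact (mul_le_of_le_one_left' ((O.valuation_le_one_iff _).2 (aeval_mem hO hi _))).trans_lt hinv
    rw [h4, Valuation.map_add_eq_of_lt_right _ (by rw [h5]; exact h6), h5]
  rw [← h1, map_mul, map_pow, h3, one_mul]

theorem quot0 (t : K) (ht : t ∉ (algebraMap ℂ K).range)
    (hK : IntermediateField.adjoin ℂ {t} = ⊤) (O : ValuationSubring K) (hO : HasC O)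
    (htO : t ∈ O) (z : K) (hz : z ∈ O) :
    ∃ a s : ℂ[X], aeval t s ≠ 0 ∧ (aeval t s)⁻¹ ∈ O ∧ z * aeval t s = aeval t a := by
  obtain ⟨a, s, u, w, hs, h1, h2⟩ := frac ht hK z
  refine ⟨a, s, nz ht hs, ?_, h2⟩
  have h3 : aeval t s * (z * aeval t u + aeval t w) = 1 := by
    have h4 := congrArg (aeval t) h1
    rw [map_add, map_mul, map_mul, map_one, ← h2] at h4
    linear_combination h4
  rw [← eq_inv_of_mul_eq_one_right h3]
  exact add_mem (mul_mem hz (aeval_mem hO htO u)) (aeval_mem hO htO w)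

theorem quot1 (t : K) (ht : t ∉ (algebraMap ℂ K).range)
    (hK : IntermediateField.adjoin ℂ {t} = ⊤) (O : ValuationSubring K) (hO : HasC O)
    (htO : t ∉ O) (z : K) : z ∈ O ↔
      ∃ a s : ℂ[X], s ≠ 0 ∧ a.natDegree ≤ s.natDegree ∧ z * aeval t s = aeval t a := by
  have hv : 1 < O.valuation t := by
    rw [← not_le, O.valuation_le_one_iff]
    exact htO
  constructor
  · intro hz
    obtain ⟨a, s, -, -, hs, -, h2⟩ := frac ht hK z
    refine ⟨a, s, hs, ?_, h2⟩
    by_cases ha : a = 0
    · rw [ha, natDegree_zero]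
      exact Nat.zero_le _
    · have h3 := congrArg O.valuation h2
      rw [map_mul, val_deg hO htO hs, val_deg hO htO ha] at h3
      have h4 : O.valuation z ≤ 1 := (O.valuation_le_one_iff _).2 hz
      have h5 : O.valuation t ^ a.natDegree ≤ O.valuation t ^ s.natDegree := by
        rw [← h3]
        exact mul_le_of_le_one_left' h4
      exact (pow_le_pow_iff_right₀ hv).1 h5
  · rintro ⟨a, s, hs, hd, h2⟩
    by_cases ha : a = 0
    · rw [ha, map_zero] at h2
      rcases mul_eq_zero.1 h2 with h3 | h3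
      · rw [h3]
        exact O.zero_mem
      · exact absurd h3 (nz ht hs)
    · have h3 := congrArg O.valuation h2
      rw [map_mul, val_deg hO htO hs, val_deg hO htO ha] at h3
      rw [← O.valuation_le_one_iff]
      by_contra hcon
      rw [not_le] at hcon
      have h5 : O.valuation t ^ a.natDegree ≤ O.valuation t ^ s.natDegree :=
        pow_le_pow_right₀ hv.le hd
      rw [← h3] at h5
      have h6 : 0 < O.valuation t ^ s.natDegree := pow_pos (zero_lt_one.trans hv) _
      exact absurd h5 (not_le.2 (lt_mul_of_one_lt_left h6 hcon))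

end Pool.Agent.OSP
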