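import Pool.Agent.OSP.UnrA

/-!
# OSP-UnrB: a linear form which vanishes on `M0 + M∞` gives a trace form with small values

The polynomials `Λ w`, the form `λ` and the trace form.
-/

namespace Pool.Agent.OSP

open Polynomial

variable {K K' : Type} [Field K] [Field K'] [Algebra ℂ K] [Algebra ℂ K'] [Algebra K K']
  [IsScalarTower ℂ K K'] [FiniteDimensional K K']

private theorem ub_ne (t : K) (ht : t ∉ (algebraMap ℂ K).range) {q : ℂ[X]} (hq : q ≠ 0) :
    aeval t q ≠ 0 := by
  intro h
  have h1 : IsAlgebraic ℂ t := ⟨q, hq, h⟩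
  have h2 : IsIntegral ℂ t := h1.isIntegral
  exact ht (minpoly.mem_range_of_degree_eq_one ℂ t
    (IsAlgClosed.degree_eq_one_of_irreducible ℂ (minpoly.irreducible h2)))

private theorem ub_frac (t : K) (hK : IntermediateField.adjoin ℂ {t} = ⊤) (z : K) :
    ∃ a s : ℂ[X], s ≠ 0 ∧ z * aeval t s = aeval t a := by
  have h1 : z ∈ IntermediateField.adjoin ℂ {t} := by
    rw [hK]
    trivial
  obtain ⟨r, s, h⟩ := (IntermediateField.mem_adjoin_simple_iff ℂ z).1 h1
  by_cases hs : aeval t s = 0
  · refine ⟨0, 1, one_ne_zero, ?_⟩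
    rw [h, hs]
    simp
  · refine ⟨r, s, ?_, ?_⟩
    · rintro rfl
      exact hs (map_zero _)
    · rw [h, div_mul_cancel₀ _ hs]

private theorem ub_smul0 (t : K) (p : ℂ[X]) {w : K'}
    (hw : IsIntegral (Algebra.adjoin ℂ {t}) w) :
    IsIntegral (Algebra.adjoin ℂ {t}) (aeval t p • w) := by
  rw [Algebra.smul_def]
  refine IsIntegral.mul ?_ hw
  exact isIntegral_algebraMap (R := Algebra.adjoin ℂ {t})
    (x := ⟨aeval t p, aeval_mem_adjoin_singleton ℂ t⟩)

private theorem ub_smulI (O : ValuationSubring K) {z : K} (hz : z ∈ O) {w : K'}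
    (hw : IsIntegral O w) : IsIntegral O (z • w) := by
  rw [Algebra.smul_def]
  exact IsIntegral.mul (isIntegral_algebraMap (R := O) (x := (⟨z, hz⟩ : O))) hw

private theorem ub_den (t : K) (ht : t ∉ (algebraMap ℂ K).range)
    (hK : IntermediateField.adjoin ℂ {t} = ⊤) (v : K') :
    ∃ q : ℂ[X], q ≠ 0 ∧ IsIntegral (Algebra.adjoin ℂ {t}) (aeval t q • v) := by
  haveI : Algebra.IsAlgebraic (Algebra.adjoin ℂ {t}) K := by
    refine ⟨fun z => ?_⟩
    obtain ⟨a, s, hs, h⟩ := ub_frac t hK z
    refine ⟨C (⟨aeval t s, aeval_mem_adjoin_singleton ℂ t⟩ : Algebra.adjoin ℂ {t}) * X -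
      C (⟨aeval t a, aeval_mem_adjoin_singleton ℂ t⟩ : Algebra.adjoin ℂ {t}), ?_, ?_⟩
    · intro h0
      have h1 := congrArg (fun P => Polynomial.coeff P 1) h0
      simp only [coeff_sub, coeff_C_mul, coeff_X_one, mul_one, coeff_zero] at h1
      rw [coeff_C_of_ne_zero one_ne_zero, sub_zero] at h1
      exact ub_ne t ht hs (congrArg Subtype.val h1)
    · rw [map_sub, map_mul, aeval_C, aeval_C, aeval_X]
      show aeval t s * z - aeval t a = 0
      rw [mul_comm, h, sub_self]
  have h1 : IsAlgebraic (Algebra.adjoin ℂ {t}) v :=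
    (Algebra.IsAlgebraic.trans (Algebra.adjoin ℂ {t}) K K').isAlgebraic v
  obtain ⟨y, hy, h2⟩ := h1.exists_integral_multiple
  have h3 : (y : K) ∈ (Polynomial.aeval (R := ℂ) t).range := by
    rw [← Algebra.adjoin_singleton_eq_range_aeval]
    exact y.2
  obtain ⟨q, hq⟩ := h3
  refine ⟨q, ?_, ?_⟩
  · rintro rfl
    apply hy
    apply Subtype.ext
    rw [← hq]
    exact map_zero _
  · have h4 : aeval t q • v = y • v := by
      rw [Algebra.smul_def, Algebra.smul_def]
      congr 1
      show algebraMap K K' _ = algebraMap K K' (y : K)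
      rw [← hq]
      rfl
    rw [h4]
    exact h2

private theorem ub_quot (t : K) (ht : t ∉ (algebraMap ℂ K).range)
    (hK : IntermediateField.adjoin ℂ {t} = ⊤) (O : ValuationSubring K) (hO : HasC O)
    (htO : t ∉ O) {q : ℂ[X]} {n : ℕ} (h : q.natDegree ≤ n) :
    t⁻¹ ^ n * aeval t q ∈ O := by
  have ht0 : t ≠ 0 := by
    rintro rfl
    exact ht ⟨0, map_zero _⟩
  rw [quot1 t ht hK O hO htO]
  refine ⟨q, X ^ n, pow_ne_zero _ X_ne_zero, by rwa [natDegree_X_pow], ?_⟩
  rw [map_pow, aeval_X, mul_right_comm, ← mul_pow, inv_mul_cancel₀ ht0, one_pow, one_mul]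

private theorem ub_small (t : K) (ht : t ∉ (algebraMap ℂ K).range)
    (hK : IntermediateField.adjoin ℂ {t} = ⊤) (O : ValuationSubring K) (hO : HasC O)
    (htO : t ∉ O) (z : K) : ∃ n : ℕ, ∀ j, n ≤ j → t⁻¹ ^ j * z ∈ O := by
  have ht0 : t ≠ 0 := by
    rintro rfl
    exact ht ⟨0, map_zero _⟩
  obtain ⟨a, s, hs, h⟩ := ub_frac t hK z
  refine ⟨a.natDegree, fun j hj => ?_⟩
  rw [quot1 t ht hK O hO htO]
  refine ⟨a, X ^ j * s, mul_ne_zero (pow_ne_zero _ X_ne_zero) hs, ?_, ?_⟩
  · rw [natDegree_mul (pow_ne_zero _ X_ne_zero) hs, natDegree_X_pow]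
    omega
  · rw [map_mul, map_pow, aeval_X, ← h]
    have h1 : t⁻¹ ^ j * t ^ j = 1 := by rw [← mul_pow, inv_mul_cancel₀ ht0, one_pow]
    calc t⁻¹ ^ j * z * (t ^ j * aeval t s) = (t⁻¹ ^ j * t ^ j) * (z * aeval t s) := by ring
      _ = z * aeval t s := by rw [h1, one_mul]

private theorem ub_far (t : K) (ht : t ∉ (algebraMap ℂ K).range)
    (hK : IntermediateField.adjoin ℂ {t} = ⊤) (O : ValuationSubring K) (hO : HasC O)
    (htO : t ∉ O) (w : K') : ∃ n : ℕ, ∀ j, n ≤ j → IsIntegral O (t⁻¹ ^ j • w) := by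
  have h1 : IsAlgebraic O w :=
    (IsFractionRing.isAlgebraic_iff O K K').2 (Algebra.IsAlgebraic.isAlgebraic w)
  obtain ⟨y, hy, h2⟩ := h1.exists_integral_multiple
  have hy0 : (y : K) ≠ 0 := fun h => hy (Subtype.ext h)
  obtain ⟨n, hn⟩ := ub_small t ht hK O hO htO (y : K)⁻¹
  refine ⟨n, fun j hj => ?_⟩
  have h3 : t⁻¹ ^ j • w = (t⁻¹ ^ j * (y : K)⁻¹) • (y • w) := by
    have h4 : y • w = (y : K) • w := by
      rw [Algebra.smul_def, Algebra.smul_def]
      rfl
    rw [h4, smul_smul, mul_assoc, inv_mul_cancel₀ hy0, mul_one]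
  rw [h3]
  exact ub_smulI O (hn j hj) h2

theorem exists_trace_form (t : K) (ht : t ∉ (algebraMap ℂ K).range)
    (hK : IntermediateField.adjoin ℂ {t} = ⊤) (ℓ : K' →ₗ[ℂ] ℂ) (v : K') (hv : ℓ v ≠ 0)
    (h0 : ∀ w : K', IsIntegral (Algebra.adjoin ℂ {t}) w → ℓ w = 0)
    (h1 : ∀ w : K', (∀ O : ValuationSubring K, HasC O → t ∉ O → IsIntegral O w) → ℓ w = 0) :
    ∃ c : K', c ≠ 0 ∧
      (∀ w : K', IsIntegral (Algebra.adjoin ℂ {t}) w →
        Algebra.trace K K' (c * w) ∈ Algebra.adjoin ℂ {t}) ∧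
      (∀ w : K', (∀ O : ValuationSubring K, HasC O → t ∉ O → IsIntegral O w) →
        ∀ O : ValuationSubring K, HasC O → t ∉ O → Algebra.trace K K' (c * w) * t ∈ O) := by
  classical
  have ht0 : t ≠ 0 := by
    rintro rfl
    exact ht ⟨0, map_zero _⟩
  have hne : ∀ {q : ℂ[X]}, q ≠ 0 → aeval t q ≠ 0 := fun hq => ub_ne t ht hq
  -- the place at infinity
  obtain ⟨O, hO, htO⟩ : ∃ O : ValuationSubring K, HasC O ∧ t ∉ O := by
    by_contra hcon
    exact hv (h1 v fun O hO htO => absurd ⟨O, hO, htO⟩ hcon)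
  have hI : ∀ w : K', IsIntegral O w → ℓ w = 0 := by
    intro w hw
    apply h1 w
    intro O' hO' htO'
    have h2 : O' = O := by
      ext z
      rw [quot1 t ht hK O' hO' htO', quot1 t ht hK O hO htO]
    rw [h2]
    exact hw
  -- the polynomials `Λ w`
  choose N hN using fun w : K' => ub_far t ht hK O hO htO w
  set Λ : K' → ℂ[X] := fun w => ∑ j ∈ Finset.range (N w), C (ℓ (t⁻¹ ^ (j + 1) • w)) * X ^ j
    with hΛ
  have hco : ∀ w j, (Λ w).coeff j = ℓ (t⁻¹ ^ (j + 1) • w) := by
    intro w j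
    simp only [hΛ, finset_sum_coeff, coeff_C_mul_X_pow]
    by_cases h : j < N w
    · rw [Finset.sum_eq_single j]
      · rw [if_pos rfl]
      · intro i _ hi
        rw [if_neg (fun h' => hi h'.symm)]
      · intro h'
        exact absurd (Finset.mem_range.2 h) h'
    · rw [Finset.sum_eq_zero, hI _ (hN w (j + 1) (by omega))]
      intro i hi
      rw [if_neg]
      rintro rfl
      exact h (Finset.mem_range.1 hi)
  have hadd : ∀ w w', Λ (w + w') = Λ w + Λ w' := by
    intro w w'
    ext j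
    rw [coeff_add, hco, hco, hco, smul_add, map_add]
  have hX : ∀ w, IsIntegral (Algebra.adjoin ℂ {t}) w → Λ (t • w) = X * Λ w := by
    intro w hw
    ext j
    rw [hco]
    rcases j with _ | j
    · rw [coeff_X_mul_zero, zero_add, pow_one, smul_smul, inv_mul_cancel₀ ht0, one_smul,
        h0 w hw]
    · rw [coeff_X_mul, hco, smul_smul]
      congr 2
      rw [pow_succ, mul_assoc, inv_mul_cancel₀ ht0, mul_one]
  have hmul : ∀ (q : ℂ[X]) (w : K'), IsIntegral (Algebra.adjoin ℂ {t}) w →
      Λ (aeval t q • w) = q * Λ w := by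
    intro q w hw
    induction q using Polynomial.induction_on with
    | C a =>
      ext j
      rw [hco, coeff_C_mul, hco, aeval_C, algebraMap_smul, smul_comm, map_smul, smul_eq_mul]
    | add p q hp hq => rw [map_add, add_smul, hadd, hp, hq, add_mul]
    | monomial n a ih =>
      have h2 : aeval t (C a * X ^ (n + 1)) • w = t • (aeval t (C a * X ^ n) • w) := by
        rw [smul_smul]
        congr 1
        simp only [map_mul, map_pow, aeval_C, aeval_X]
        ring
      rw [h2, hX _ (ub_smul0 t _ hw), ih]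
      ring
  -- the form `lam`
  choose den hden0 hden using fun w : K' => ub_den t ht hK w
  set lam : K' → K := fun w => aeval t (Λ (aeval t (den w) • w)) / aeval t (den w) with hlam
  have key : ∀ (w : K') (q : ℂ[X]), q ≠ 0 → IsIntegral (Algebra.adjoin ℂ {t}) (aeval t q • w) →
      lam w = aeval t (Λ (aeval t q • w)) / aeval t q := by
    intro w q hq hw
    rw [hlam]
    beta_reduce
    rw [div_eq_div_iff (hne (hden0 w)) (hne hq), ← map_mul, ← map_mul]
    congr 1
    rw [mul_comm, ← hmul q _ (hden w), mul_comm, ← hmul (den w) _ hw, smul_smul, smul_smul,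
      mul_comm]
  have lam_add : ∀ w w', lam (w + w') = lam w + lam w' := by
    intro w w'
    have hq : den w * den w' ≠ 0 := mul_ne_zero (hden0 w) (hden0 w')
    have e1 : IsIntegral (Algebra.adjoin ℂ {t}) (aeval t (den w * den w') • w) := by
      rw [mul_comm, map_mul, mul_smul]
      exact ub_smul0 t _ (hden w)
    have e2 : IsIntegral (Algebra.adjoin ℂ {t}) (aeval t (den w * den w') • w') := by
      rw [map_mul, mul_smul]
      exact ub_smul0 t _ (hden w')
    rw [key w _ hq e1, key w' _ hq e2, key (w + w') _ hq (by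
      rw [smul_add]
      exact e1.add e2), smul_add, hadd, map_add, add_div]
  have lam_smul : ∀ (z : K) (w : K'), lam (z • w) = z * lam w := by
    intro z w
    obtain ⟨a, s, hs, h⟩ := ub_frac t hK z
    have hq : s * den w ≠ 0 := mul_ne_zero hs (hden0 w)
    have e1 : aeval t (s * den w) • (z • w) = aeval t a • (aeval t (den w) • w) := by
      rw [smul_smul, smul_smul, map_mul, ← h]
      congr 1
      ring
    rw [key (z • w) _ hq (by
      rw [e1]
      exact ub_smul0 t _ (hden w)), e1, hmul a _ (hden w), map_mul, map_mul]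
    rw [hlam]
    beta_reduce
    rw [← h]
    field_simp [hne hs, hne (hden0 w)]
  -- the trace form
  haveI : CharZero K := charZero_of_injective_algebraMap (algebraMap ℂ K).injective
  set L : Module.Dual K K' :=
    { toFun := lam, map_add' := lam_add, map_smul' := fun z w => lam_smul z w } with hL
  have hnd := traceForm_nondegenerate K K'
  obtain ⟨c, hc⟩ := (LinearMap.BilinForm.toDual (Algebra.traceForm K K') hnd).surjective L
  have hc' : ∀ w, Algebra.trace K K' (c * w) = lam w := by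
    intro w
    have h2 := congrArg (fun f : Module.Dual K K' => f w) hc
    exact h2
  refine ⟨c, ?_, ?_, ?_⟩
  · -- `c ≠ 0`
    rintro rfl
    have hz : ∀ w, lam w = 0 := by
      intro w
      rw [← hc' w, zero_mul, map_zero]
    have hΛ0 : ∀ w, IsIntegral (Algebra.adjoin ℂ {t}) w → Λ w = 0 := by
      intro w hw
      have e1 : IsIntegral (Algebra.adjoin ℂ {t}) (aeval t (1 : ℂ[X]) • w) := by
        rw [map_one, one_smul]
        exact hw
      have h2 := key w 1 one_ne_zero e1
      rw [hz, map_one, one_smul, div_one] at h2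
      by_contra hcon
      exact hne hcon h2.symm
    apply hv
    set w := aeval t (den v) • v with hw
    have hw0 : IsIntegral (Algebra.adjoin ℂ {t}) w := hden v
    have hNw : IsIntegral O (t⁻¹ ^ N w • w) := hN w (N w) le_rfl
    obtain ⟨a, s, hs, h⟩ := ub_frac t hK (t ^ N w * (aeval t (den v))⁻¹)
    have hρ : aeval t (a % s) / aeval t s ∈ O := by
      rw [quot1 t ht hK O hO htO]
      exact ⟨a % s, s, hs, natDegree_le_natDegree (degree_mod_lt a hs).le,
        div_mul_cancel₀ _ (hne hs)⟩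
    have hdiv : t ^ N w * (aeval t (den v))⁻¹ =
        aeval t (a / s) + aeval t (a % s) / aeval t s := by
      have h2 : aeval t a = aeval t s * aeval t (a / s) + aeval t (a % s) := by
        rw [← map_mul, ← map_add, EuclideanDomain.div_add_mod]
      rw [eq_div_of_mul_eq (hne hs) h, h2, add_div, mul_comm, mul_div_assoc,
        div_self (hne hs), mul_one]
    have hvw : v = t⁻¹ ^ N w • (aeval t (a / s) • w) +
        (aeval t (a % s) / aeval t s) • (t⁻¹ ^ N w • w) := by
      have h2 : v = (t⁻¹ ^ N w * (t ^ N w * (aeval t (den v))⁻¹)) • w := by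
        rw [← mul_assoc, ← mul_pow, inv_mul_cancel₀ ht0, one_pow, one_mul, hw, smul_smul,
          inv_mul_cancel₀ (hne (hden0 v)), one_smul]
      rw [hdiv, mul_add, add_smul, mul_smul, mul_comm (t⁻¹ ^ N w)
        (aeval t (a % s) / aeval t s), mul_smul] at h2
      exact h2
    rw [hvw, map_add, hI _ (ub_smulI O hρ hNw), add_zero]
    have hb : IsIntegral (Algebra.adjoin ℂ {t}) (aeval t (a / s) • w) := ub_smul0 t _ hw0
    rcases hNN : N w with _ | j
    · rw [pow_zero, one_smul]
      exact h0 _ hb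
    · rw [← hco, hΛ0 _ hb, coeff_zero]
  · intro w hw
    have e1 : IsIntegral (Algebra.adjoin ℂ {t}) (aeval t (1 : ℂ[X]) • w) := by
      rw [map_one, one_smul]
      exact hw
    rw [hc', key w 1 one_ne_zero e1, map_one, one_smul, div_one]
    exact aeval_mem_adjoin_singleton ℂ t
  · intro w hw O1 hO1 htO1
    rw [hc', quot1 t ht hK O1 hO1 htO1]
    refine ⟨X * Λ (aeval t (den w) • w), den w, hden0 w, ?_, ?_⟩
    · rw [natDegree_le_iff_coeff_eq_zero]
      intro j hj
      rcases j with _ | j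
      · omega
      · rw [coeff_X_mul, hco, smul_smul]
        exact hI _ (ub_smulI O (ub_quot t ht hK O hO htO (by omega)) (hw O hO htO))
    · rw [hlam]
      beta_reduce
      rw [map_mul, aeval_X]
      field_simp [hne (hden0 w)]

end Pool.Agent.OSP
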